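import Pool.Agent.Helper92.Weak.Defs

set_option autoImplicit false

/-!
# PB-44a BaseDefs: the starting classes of towers
-/

namespace Pool.Agent.Helper60.PB

open Pool.Agent.Helper92.Weak

variable {k K : Type*} [Field k] [Field K] [Algebra k K]

/-- All prime divisors of `Z` are big. -/
def IsPrimeBig (Z : ProjVar k K) : Prop :=
  ∀ (n : ℕ) (Q : Z.primeDivisors), Algebra.trdeg k K = n →
    Z.kod (Finsupp.single Q 1) = (n : EReal)

/-- For all integral divisors `D ≥ 0` and `A` there is `A' ≥ A` such that the ring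
`⊕ H⁰(Z, a D + b A')`, the sum over all `a, b ≥ 0`, is generated by finitely many homogeneous
elements. -/
def HasFGSections (Z : ProjVar k K) : Prop :=
  ∀ D A : Z.Div, Z.IsInt D → Z.IsInt A → (∀ P, 0 ≤ D P) → ∃ A' : Z.Div, (∀ P, A P ≤ A' P) ∧
    ∃ S : Finset (ℕ × ℕ × K), (∀ s ∈ S, s.2.2 ∈ Z.H0 ((s.1 : ℚ) • D + (s.2.1 : ℚ) • A')) ∧
      ∀ a b : ℕ, Z.H0 ((a : ℚ) • D + (b : ℚ) • A') ≤ Submodule.span k
        {f | ∃ m : ℕ × ℕ × K → ℕ, ∑ s ∈ S, m s * s.1 = a ∧ ∑ s ∈ S, m s * s.2.1 = b ∧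
          f = ∏ s ∈ S, s.2.2 ^ m s}

end Pool.Agent.Helper60.PB
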