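import Pool.Agent.Helper92.Weak.Defs

set_option autoImplicit false

/-!
# Fibrations whose general fibre has numerical dimension zero: definition
-/

namespace Pool.Agent.Helper60.PB

open Pool.Agent.Helper92.Weak

/-- `X → Z` is a morphism with connected general fibre (the function field `K` of `Z` is
algebraically closed in the function field `L` of `X`) which maps every prime divisor of `X` onto
`Z` or onto a prime divisor of `Z`; the restriction of `D` to the generic fibre has numerical
dimension zero: `h⁰(m D + A)` is bounded in `m`, for every divisor `A`; and `D - f* E` is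
`ℚ`-effective. -/
structure IsNuZero {k K L : Type*} [Field k] [Field K] [Field L] [Algebra k K] [Algebra k L]
    [Algebra K L] (X : ProjVar k L) (D : X.Div) (Z : ProjVar k K) (E : Z.Div) : Prop where
  mor : IsMorphism X Z
  equi : ∀ P ∈ X.primeDivisors, (∃ a : K, P (algebraMap K L a) ≠ 0) →
    ∃ Q ∈ Z.primeDivisors, ∃ e, LiesOver P Q e
  conn : ∀ x : L, IsAlgebraic K x → x ∈ Set.range (algebraMap K L)
  bdd : ∀ A : X.Div, ∃ C : ℕ, ∀ m : ℕ, X.genh0 K ((m : ℚ) • D + A) ≤ C
  eff : ∃ (m : ℕ) (φ : L), 0 < m ∧ φ ≠ 0 ∧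
    (∀ (P : X.primeDivisors) (Q : Z.primeDivisors) (e : ℕ), LiesOver P.1 Q.1 e →
      m * (e * E Q) ≤ P.1 φ + m * D P) ∧
    ∀ P : X.primeDivisors, (∀ a : K, P.1 (algebraMap K L a) = 0) → 0 ≤ P.1 φ + m * D P

end Pool.Agent.Helper60.PB
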