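import Mathlib

set_option autoImplicit false

/-!
# Project PB (MP_2c56d9_ag), genus 1: the addition formula

`y ^ 2 = t (t - 1) (t - l)`, `c ^ 2 = b (b - 1) (b - l)`; the abscissa of the translate
of the point `(t, y)` by `- (b, c)` is `T = m ^ 2 + (1 + l) - t - b`, `m = (y + c) / (t - b)`, its
ordinate is `Y = - (m (T - t) + y)`. Then `Y ^ 2 = T (T - 1) (T - l)` and, with `d / d t`,
`y T' = Y`. So `(T - l) / y ^ 2` is the product of the logarithmic derivatives of `T` and `T - 1`.
-/

namespace Pool.Agent.Helper60.PB

section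

variable {L : Type*} [Field L]

/-- The slope. -/
def slope (t y b c : L) : L := (y + c) / (t - b)

/-- The abscissa of the translate. -/
def trT (l t y b c : L) : L := slope t y b c ^ 2 + (1 + l) - t - b

/-- The ordinate of the translate. -/
def trY (l t y b c : L) : L := -(slope t y b c * (trT l t y b c - t) + y)

theorem trY_sq {l t y b c : L} (hy : y ^ 2 = t * (t - 1) * (t - l))
    (hc : c ^ 2 = b * (b - 1) * (b - l)) (htb : t ≠ b) :
    trY l t y b c ^ 2 = trT l t y b c * (trT l t y b c - 1) * (trT l t y b c - l) := by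
  have h0 : t - b ≠ 0 := sub_ne_zero.2 htb
  unfold trY
  set m := slope t y b c with hm
  set T := trT l t y b c with hT
  have hm' : m * (t - b) = y + c := by
    rw [hm, slope]
    field_simp
  have hT' : T = m ^ 2 + (1 + l) - t - b := rfl
  -- Lagrange interpolation for the difference of the two monic cubic polynomials
  have key : (t - b) * (T * (T - 1) * (T - l) - (-(m * (T - t) + y)) ^ 2) =
      (t * (t - 1) * (t - l) - y ^ 2) * (T - b) -
        (b * (b - 1) * (b - l) - (m * (b - t) + y) ^ 2) * (T - t) := by
    rw [hT']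
    ring
  have h1 : m * (b - t) + y = -c := by linear_combination -hm'
  have h3 : (t - b) * (T * (T - 1) * (T - l) - (-(m * (T - t) + y)) ^ 2) = 0 := by
    rw [key, h1]
    linear_combination (-(T - b)) * hy + (T - t) * hc
  have h2 := (mul_eq_zero.1 h3).resolve_left h0
  exact (sub_eq_zero.1 h2).symm

theorem deriv_trT {K : Type*} [Field K] [Algebra K L] (D : Derivation K L L) {l b c : K} {t y : L}
    (ht : D t = 1) (hy : y ^ 2 = t * (t - 1) * (t - algebraMap K L l))
    (hc : c ^ 2 = b * (b - 1) * (b - l)) (htb : t ≠ algebraMap K L b) :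
    y * D (trT (algebraMap K L l) t y (algebraMap K L b) (algebraMap K L c)) =
      trY (algebraMap K L l) t y (algebraMap K L b) (algebraMap K L c) := by
  have h0 : t - algebraMap K L b ≠ 0 := sub_ne_zero.2 htb
  set l' := algebraMap K L l with hl'
  set b' := algebraMap K L b with hb'
  set c' := algebraMap K L c with hc'
  have hDl : D l' = 0 := D.map_algebraMap l
  have hDb : D b' = 0 := D.map_algebraMap b
  have hDc : D c' = 0 := D.map_algebraMap c
  have hc1 : c' ^ 2 = b' * (b' - 1) * (b' - l') := by
    have h3 := congrArg (algebraMap K L) hc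
    simpa using h3
  have hDy : 2 * (y * D y) = 3 * t ^ 2 - 2 * (1 + l') * t + l' := by
    have h3 := congrArg D hy
    rw [pow_two, Derivation.leibniz, Derivation.leibniz, Derivation.leibniz, map_sub, map_sub, ht,
      hDl, Derivation.map_one_eq_zero] at h3
    simp only [smul_eq_mul] at h3
    linear_combination h3
  unfold trY
  set m := slope t y b' c' with hm
  set T := trT l' t y b' c' with hT
  have hm' : m * (t - b') = y + c' := by
    rw [hm, slope]
    field_simp
  have hDm : D m * (t - b') + m = D y := by
    have h3 := congrArg D hm'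
    rw [Derivation.leibniz, map_sub, map_add, ht, hDb, hDc] at h3
    simp only [smul_eq_mul] at h3
    linear_combination h3
  have hT' : T = m ^ 2 + (1 + l') - t - b' := rfl
  have hDT : D T = 2 * m * D m - 1 := by
    rw [hT', map_sub, map_sub, map_add, map_add, ht, hDb, hDl, Derivation.map_one_eq_zero, pow_two,
      Derivation.leibniz]
    simp only [smul_eq_mul]
    ring
  rw [hDT]
  -- `m (y - c) = (f t - f b) / (t - b)`
  have h3 : m * (y - c') = t ^ 2 + t * b' + b' ^ 2 - (1 + l') * (t + b') + l' := by
    have h4 : (t - b') * (m * (y - c') - (t ^ 2 + t * b' + b' ^ 2 - (1 + l') * (t + b') + l')) = 0 := by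
      linear_combination (y - c') * hm' + hy - hc1
    exact sub_eq_zero.1 ((mul_eq_zero.1 h4).resolve_left h0)
  have h5 : (t - b') * (y * (2 * m * D m - 1) - (-(m * (T - t) + y))) = 0 := by
    rw [hT']
    linear_combination (2 * m * y) * hDm + m * hDy - m * h3 + (m ^ 2) * hm'
  exact sub_eq_zero.1 ((mul_eq_zero.1 h5).resolve_left h0)

/-- `(T - l) / y ^ 2` as a product of two logarithmic derivatives. -/
theorem trT_sub_div {K : Type*} [Field K] [Algebra K L] (D : Derivation K L L) {l b c : K}
    {t y : L} (ht : D t = 1) (hy : y ^ 2 = t * (t - 1) * (t - algebraMap K L l)) (hy0 : y ≠ 0)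
    (hc : c ^ 2 = b * (b - 1) * (b - l)) (htb : t ≠ algebraMap K L b) {T : L}
    (hT : T = trT (algebraMap K L l) t y (algebraMap K L b) (algebraMap K L c)) (hT0 : T ≠ 0)
    (hT1 : T - 1 ≠ 0) :
    (T - algebraMap K L l) / y ^ 2 = (D T / T) * (D (T - 1) / (T - 1)) := by
  have h3 := deriv_trT D ht hy hc htb
  have hc1 : (algebraMap K L c) ^ 2 = algebraMap K L b * (algebraMap K L b - 1) *
      (algebraMap K L b - algebraMap K L l) := by
    have h4 := congrArg (algebraMap K L) hc
    simpa using h4
  have h4 := trY_sq hy hc1 htb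
  rw [← hT] at h3 h4
  rw [← h3] at h4
  rw [map_sub, Derivation.map_one_eq_zero, sub_zero]
  field_simp
  linear_combination -h4

/-- The difference of the abscissas, if the point `(b, c)` is near the origin. -/
theorem trT_sub_self {l t y b c : L}
    (hc : c ^ 2 = b * (b - 1) * (b - l)) (htb : t ≠ b) :
    (trT l t y b c - t) * (t - b) ^ 2 =
      2 * y * c + b * (3 * t ^ 2 - 2 * (1 + l) * t + l) + y ^ 2 + (1 + l - 2 * t) * t ^ 2 := by
  have h0 : t - b ≠ 0 := sub_ne_zero.2 htb
  unfold trT slope
  field_simp
  linear_combination hc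

end

end Pool.Agent.Helper60.PB
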