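import Pool.Agent.Helper60.PB.BaseDefs
import Pool.Agent.Helper60.MA.Growth
import Pool.Agent.Helper92.Weak.Final
import Pool.Agent.Helper63.PB.Approx
import Pool.Agent.Helper92.Ga.Line

set_option autoImplicit false
set_option linter.unusedSectionVars false

/-!
# PB-44 BigBase: varieties on which all prime divisors are big

`IsPrimeBig.kod_eq_nu`: if every prime divisor of `Z` is big (Kodaira dimension `dim Z`), then
`κ(D) = ν(D)` for every `ℚ`-divisor `D` with `κ(D) ≥ 0`. Examples: varieties of Picard number one, and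
`primeBig_curve`: curves of arbitrary genus.

`sum_ram_le`: the fundamental inequality `∑ e_i ≤ [E' : E]`.
`riemann`: Riemann's inequality for the multiples of a point of a curve.
-/

namespace Pool.Agent.Helper60.PB

open Pool.Agent.Helper92.Weak Pool.Agent.Helper47.PQ Pool.Agent.Helper63.PB
open Pool.Agent.Helper92.Ga

section Gen

variable {k K : Type*} [Field k] [IsAlgClosed k] [Field K] [Algebra k K] {Z : ProjVar k K}

theorem kod_mono {D D' : Z.Div} (h : ∀ P, D P ≤ D' P) : Z.kod D ≤ Z.kod D' := by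
  rcases regular D with ⟨-, h1⟩ | ⟨d, C, m₀, hd, hm₀, hi, hl, -⟩
  · rw [h1]
    exact bot_le
  rcases regular D' with ⟨h2, -⟩ | ⟨d', C', -, hd', -, -, -, hu'⟩
  · exfalso
    have h3 := hl 1 le_rfl
    have h4 : Z.h0 (((1 * m₀ : ℕ) : ℚ) • D) = 0 := by
      have h5 := Z.h0_le (((1 * m₀ : ℕ) : ℚ) • D)
      have h6 : Z.H0 (((1 * m₀ : ℕ) : ℚ) • D) ≤ Z.H0 (((1 * m₀ : ℕ) : ℚ) • D') := by
        refine H0_mono fun P => ?_
        rw [Finsupp.smul_apply, Finsupp.smul_apply, smul_eq_mul, smul_eq_mul]
        exact mul_le_mul_of_nonneg_left (h P) (Nat.cast_nonneg _)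
      rw [h2 _ (by omega), le_bot_iff] at h6
      rw [h6, sdim_bot] at h5
      exact le_antisymm h5 zero_le
    rw [h4, mul_zero] at h3
    simp at h3
  · rw [hd, hd']
    have h3 : ∀ m : ℕ, 1 ≤ m → m ^ d ≤ C * C' * m₀ ^ d' * m ^ d' := by
      intro m hm
      have h4 := hl m hm
      have h5 := Z.h0_le (((m * m₀ : ℕ) : ℚ) • D)
      have h6 : Z.H0 (((m * m₀ : ℕ) : ℚ) • D) ≤ Z.H0 (((m * m₀ : ℕ) : ℚ) • D') := by
        refine H0_mono fun P => ?_
        rw [Finsupp.smul_apply, Finsupp.smul_apply, smul_eq_mul, smul_eq_mul]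
        exact mul_le_mul_of_nonneg_left (h P) (Nat.cast_nonneg _)
      have h7 := hu' (m * m₀) (Nat.one_le_iff_ne_zero.2 (by positivity))
      have h8 := (h5.trans (sdim_mono h6)).trans h7
      have h9 : ((m ^ d : ℕ) : ℕ∞) ≤ ((C * C' * m₀ ^ d' * m ^ d' : ℕ) : ℕ∞) := by
        push_cast
        calc (m : ℕ∞) ^ d ≤ C * Z.h0 (((m * m₀ : ℕ) : ℚ) • D) := h4
          _ ≤ C * (C' * ((m * m₀ : ℕ) : ℕ∞) ^ d') := by gcongr
          _ = C * C' * m₀ ^ d' * m ^ d' := by push_cast; ring
      exact_mod_cast h9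
    by_contra hcon
    push Not at hcon
    have hdd : d' < d := by exact_mod_cast hcon
    have h4 := h3 (C * C' * m₀ ^ d' + 1) (by omega)
    have h5 : (C * C' * m₀ ^ d' + 1) ^ (d' + 1) ≤ (C * C' * m₀ ^ d' + 1) ^ d :=
      Nat.pow_le_pow_right (by omega) hdd
    have h6 : (C * C' * m₀ ^ d') * (C * C' * m₀ ^ d' + 1) ^ d' <
        (C * C' * m₀ ^ d' + 1) ^ (d' + 1) := by
      rw [pow_succ']
      exact Nat.mul_lt_mul_of_pos_right (by omega) (by positivity)
    omega

theorem nu_le_dim {n : ℕ} (hn : Algebra.trdeg k K = n) (D : Z.Div) : Z.nu D ≤ (n : EReal) := by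
  obtain ⟨z, hz⟩ := Pool.Agent.Helper92.Weak.exists_basis_of_trdeg hn
  refine MA.nu_le Z D ⊤ z ?_ ?_
  · intro x _
    have h1 := hz.isAlgebraic_field
    exact h1.isAlgebraic x
  · intro A
    refine ⟨⊤, ?_, fun m f _ => Submodule.mem_top⟩
    have h1 : FiniteDimensional (⊤ : IntermediateField k K) K := by
      refine FiniteDimensional.of_surjective (Algebra.linearMap (⊤ : IntermediateField k K) K) ?_
      intro x
      exact ⟨⟨x, IntermediateField.mem_top⟩, rfl⟩
    infer_instance

theorem nu_zero_le : Z.nu (0 : Z.Div) ≤ 0 := by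
  rw [nu_eq_sup]
  refine iSup_le fun A => ?_
  obtain ⟨C, n, hC⟩ := finite_h0 (0 : Z.Div) A
  have h0 : ∀ m : ℕ, (m : ℚ) • (0 : Z.Div) + A = A := fun m => by rw [smul_zero, zero_add]
  have h1 : sdim (Z.H0 A) ≤ (C : ℕ∞) := by
    have h2 := hC 1 le_rfl
    rw [h0] at h2
    simpa using h2
  have h3 := logGrowth_le (s := 0) (C := C) (a := 1) (c := 0) (φ := id)
    Filter.tendsto_id (by intro m; simp) (h1 := fun m => sdim (Z.H0 ((m : ℚ) • (0 : Z.Div) + A)))
    (h2 := fun _ => 1) (by
      filter_upwards with m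
      rw [h0, pow_zero, mul_one, mul_one]
      exact h1)
  have h4 : logGrowth (fun _ => (1 : ℕ∞)) = 0 := by
    unfold logGrowth
    simp
  rw [h4, add_zero] at h3
  exact_mod_cast h3

/-- If all prime divisors are big then `κ(D) = ν(D)` whenever `κ(D) ≥ 0`. -/
theorem IsPrimeBig.kod_eq_nu (hZ : IsPrimeBig Z) {n : ℕ} (hn : Algebra.trdeg k K = n) {D : Z.Div}
    (hD : Z.kod D ≠ ⊥) : Z.kod D = Z.nu D := by
  classical
  -- an effective divisor
  obtain ⟨m, hm, f, hf, hfD⟩ : ∃ m : ℕ, 1 ≤ m ∧ ∃ f : K, f ≠ 0 ∧ f ∈ Z.H0 ((m : ℚ) • D) := by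
    by_contra hcon
    push Not at hcon
    apply hD
    rcases regular D with ⟨-, h1⟩ | ⟨d, C, m₀, hd, hm₀, hi, hl, -⟩
    · exact h1
    · exfalso
      have h3 := hl 1 le_rfl
      have h4 : Z.H0 (((1 * m₀ : ℕ) : ℚ) • D) = ⊥ := by
        rw [eq_bot_iff]
        intro f hf
        by_contra hf0
        exact hcon (1 * m₀) (by omega) f hf0 hf
      have h5 := Z.h0_le (((1 * m₀ : ℕ) : ℚ) • D)
      rw [h4, sdim_bot] at h5
      rw [le_antisymm h5 zero_le, mul_zero] at h3
      simp at h3
  set D₀ : Z.Div := (m : ℚ) • D + Z.prin f with hD₀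
  have hpos : ∀ Q, 0 ≤ D₀ Q := by
    intro Q
    have h1 := (MA.mem_H0.1 hfD) Q
    rw [DVal.ge_iff hf] at h1
    rw [hD₀, Finsupp.add_apply, ProjVar.prin_apply]
    linarith
  have e1 : Z.kod D₀ = Z.kod D := by rw [hD₀, Z.kod_add_prin _ hf, kod_smul D hm]
  have e2 : Z.nu D₀ = Z.nu D := by rw [hD₀, Z.nu_add_prin _ hf, nu_smul D hm]
  rw [← e1, ← e2]
  have hbot : Z.kod D₀ ≠ ⊥ := by rwa [e1]
  refine le_antisymm (kod_le_nu D₀) ?_
  by_cases h0 : D₀ = 0
  · have h1 : (0 : EReal) ≤ Z.kod D₀ := by
      rcases regular D₀ with ⟨-, h1⟩ | ⟨d, -, -, hd, -⟩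
      · exact absurd h1 hbot
      · rw [hd]
        exact_mod_cast Nat.zero_le d
    refine le_trans ?_ h1
    rw [h0]
    exact nu_zero_le
  · obtain ⟨Q, hQ⟩ : ∃ Q, D₀ Q ≠ 0 := by
      by_contra hcon
      push Not at hcon
      exact h0 (Finsupp.ext hcon)
    have hQ' : 0 < D₀ Q := lt_of_le_of_ne (hpos Q) (Ne.symm hQ)
    obtain ⟨N, hN⟩ := exists_nat_gt (1 / D₀ Q)
    have hN0 : (0 : ℚ) < N := lt_trans (by positivity) hN
    have hN1 : 1 ≤ N := by
      have : 0 < N := by exact_mod_cast hN0
      omega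
    have h1 : ∀ P, (Finsupp.single Q 1 : Z.Div) P ≤ ((N : ℚ) • D₀) P := by
      intro P
      rw [Finsupp.smul_apply, smul_eq_mul, Finsupp.single_apply]
      split_ifs with h
      · subst h
        rw [div_lt_iff₀ hQ'] at hN
        exact hN.le
      · exact mul_nonneg hN0.le (hpos P)
    have h2 := kod_mono h1
    rw [hZ n Q hn, kod_smul D₀ hN1] at h2
    exact (nu_le_dim hn D₀).trans h2

end Gen

section Ram

/-- The fundamental inequality: the sum of the ramification indices is at most the degree. -/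
theorem sum_ram_le {k E E' : Type*} [Field k] [Field E] [Field E'] [Algebra k E] [Algebra k E']
    [Algebra E E'] [IsScalarTower k E E'] [FiniteDimensional E E'] (v : DVal k E)
    (T : Finset (DVal k E')) (e : DVal k E' → ℕ) (hT : ∀ w ∈ T, LiesOver w v (e w)) :
    ∑ w ∈ T, e w ≤ Module.finrank E E' := by
  classical
  have hx : ∀ w : T, ∃ x : E', x ≠ 0 ∧ w.1 x = 0 ∧ ∀ w' ∈ T, w' ≠ w.1 → 1 ≤ w' x := fun w => by
    obtain ⟨x, h0, h1, h2⟩ := exists_sep (hT w.1 w.2)
    exact ⟨x, h0, h1, fun w' hw' hne => h2 w' _ (hT w' hw') hne⟩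
  have hπ : ∀ w : T, ∃ x : E', w.1 x = 1 ∧ ∀ w' ∈ T, w' ≠ w.1 → 1 ≤ w' x := fun w => by
    obtain ⟨x, h1, h2⟩ := exists_one (hT w.1 w.2)
    exact ⟨x, h1, fun w' hw' hne => h2 w' _ (hT w' hw') hne⟩
  choose x hx0 hx1 hx2 using hx
  choose π hπ1 hπ2 using hπ
  have hπ0 : ∀ w : T, π w ≠ 0 := fun w => w.1.ne_zero_of_pos (by rw [hπ1 w]; norm_num)
  obtain ⟨M, hM⟩ : ∃ M : ℕ, ∀ w ∈ T, e w ≤ M :=
    ⟨∑ w ∈ T, e w, fun w hw => Finset.single_le_sum (fun _ _ => Nat.zero_le _) hw⟩
  let y : (Σ w : T, Fin (e w)) → E' := fun i => x i.1 ^ M * π i.1 ^ (i.2 : ℕ)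
  have hy0 : ∀ i, y i ≠ 0 := fun i => mul_ne_zero (pow_ne_zero _ (hx0 _)) (pow_ne_zero _ (hπ0 _))
  have hy1 : ∀ i : (Σ w : T, Fin (e w)), i.1.1 (y i) = (i.2 : ℕ) := fun i => by
    change i.1.1 (x i.1 ^ M * π i.1 ^ (i.2 : ℕ)) = _
    rw [i.1.1.map_mul (pow_ne_zero _ (hx0 _)) (pow_ne_zero _ (hπ0 _)), DVal.map_pow, DVal.map_pow,
      hx1, hπ1]
    ring
  have hy2 : ∀ i : (Σ w : T, Fin (e w)), ∀ w ∈ T, w ≠ i.1.1 → (M : ℤ) ≤ w (y i) := fun i w hw hne => by
    change (M : ℤ) ≤ w (x i.1 ^ M * π i.1 ^ (i.2 : ℕ))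
    rw [w.map_mul (pow_ne_zero _ (hx0 _)) (pow_ne_zero _ (hπ0 _)), DVal.map_pow, DVal.map_pow]
    have h1 := hx2 i.1 w hw hne
    have h2 := hπ2 i.1 w hw hne
    have h3 : (M : ℤ) * 1 ≤ M * w (x i.1) := mul_le_mul_of_nonneg_left h1 (by positivity)
    have h4 : (0 : ℤ) ≤ ((i.2 : ℕ) : ℤ) * w (π i.1) := mul_nonneg (by positivity) (by omega)
    omega
  have hli : LinearIndependent E y := by
    rw [Fintype.linearIndependent_iff]
    intro g hg
    by_contra hcon
    push Not at hcon
    obtain ⟨i₁, hi₁⟩ := hcon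
    obtain ⟨i₀, hi₀, hmin₀⟩ := (Finset.univ.filter fun i => g i ≠ 0).exists_min_image
      (fun i => v (g i)) ⟨i₁, by simp [hi₁]⟩
    have hgi₀ : g i₀ ≠ 0 := (Finset.mem_filter.1 hi₀).2
    obtain ⟨i, hi, hmin⟩ := (Finset.univ.filter fun i => g i ≠ 0 ∧ i.1 = i₀.1).exists_min_image
      (fun i => (e i₀.1.1 : ℤ) * v (g i) + (i.2 : ℕ)) ⟨i₀, by simp [hgi₀]⟩
    obtain ⟨hgi, hii⟩ := (Finset.mem_filter.1 hi).2
    have hei : e i.1.1 = e i₀.1.1 := by rw [hii]
    rw [← hei] at hmin
    have hLi := hT i.1.1 i.1.2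
    have he0 : 0 < e i.1.1 := hLi.1
    have hgi' : algebraMap E E' (g i) ≠ 0 := (map_ne_zero _).2 hgi
    rw [← Finset.add_sum_erase _ _ (Finset.mem_univ i)] at hg
    have h1 : g i • y i = -∑ j ∈ Finset.univ.erase i, g j • y j := by
      linear_combination hg
    have hval : i.1.1 (g i • y i) = e i.1.1 * v (g i) + (i.2 : ℕ) := by
      rw [Algebra.smul_def, i.1.1.map_mul hgi' (hy0 i), hLi.2, hy1]
    have h2 : i.1.1.Ge ((i.1.1 (g i • y i) + 1 : ℤ) : ℚ) (g i • y i) := by
      rw [h1]
      refine DVal.Ge.neg (DVal.Ge.sum fun j hj => ?_)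
      rw [← h1, hval]
      have hji : j ≠ i := (Finset.mem_erase.1 hj).1
      by_cases hgj : g j = 0
      · left
        rw [hgj, zero_smul]
      · have hgj' : algebraMap E E' (g j) ≠ 0 := (map_ne_zero _).2 hgj
        right
        rw [Algebra.smul_def, i.1.1.map_mul hgj' (hy0 j), hLi.2]
        have h3 : (e i.1.1 : ℤ) * v (g i) + (i.2 : ℕ) + 1 ≤ e i.1.1 * v (g j) + i.1.1 (y j) := by
          by_cases hw : j.1 = i.1
          · have h5 := hmin j (by simp [hgj, hw, hii])
            have h6 : i.1.1 (y j) = (j.2 : ℕ) := by rw [← hw, hy1]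
            rw [h6]
            by_contra hlt
            push Not at hlt
            have h7 : (e i.1.1 : ℤ) * v (g i) + (i.2 : ℕ) = e i.1.1 * v (g j) + (j.2 : ℕ) := by
              omega
            have hi2 : ((i.2 : ℕ) : ℤ) < e i.1.1 := by exact_mod_cast i.2.2
            have hj2 : ((j.2 : ℕ) : ℤ) < e i.1.1 := by
              have h10 : (j.2 : ℕ) < e j.1.1 := j.2.2
              have h11 : e j.1.1 = e i.1.1 := by rw [hw]
              have h12 : (j.2 : ℕ) < e i.1.1 := h10.trans_eq h11
              exact_mod_cast h12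
            have hi2' : (0 : ℤ) ≤ ((i.2 : ℕ) : ℤ) := by positivity
            have hj2' : (0 : ℤ) ≤ ((j.2 : ℕ) : ℤ) := by positivity
            have h8 : v (g i) = v (g j) := by
              have he0' : (0 : ℤ) < e i.1.1 := by exact_mod_cast he0
              by_contra hne
              rcases lt_or_gt_of_ne hne with h | h
              · have : (e i.1.1 : ℤ) * (v (g i) + 1) ≤ e i.1.1 * v (g j) :=
                  mul_le_mul_of_nonneg_left (by omega) he0'.le
                linarith
              · have : (e i.1.1 : ℤ) * (v (g j) + 1) ≤ e i.1.1 * v (g i) :=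
                  mul_le_mul_of_nonneg_left (by omega) he0'.le
                linarith
            have h9 : (i.2 : ℕ) = j.2 := by
              rw [h8] at h7
              omega
            apply hji
            obtain ⟨a, b⟩ := i
            obtain ⟨a', b'⟩ := j
            simp only at hw h9
            subst hw
            congr 1
            exact Fin.ext h9.symm
          · have h5 := hy2 j i.1.1 i.1.2 (fun h => hw (Subtype.ext h.symm))
            have h6 := hmin i₀ (by simp [hgi₀])
            have h7 := hmin₀ j (by simp [hgj])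
            have h8 := hM i.1.1 i.1.2
            have h9 : ((i₀.2 : ℕ) : ℤ) < e i.1.1 := by
              have h12 : (i₀.2 : ℕ) < e i.1.1 := i₀.2.2.trans_eq hei.symm
              exact_mod_cast h12
            have h10 : (e i.1.1 : ℤ) * v (g i₀) ≤ e i.1.1 * v (g j) :=
              mul_le_mul_of_nonneg_left h7 (by positivity)
            have h11 : (e i.1.1 : ℤ) ≤ M := by exact_mod_cast h8
            linarith
        exact_mod_cast h3
    have h3 : g i • y i ≠ 0 := by
      rw [Algebra.smul_def]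
      exact mul_ne_zero hgi' (hy0 i)
    rw [DVal.ge_iff h3] at h2
    have h4 : i.1.1 (g i • y i) + 1 ≤ i.1.1 (g i • y i) := by exact_mod_cast h2
    omega
  have h := hli.fintype_card_le_finrank
  rw [Fintype.card_sigma] at h
  simp only [Fintype.card_fin] at h
  rwa [Finset.sum_coe_sort T e] at h

end Ram

section Cut

variable {k K : Type*} [Field k] [Field K] [Algebra k K]

theorem finrank_cut (w : DVal k K)
    (hres : ∀ z, 0 ≤ w z → ∃ c : k, w.Ge 1 (z - algebraMap k K c)) (a : ℕ) (V : Submodule k K)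
    [FiniteDimensional k V] (hV : ∀ f ∈ V, w.Ge (-(a : ℚ)) f) :
    Module.finrank k V ≤ Module.finrank k (V ⊓ w.filt 0 : Submodule k K) + a := by
  induction a generalizing V with
  | zero =>
    have h1 : V ⊓ w.filt 0 = V := by
      rw [inf_eq_left]
      intro f hf
      have := hV f hf
      simpa using this
    rw [h1, add_zero]
  | succ a ih =>
    have hfin : FiniteDimensional k (V ⊓ w.filt (-(a : ℚ)) : Submodule k K) :=
      Submodule.finiteDimensional_of_le inf_le_left
    have h1 := ih (V ⊓ w.filt (-(a : ℚ))) fun f hf => hf.2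
    have h2 : V ⊓ w.filt (-(a : ℚ)) ⊓ w.filt 0 = V ⊓ w.filt 0 := by
      apply le_antisymm
      · exact inf_le_inf_right _ inf_le_left
      · refine le_inf (le_inf inf_le_left ?_) inf_le_right
        refine le_trans inf_le_right ?_
        intro f hf
        exact DVal.Ge.mono hf (by simp)
    rw [h2] at h1
    by_cases hex : ∃ u ∈ V, ¬ w.Ge (-(a : ℚ)) u
    · obtain ⟨u, hu, hua⟩ := hex
      have hu0 : u ≠ 0 := fun h => hua (Or.inl h)
      have hwu : w u = -((a : ℤ) + 1) := by
        have h3 := hV u hu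
        rw [DVal.ge_iff hu0] at h3 hua
        push_cast at h3
        have h4 : -((a : ℤ) + 1) ≤ w u := by exact_mod_cast h3
        have h5 : w u < -(a : ℤ) := by
          by_contra hcon
          push Not at hcon
          exact hua (by exact_mod_cast hcon)
        omega
      have h3 : V ≤ (V ⊓ w.filt (-(a : ℚ))) ⊔ Submodule.span k {u} := by
        intro f hf
        by_cases hf0 : f = 0
        · rw [hf0]
          exact Submodule.zero_mem _
        have hfu : 0 ≤ w (f / u) := by
          rw [w.map_div hf0 hu0, hwu]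
          have h3 := hV f hf
          rw [DVal.ge_iff hf0] at h3
          push_cast at h3
          have h4 : -((a : ℤ) + 1) ≤ w f := by exact_mod_cast h3
          omega
        obtain ⟨c, hc⟩ := hres _ hfu
        have h4 : f - c • u = (f / u - algebraMap k K c) * u := by
          rw [sub_mul, div_mul_cancel₀ _ hu0, Algebra.smul_def]
        have h5 : w.Ge (-(a : ℚ)) (f - c • u) := by
          rw [h4]
          have h6 := hc.mul (w.ge_self u)
          refine h6.mono ?_
          rw [hwu]
          push_cast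
          linarith
        have h6 : f = (f - c • u) + c • u := by ring
        rw [h6]
        refine Submodule.add_mem_sup ⟨?_, h5⟩
          (Submodule.smul_mem _ _ (Submodule.mem_span_singleton_self u))
        exact V.sub_mem hf (V.smul_mem c hu)
      have h4 : Module.finrank k V ≤
          Module.finrank k (V ⊓ w.filt (-(a : ℚ)) : Submodule k K) + 1 := by
        have h5 := Submodule.finrank_mono h3
        have h6 := Submodule.finrank_add_le_finrank_add_finrank
          (V ⊓ w.filt (-(a : ℚ)) : Submodule k K) (Submodule.span k {u})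
        have h7 : Module.finrank k (Submodule.span k {u}) = 1 := finrank_span_singleton hu0
        omega
      omega
    · push Not at hex
      have h3 : V ⊓ w.filt (-(a : ℚ)) = V := inf_eq_left.2 hex
      have h4 := ih V hex
      omega

theorem finrank_cuts (T : Finset (DVal k K))
    (hres : ∀ w ∈ T, ∀ z, 0 ≤ w z → ∃ c : k, w.Ge 1 (z - algebraMap k K c))
    (a : DVal k K → ℕ) (V : Submodule k K) [FiniteDimensional k V]
    (hV : ∀ w ∈ T, ∀ f ∈ V, w.Ge (-(a w : ℚ)) f) :
    Module.finrank k V ≤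
      Module.finrank k (V ⊓ ⨅ w ∈ T, w.filt 0 : Submodule k K) + ∑ w ∈ T, a w := by
  classical
  induction T using Finset.induction_on generalizing V with
  | empty =>
    have h1 : (V ⊓ ⨅ w ∈ (∅ : Finset (DVal k K)), w.filt 0) = V := by simp
    rw [h1]
    exact Nat.le_add_right _ _
  | insert w T hw ih =>
    have hfin : FiniteDimensional k (V ⊓ w.filt 0 : Submodule k K) :=
      Submodule.finiteDimensional_of_le inf_le_left
    have h1 := finrank_cut w (hres w (Finset.mem_insert_self _ _)) (a w) V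
      (hV w (Finset.mem_insert_self _ _))
    have h2 := ih (fun w' hw' => hres w' (Finset.mem_insert_of_mem hw')) (V ⊓ w.filt 0)
      (fun w' hw' f hf => hV w' (Finset.mem_insert_of_mem hw') f hf.1)
    rw [Finset.sum_insert hw, Finset.iInf_insert, ← inf_assoc]
    omega

end Cut

section Line

variable {k K : Type*} [Field k] [Field K] [Algebra k K]

private theorem gen_top (t : K) (alg : Algebra k (IntermediateField.adjoin k {t})) (h : alg =
      IntermediateField.algebra' (IntermediateField.adjoin k {t})) :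
    @IntermediateField.adjoin k _ (IntermediateField.adjoin k {t}) _ alg
      {IntermediateField.AdjoinSimple.gen k t} = ⊤ := by
  subst h
  apply IntermediateField.lift_injective (IntermediateField.adjoin k {t})
  rw [IntermediateField.lift_adjoin_simple, IntermediateField.lift_top]
  rfl

theorem isLine_adjoin {t : K} (ht : Transcendental k t) :
    IsLine k (IntermediateField.AdjoinSimple.gen k t) where
  trans := by
    rw [← IntermediateField.AdjoinSimple.algebraMap_gen k t] at ht
    exact (transcendental_algebraMap_iff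
      (algebraMap (IntermediateField.adjoin k {t}) K).injective).1 ht
  gen := gen_top t _ rfl

theorem isAlgebraic_adjoin (hn : Algebra.trdeg k K = 1) {t : K} (ht : Transcendental k t) :
    Algebra.IsAlgebraic (IntermediateField.adjoin k {t}) K := by
  have h1 : AlgebraicIndependent k (fun _ : Fin 1 => t) := by
    rw [algebraicIndependent_unique_type_iff]
    exact ht
  have h2 : IsTranscendenceBasis k (fun _ : Fin 1 => t) := by
    refine h1.isTranscendenceBasis_of_lift_trdeg_le_of_finite ?_
    rw [hn, Cardinal.mk_fin]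
    simp
  have h3 := h2.isAlgebraic_field
  rwa [Set.range_const] at h3

theorem exists_const [IsAlgClosed k] (hn : Algebra.trdeg k K = 1) (w : DVal k K) {z : K}
    (hz : 0 ≤ w z) : ∃ c : k, w.Ge 1 (z - algebraMap k K c) := by
  by_cases ht : Transcendental k z
  · have halg := isAlgebraic_adjoin hn ht
    have hline := isLine_adjoin ht
    obtain ⟨v, ε, hv⟩ := exists_under (E := IntermediateField.adjoin k {z}) w
    have hε : (0 : ℤ) < ε := by exact_mod_cast hv.1
    have h1 : 0 ≤ v (IntermediateField.AdjoinSimple.gen k z) := by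
      have h2 := hv.2 (IntermediateField.AdjoinSimple.gen k z)
      rw [IntermediateField.AdjoinSimple.algebraMap_gen] at h2
      rw [h2] at hz
      exact nonneg_of_mul_nonneg_right hz hε
    obtain ⟨p, hp, hvp⟩ := exists_pVal hline v (fun a => v.map_const a) h1
    have hpirr : Irreducible p := hp.irreducible
    have hdeg : p.degree = 1 := IsAlgClosed.degree_eq_one_of_irreducible k hpirr
    obtain ⟨c, hc⟩ := IsAlgClosed.exists_root p (by rw [hdeg]; exact one_ne_zero)
    have hdvd : p ∣ Polynomial.X - Polynomial.C c := by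
      have h2 : Polynomial.X - Polynomial.C c ∣ p := Polynomial.dvd_iff_isRoot.2 hc
      have h3 : Irreducible (Polynomial.X - Polynomial.C c) := Polynomial.irreducible_X_sub_C c
      exact ((h3.associated_of_dvd hpirr h2).symm).dvd
    have h2 := (pVal_pos_iff k hline hp (Polynomial.X_sub_C_ne_zero c)).2 hdvd
    rw [← hvp] at h2
    have h3 := hv.2 (Polynomial.aeval (IntermediateField.AdjoinSimple.gen k z)
      (Polynomial.X - Polynomial.C c))
    have h4 : algebraMap (IntermediateField.adjoin k {z}) K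
        (Polynomial.aeval (IntermediateField.AdjoinSimple.gen k z)
          (Polynomial.X - Polynomial.C c)) = z - algebraMap k K c := by
      rw [map_sub, Polynomial.aeval_X, Polynomial.aeval_C, map_sub,
        IntermediateField.AdjoinSimple.algebraMap_gen, ← IsScalarTower.algebraMap_apply]
    rw [h4] at h3
    refine ⟨c, Or.inr ?_⟩
    rw [h3]
    have h5 : (ε : ℤ) * 1 ≤ ε * v _ := mul_le_mul_of_nonneg_left h2 hε.le
    have h6 : (1 : ℤ) ≤ ε * v (Polynomial.aeval (IntermediateField.AdjoinSimple.gen k z)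
      (Polynomial.X - Polynomial.C c)) := by omega
    exact_mod_cast h6
  · have h1 : IsIntegral k z := by
      rw [Transcendental, not_not] at ht
      exact ht.isIntegral
    have h2 : (minpoly k z).degree = 1 :=
      IsAlgClosed.degree_eq_one_of_irreducible k (minpoly.irreducible h1)
    have h3 := minpoly.mem_range_of_degree_eq_one k z h2
    obtain ⟨c, hc⟩ := h3
    exact ⟨c, Or.inl (by rw [hc, sub_self])⟩

end Line

section Main

variable {k K : Type*} [Field k] [Field K] [Algebra k K]

theorem finite_adjoin (Z : ProjVar k K) (hn : Algebra.trdeg k K = 1) {t : K}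
    (ht : Transcendental k t) : FiniteDimensional (IntermediateField.adjoin k {t}) K := by
  have halgF := isAlgebraic_adjoin hn ht
  set s : Set K := Set.range fun j => Z.x j / Z.x 0 with hs
  have hsfin : s.Finite := Set.finite_range _
  have : Finite s := hsfin.to_subtype
  have h1 : FiniteDimensional (IntermediateField.adjoin k {t})
      (IntermediateField.adjoin (IntermediateField.adjoin k {t}) s) :=
    IntermediateField.finiteDimensional_adjoin fun x _ => (halgF.isAlgebraic x).isIntegral
  have h2 : IntermediateField.adjoin (IntermediateField.adjoin k {t}) s = ⊤ := by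
    rw [eq_top_iff]
    intro x _
    have hx : x ∈ IntermediateField.adjoin k s := by rw [hs, Z.gen 0]; trivial
    have h3 : IntermediateField.adjoin k s ≤
        (IntermediateField.adjoin (IntermediateField.adjoin k {t}) s).restrictScalars k := by
      rw [IntermediateField.adjoin_le_iff]
      exact IntermediateField.subset_adjoin _ s
    exact h3 hx
  rw [h2] at h1
  exact (IntermediateField.topEquiv (F := IntermediateField.adjoin k {t})
    (E := K)).toLinearEquiv.finiteDimensional

theorem liesOver_inf (hn : Algebra.trdeg k K = 1) {t : K} (ht : Transcendental k t)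
    {w : DVal k K} (hw : w t < 0) : ∃ ε, LiesOver w (infVal k (isLine_adjoin ht)) ε := by
  have halg := isAlgebraic_adjoin hn ht
  obtain ⟨v, ε, hv⟩ := exists_under (E := IntermediateField.adjoin k {t}) w
  have hε : (0 : ℤ) < ε := by exact_mod_cast hv.1
  have h1 : v (IntermediateField.AdjoinSimple.gen k t) < 0 := by
    have h2 := hv.2 (IntermediateField.AdjoinSimple.gen k t)
    rw [IntermediateField.AdjoinSimple.algebraMap_gen] at h2
    rw [h2] at hw
    by_contra hcon
    push Not at hcon
    have := mul_nonneg hε.le hcon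
    omega
  refine ⟨ε, ?_⟩
  rw [← eq_infVal (isLine_adjoin ht) v (fun a => v.map_const a) h1]
  exact hv

theorem eq_of_liesOver_inf {t : K} (ht : Transcendental k t) {w : DVal k K} {ε : ℕ}
    (hw : LiesOver w (infVal k (isLine_adjoin ht)) ε) : w t = -ε := by
  have h := hw.2 (IntermediateField.AdjoinSimple.gen k t)
  rw [IntermediateField.AdjoinSimple.algebraMap_gen, infVal_t] at h
  rw [h]
  ring

theorem ne_alg (w : DVal k K) [IsAlgClosed k] {t : K} (h : w t ≠ 0) : Transcendental k t := by
  intro hcon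
  have h1 : IsIntegral k t := hcon.isIntegral
  have h2 : (minpoly k t).degree = 1 :=
    IsAlgClosed.degree_eq_one_of_irreducible k (minpoly.irreducible h1)
  obtain ⟨c, hc⟩ := minpoly.mem_range_of_degree_eq_one k t h2
  apply h
  rw [← hc]
  exact w.map_const c

theorem pow_li {E : Type*} [Field E] [Algebra k E] {g : E}
    (hg : Function.Injective (Polynomial.aeval g : Polynomial k →ₐ[k] E)) (n : ℕ) :
    LinearIndependent k fun i : Fin n => g ^ (i : ℕ) := by
  have h2 := (Polynomial.basisMonomials k).linearIndependent.map'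
    (Polynomial.aeval g : Polynomial k →ₐ[k] E).toLinearMap (LinearMap.ker_eq_bot.2 hg)
  have h3 := h2.comp (fun i : Fin n => (i : ℕ)) Fin.val_injective
  have h4 : (fun i : Fin n => g ^ (i : ℕ)) = ((Polynomial.aeval g : Polynomial k →ₐ[k]
      E).toLinearMap ∘ (Polynomial.basisMonomials k)) ∘ fun i : Fin n => (i : ℕ) := by
    ext i
    simp
  rw [h4]
  exact h3

theorem smul_li {F E : Type*} [Field F] [Field E] [Algebra k F] [Algebra F E] [Algebra k E]
    [IsScalarTower k F E] {g : F}
    (hg : Function.Injective (Polynomial.aeval g : Polynomial k →ₐ[k] F)) {ι : Type*} {b : ι → E}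
    (hb : LinearIndependent F b) (n : ℕ) :
    LinearIndependent k fun i : Fin n × ι => algebraMap F E g ^ (i.1 : ℕ) * b i.2 := by
  have h1 := linearIndependent_smul (pow_li hg n) hb
  have h2 : (fun i : Fin n × ι => algebraMap F E g ^ (i.1 : ℕ) * b i.2) =
      fun i : Fin n × ι => g ^ (i.1 : ℕ) • b i.2 := by
    ext i
    rw [Algebra.smul_def, map_pow]
  rw [h2]
  exact h1

/-- Riemann's inequality for multiples of a point. -/
theorem riemann [IsAlgClosed k] (Z : ProjVar k K) (hn : Algebra.trdeg k K = 1)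
    (P₀ : Z.primeDivisors) : ∃ C : ℕ, ∀ n : ℕ, ∃ M : ℕ, 1 ≤ M ∧
      (n : ℕ∞) ≤ sdim (Z.H0 ((M : ℚ) • Finsupp.single P₀ 1)) + C := by
  classical
  obtain ⟨t, ht1⟩ : ∃ t : K, P₀.1 t = -1 := by
    obtain ⟨x, hx⟩ := P₀.1.surj'
    change P₀.1 x = 1 at hx
    exact ⟨x⁻¹, by rw [P₀.1.map_inv, hx]⟩
  have ht : Transcendental k t := ne_alg P₀.1 (by rw [ht1]; norm_num)
  have ht0 : t ≠ 0 := P₀.1.ne_zero_of_pos (by rw [ht1]; norm_num)
  have halg := isAlgebraic_adjoin hn ht
  have hfin := finite_adjoin Z hn ht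
  have hline := isLine_adjoin ht
  set F := IntermediateField.adjoin k {t} with hF
  set g : F := IntermediateField.AdjoinSimple.gen k t with hg
  have hgt : algebraMap F K g = t := IntermediateField.AdjoinSimple.algebraMap_gen k t
  set v := infVal k hline with hv
  set T : Finset (DVal k K) := (finite_above (E' := K) v).toFinset with hT
  have hmT : ∀ w, w ∈ T ↔ ∃ ε, LiesOver w v ε := fun w => by
    rw [hT, Set.Finite.mem_toFinset]
    rfl
  let e : DVal k K → ℕ := fun w => (-(w t)).toNat
  have heT : ∀ w ∈ T, LiesOver w v (e w) := fun w hw => by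
    obtain ⟨ε, hε⟩ := (hmT w).1 hw
    have h1 := eq_of_liesOver_inf ht hε
    have h2 : e w = ε := by
      change (-(w t)).toNat = ε
      rw [h1]
      omega
    rwa [h2]
  have hwt : ∀ w ∈ T, w t = -(e w : ℤ) := fun w hw => eq_of_liesOver_inf ht (heT w hw)
  have hsum := sum_ram_le v T e heT
  have hP₀T : P₀.1 ∈ T := (hmT _).2 (liesOver_inf hn ht (by rw [ht1]; norm_num))
  -- an integral basis
  let i1 : Algebra (Polynomial k) F := lineAlg k g
  have i2 : IsFractionRing (Polynomial k) F := hline.isFractionRing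
  let i3 : Algebra (Polynomial k) K := ((algebraMap F K).comp (algebraMap (Polynomial k) F)).toAlgebra
  have i4 : IsScalarTower (Polynomial k) F K := IsScalarTower.of_algebraMap_eq fun _ => rfl
  obtain ⟨s, b, hb⟩ := FiniteDimensional.exists_is_basis_integral (Polynomial k) F K
  have hbreg : ∀ (w : DVal k K) (j : s), 0 ≤ w t → 0 ≤ w (b j) := by
    intro w j hw
    let φ : Polynomial k →+* w.ring := (algebraMap (Polynomial k) K).codRestrict w.ring.toSubring
      (fun p => by
        have h1 : algebraMap (Polynomial k) K p = Polynomial.aeval t p := by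
          change algebraMap F K (Polynomial.aeval g p) = _
          rw [← hgt, Polynomial.aeval_algebraMap_apply]
        rw [h1]
        exact aeval_mem_of (R := w.ring) (fun a => w.ring.algebraMap_mem a) hw p)
    have h2 : IsIntegral w.ring (b j) :=
      IsIntegral.map_of_comp_eq φ (RingHom.id K) (RingHom.ext fun _ => rfl) (hb j)
    exact mem_ring_of_isIntegral w h2
  have hb0 : ∀ j, b j ≠ 0 := fun j => b.ne_zero j
  obtain ⟨c, hc⟩ : ∃ c : ℕ, ∀ w ∈ T, ∀ j, -(c : ℤ) ≤ w (b j) := by
    refine ⟨∑ w ∈ T, ∑ j, (w (b j)).natAbs, fun w hw j => ?_⟩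
    have h1 : (w (b j)).natAbs ≤ ∑ w ∈ T, ∑ j, (w (b j)).natAbs :=
      (Finset.single_le_sum (f := fun j => (w (b j)).natAbs) (fun _ _ => Nat.zero_le _)
        (Finset.mem_univ j)).trans (Finset.single_le_sum
          (f := fun w : DVal k K => ∑ j, (w (b j)).natAbs) (fun _ _ => Nat.zero_le _) hw)
    have h2 : ((w (b j)).natAbs : ℤ) ≤ ((∑ w ∈ T, ∑ j, (w (b j)).natAbs : ℕ) : ℤ) := by
      exact_mod_cast h1
    omega
  have hd : Module.finrank F K = Fintype.card s := Module.finrank_eq_card_basis b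
  refine ⟨c * Fintype.card s, fun n => ⟨(n + c + 1) * e P₀.1, ?_, ?_⟩⟩
  · have := (heT _ hP₀T).1
    exact Nat.one_le_iff_ne_zero.2 (by positivity)
  -- the space of sections
  let y : Fin (n + 2) × s → K := fun i => t ^ (i.1 : ℕ) * b i.2
  have hyt : ∀ i, y i = t ^ (i.1 : ℕ) * b i.2 := fun i => rfl
  have hyli : LinearIndependent k y := by
    have h1 := smul_li (E := K) hline.inj b.linearIndependent (n + 2)
    rw [hgt] at h1
    exact h1
  set V : Submodule k K := Submodule.span k (Set.range y) with hV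
  have hVfin : FiniteDimensional k V := FiniteDimensional.span_of_finite k (Set.finite_range y)
  have hVrank : Module.finrank k V = (n + 2) * Fintype.card s := by
    rw [hV, finrank_span_eq_card hyli, Fintype.card_prod, Fintype.card_fin]
  have hVT : ∀ w ∈ T, ∀ f ∈ V, w.Ge (-((((n + 1) + c) * e w : ℕ) : ℚ)) f := by
    intro w hw f hf
    have h1 : V ≤ w.filt (-((((n + 1) + c) * e w : ℕ) : ℚ)) := by
      rw [hV, Submodule.span_le]
      rintro _ ⟨i, rfl⟩
      refine Or.inr ?_
      rw [hyt, w.map_mul (pow_ne_zero _ ht0) (hb0 _), w.map_pow, hwt w hw]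
      have h2 := hc w hw i.2
      have h3 : (i.1 : ℕ) ≤ n + 1 := by omega
      have h4 : 1 ≤ e w := (heT w hw).1
      have h5 : (i.1 : ℕ) * e w ≤ (n + 1) * e w := Nat.mul_le_mul_right _ h3
      have h6 : c ≤ c * e w := Nat.le_mul_of_pos_right _ h4
      have h7 : (((i.1 : ℕ) * e w : ℕ) : ℤ) ≤ (((n + 1) * e w : ℕ) : ℤ) := by exact_mod_cast h5
      have h8 : (c : ℤ) ≤ ((c * e w : ℕ) : ℤ) := by exact_mod_cast h6
      have h9 : -((((n + 1) + c) * e w : ℕ) : ℤ) ≤ (i.1 : ℕ) * -(e w : ℤ) + w (b i.2) := by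
        push_cast at h7 h8 ⊢
        linarith
      exact_mod_cast h9
    exact h1 hf
  have hVreg : ∀ w : DVal k K, 0 ≤ w t → ∀ f ∈ V, w.Ge 0 f := by
    intro w hw f hf
    have h1 : V ≤ w.filt 0 := by
      rw [hV, Submodule.span_le]
      rintro _ ⟨i, rfl⟩
      refine Or.inr ?_
      rw [hyt, w.map_mul (pow_ne_zero _ ht0) (hb0 _), w.map_pow]
      have h2 := hbreg w i.2 hw
      have h3 : (0 : ℤ) ≤ (i.1 : ℕ) * w t := mul_nonneg (by positivity) hw
      have h4 : (0 : ℤ) ≤ (i.1 : ℕ) * w t + w (b i.2) := by omega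
      exact_mod_cast h4
    exact h1 hf
  set W : Submodule k K := V ⊓ ⨅ w ∈ T.erase P₀.1, w.filt 0 with hW
  have hcut := finrank_cuts (T.erase P₀.1) (fun w _ z hz => exists_const hn w hz)
    (fun w => ((n + 1) + c) * e w) V (fun w hw f hf => hVT w (Finset.mem_of_mem_erase hw) f hf)
  rw [← hW, hVrank, ← Finset.mul_sum] at hcut
  have hle : W ≤ Z.H0 ((((n + c + 1) * e P₀.1 : ℕ) : ℚ) • Finsupp.single P₀ 1) := by
    intro f hf
    rw [hW] at hf
    obtain ⟨hf1, hf2⟩ := hf
    rw [MA.mem_H0]
    intro P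
    rw [Finsupp.smul_apply, smul_eq_mul, Finsupp.single_apply]
    by_cases hP : P₀ = P
    · subst hP
      rw [if_pos rfl, mul_one]
      have h1 := hVT P₀.1 hP₀T f hf1
      have h2 : (n + 1) + c = n + c + 1 := by ring
      rwa [h2] at h1
    · rw [if_neg hP, mul_zero, neg_zero]
      rcases lt_or_ge (P.1 t) 0 with h1 | h1
      · have h2 : P.1 ∈ T.erase P₀.1 := by
          rw [Finset.mem_erase]
          exact ⟨fun h => hP (Subtype.ext h.symm), (hmT _).2 (liesOver_inf hn ht h1)⟩
        have h3 := (Submodule.mem_iInf _).1 hf2 P.1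
        exact (Submodule.mem_iInf _).1 h3 h2
      · exact hVreg P.1 h1 f hf1
  have hWfin : FiniteDimensional k W := Submodule.finiteDimensional_of_le inf_le_left
  have hWd : (Module.finrank k W : ℕ∞) = sdim W := by
    unfold sdim
    rw [← Module.finrank_eq_rank, map_natCast]
  have hfinal : n ≤ Module.finrank k W + c * Fintype.card s := by
    have h1 := Finset.add_sum_erase T e hP₀T
    have h2 : 1 ≤ e P₀.1 := (heT _ hP₀T).1
    rw [hd] at hsum
    rw [← h1] at hsum
    set A := ∑ w ∈ T.erase P₀.1, e w with hA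
    have h3 : (n + 1 + c) * A + (n + 1 + c) ≤ (n + 1 + c) * Fintype.card s := by
      rw [← Nat.mul_succ]
      exact Nat.mul_le_mul_left _ (by omega)
    have h4 : (n + 1 + c) * Fintype.card s + Fintype.card s =
      (n + 2) * Fintype.card s + c * Fintype.card s := by ring
    omega
  calc (n : ℕ∞) ≤ ((Module.finrank k W + c * Fintype.card s : ℕ) : ℕ∞) := by exact_mod_cast hfinal
    _ = sdim W + (c * Fintype.card s : ℕ) := by rw [Nat.cast_add, hWd]
    _ ≤ _ := by gcongr; exact sdim_mono hle

end Main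

section Final

variable {k K : Type*} [Field k] [IsAlgClosed k] [Field K] [Algebra k K]

/-- Curves (of any genus): every point is a big divisor. -/
theorem primeBig_curve (Z : ProjVar k K) (hn : Algebra.trdeg k K = 1) : IsPrimeBig Z := by
  intro n Q hn'
  have h1 : n = 1 := by
    rw [hn] at hn'
    exact_mod_cast hn'.symm
  subst h1
  obtain ⟨C, hC⟩ := riemann Z hn Q
  have hle : Z.kod (Finsupp.single Q 1) ≤ ((1 : ℕ) : EReal) :=
    (kod_le_nu _).trans (nu_le_dim (by exact_mod_cast hn) _)
  refine le_antisymm hle ?_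
  rcases regular (X := Z) (Finsupp.single Q 1) with ⟨h1, -⟩ | ⟨d, C', m₀, hd, -, -, -, hu⟩
  · exfalso
    obtain ⟨M, hM, h2⟩ := hC (C + 1)
    rw [h1 M hM, sdim_bot, zero_add] at h2
    have h3 : C + 1 ≤ C := by exact_mod_cast h2
    omega
  · rw [hd]
    by_contra hcon
    push Not at hcon
    have hd0 : d = 0 := by
      have : d < 1 := by exact_mod_cast hcon
      omega
    subst hd0
    obtain ⟨M, hM, h2⟩ := hC (C' + C + 1)
    have h3 := hu M hM
    rw [pow_zero, mul_one] at h3
    have h4 : ((C' + C + 1 : ℕ) : ℕ∞) ≤ ((C' + C : ℕ) : ℕ∞) := by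
      refine h2.trans ?_
      push_cast
      gcongr
    have h5 : C' + C + 1 ≤ C' + C := by exact_mod_cast h4
    omega

end Final

end Pool.Agent.Helper60.PB
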