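import Pool.Agent.Helper60.PB.Shift

set_option autoImplicit false

/-!
# Project PB (MP_2c56d9_ag), module NC3: the normalisation of a projective variety in a finite
extension of its function field

`exists_cover`: if `X` is a normal projective variety with function field `L` (characteristic zero) and
`E` is a finite extension of `L`, then there is a normal projective variety `X'` with function field
`E` and a finite cover `X' → X`.
-/

namespace Pool.Agent.Helper60.PB

open Pool.Agent.Helper92.Weak Pool.Agent.Helper47.PQ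

variable {k L E : Type*} [Field k] [Field L] [Field E] [Algebra k L] [Algebra k E] [Algebra L E]
  [IsScalarTower k L E]

/-- A valuation ring of `E` which contains `k` contains the integral closure of some chart. -/
theorem exists_chart_le (V : ValuationSubring E) (hk : ∀ c : k, algebraMap k E c ∈ V) {n : ℕ}
    (x : Fin (n + 1) → L) (hx : ∀ i, x i ≠ 0) :
    ∃ i, ∀ b ∈ icl E (chart k x i), b ∈ V := by
  classical
  obtain ⟨i, -, hi⟩ := Finset.exists_max_image (Finset.univ : Finset (Fin (n + 1)))
    (fun i => V.valuation (algebraMap L E (x i))) Finset.univ_nonempty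
  refine ⟨i, fun b hb => ?_⟩
  have h1 : ∀ a ∈ chart k x i, algebraMap L E a ∈ V := by
    intro a ha
    unfold chart at ha
    induction ha using Algebra.adjoin_induction with
    | mem a ha =>
      obtain ⟨j, rfl⟩ := ha
      change algebraMap L E (x j / x i) ∈ V
      rw [← ValuationSubring.valuation_le_one_iff, map_div₀, map_div₀]
      have h2 : algebraMap L E (x i) ≠ 0 := (map_ne_zero _).2 (hx i)
      have h3 : V.valuation (algebraMap L E (x i)) ≠ 0 := (map_ne_zero _).2 h2
      exact (div_le_one₀ (zero_lt_iff.2 h3)).2 (hi j (Finset.mem_univ j))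
    | algebraMap c =>
      rw [← IsScalarTower.algebraMap_apply]
      exact hk c
    | add a b _ _ iha ihb => rw [map_add]; exact V.add_mem _ _ iha ihb
    | mul a b _ _ iha ihb => rw [map_mul]; exact V.mul_mem _ _ iha ihb
  obtain ⟨P, hP, hPb⟩ := mem_icl.1 hb
  let φ : chart k x i →+* V :=
    { toFun := fun a => ⟨algebraMap L E a, h1 a a.2⟩
      map_one' := Subtype.ext (map_one _)
      map_mul' := fun _ _ => Subtype.ext (map_mul _ _ _)
      map_zero' := Subtype.ext (map_zero _)
      map_add' := fun _ _ => Subtype.ext (map_add _ _ _) }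
  have h2 : IsIntegral V b := by
    refine ⟨P.map φ, hP.map φ, ?_⟩
    rw [Polynomial.eval₂_map]
    exact hPb
  obtain ⟨c, hc⟩ := IsIntegrallyClosed.isIntegral_iff.1 h2
  rw [← hc]
  exact c.2

section

variable {X : ProjVar k L} {N : ℕ} {y : Fin (N + 1) → E} (hy : ∀ i, y i ≠ 0)
  {a : Fin (X.n + 1) → Fin (N + 1)} (ha : ∀ i, chart k y (a i) = icl E (chart k X.x i))

include hy ha

/-- Some coordinate of the given kind does not vanish at a point of the `l`-th chart. -/
theorem exists_unit (l : Fin (N + 1)) (p : Ideal (chart k y l)) [hp : p.IsPrime] :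
    ∃ i, (⟨y (a i) / y l, Algebra.subset_adjoin ⟨a i, rfl⟩⟩ : chart k y l) ∉ p := by
  by_contra hcon
  push Not at hcon
  obtain ⟨V, hV, hpV⟩ := Ideal.image_subset_nonunits_valuationSubring
    (A := (chart k y l).toSubring) p hp.ne_top
  obtain ⟨i, hi⟩ := exists_chart_le (k := k) V (fun c => hV (Subalgebra.algebraMap_mem _ c))
    X.x X.x_ne
  have h1 : y l / y (a i) ∈ V := by
    apply hi
    rw [← ha i]
    exact Algebra.subset_adjoin ⟨l, rfl⟩
  have h2 : y (a i) / y l ∈ V.nonunits := hpV ⟨_, hcon i, rfl⟩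
  rw [ValuationSubring.mem_nonunits_iff_or] at h2
  rcases h2 with h2 | h2
  · exact div_ne_zero (hy _) (hy _) h2
  · rw [inv_div] at h2
    exact h2 h1

/-- Every local ring is a local ring of the integral closure of some chart of `X`. -/
theorem exists_locAt_icl (l : Fin (N + 1)) (p : Ideal (chart k y l)) [hp : p.IsPrime] :
    ∃ (i : Fin (X.n + 1)) (q : Ideal (icl E (chart k X.x i))) (_ : q.IsPrime),
      locAt (chart k y l) p = locAt (icl E (chart k X.x i)) q := by
  obtain ⟨i, hi⟩ := exists_unit hy ha l p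
  have h1 := locAt_change y hy l (a i) p hi
  rw [ha i] at h1
  exact ⟨i, h1⟩

variable [FiniteDimensional L E]

theorem isFrac_chart (l : Fin (N + 1)) : IsFrac (chart k y l) := by
  intro z
  have h1 : IsFrac (chart k y (a 0)) := by
    rw [ha 0]
    exact icl_isFrac (X.chart_isFrac 0)
  obtain ⟨p, hp, q, hq, hq0, rfl⟩ := h1 z
  obtain ⟨D, hD⟩ := chart_shift (k := k) y hy (a 0) l hp
  obtain ⟨D', hD'⟩ := chart_shift (k := k) y hy (a 0) l hq
  have h2 : (y (a 0) / y l) ^ (max D D') ≠ 0 := pow_ne_zero _ (div_ne_zero (hy _) (hy _))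
  exact ⟨_, hD (max D D') (by omega), _, hD' (max D D') (by omega), mul_ne_zero h2 hq0,
    (mul_div_mul_left _ _ h2).symm⟩

theorem gen_chart (l : Fin (N + 1)) :
    IntermediateField.adjoin k (Set.range fun j => y j / y l) = ⊤ := by
  rw [eq_top_iff]
  intro z _
  obtain ⟨p, hp, q, hq, -, rfl⟩ := isFrac_chart hy ha l z
  have h1 : chart k y l ≤
      (IntermediateField.adjoin k (Set.range fun j => y j / y l)).toSubalgebra :=
    IntermediateField.algebra_adjoin_le_adjoin _ _
  exact div_mem (h1 hp) (h1 hq)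

theorem normal_chart (l : Fin (N + 1)) : IsIntegrallyClosed (chart k y l) := by
  have hfr := isFrac_chart hy ha l
  have := hfr.isFractionRing
  rw [isIntegrallyClosed_iff E]
  intro z hz
  suffices hzS : z ∈ chart k y l from ⟨⟨z, hzS⟩, rfl⟩
  by_contra hcon
  obtain ⟨m, hm, hzm⟩ := exists_max_notMem hcon
  apply hzm
  obtain ⟨i, q, hq, h1⟩ := exists_locAt_icl hy ha l m
  have h2 : IsIntegral (locAt (chart k y l) m) z := isIntegral_mono (le_locAt m) hz
  rw [h1] at h2 ⊢
  have h3 := icl_isIntegrallyClosed (E := E) (X.chart_isFrac i)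
  have h4 : IsIntegrallyClosed (locAt (icl E (chart k X.x i)) q) := isIntegrallyClosed_locAt q
  have h5 : IsFrac (locAt (icl E (chart k X.x i)) q) :=
    (icl_isFrac (X.chart_isFrac i)).mono (le_locAt q)
  exact h5.mem_of_isIntegral h2

end

/-- A discrete valuation which is not trivial on a subfield lies over a discrete valuation of the
subfield. -/
theorem exists_base (P : DVal k E) (h : ∃ a : L, P (algebraMap L E a) ≠ 0) :
    ∃ (Q : DVal k L) (e : ℕ), LiesOver P Q e := by
  classical
  have hinj : ∀ a : L, a ≠ 0 → algebraMap L E a ≠ 0 := fun a ha => (map_ne_zero _).2 ha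
  have hex : ∃ n : ℕ, 0 < n ∧ ∃ a : L, P (algebraMap L E a) = n := by
    obtain ⟨a, ha⟩ := h
    rcases lt_or_gt_of_ne ha with h1 | h1
    · refine ⟨(-P (algebraMap L E a)).toNat, by omega, a⁻¹, ?_⟩
      rw [map_inv₀, P.map_inv]
      omega
    · exact ⟨(P (algebraMap L E a)).toNat, by omega, a, by omega⟩
  obtain ⟨he, π, hπ⟩ := Nat.find_spec hex
  set e := Nat.find hex with hedef
  have he' : (0 : ℤ) < e := by exact_mod_cast he
  have hπ0 : π ≠ 0 := by
    rintro rfl
    rw [map_zero, P.map_zero] at hπ
    omega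
  have hdvd : ∀ a : L, (e : ℤ) ∣ P (algebraMap L E a) := by
    intro a
    by_cases ha : a = 0
    · rw [ha, map_zero, P.map_zero]
      exact dvd_zero _
    set q := P (algebraMap L E a) / e with hq
    have h1 : P (algebraMap L E (a * π ^ (-q))) = P (algebraMap L E a) % e := by
      rw [map_mul, P.map_mul (hinj a ha) (hinj _ (zpow_ne_zero _ hπ0)), map_zpow₀, P.map_zpow, hπ,
        Int.emod_def]
      ring
    have h2 : 0 ≤ P (algebraMap L E a) % e := Int.emod_nonneg _ he'.ne'
    have h3 : P (algebraMap L E a) % e < e := Int.emod_lt_of_pos _ he'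
    by_contra hcon
    have h4 : P (algebraMap L E a) % e ≠ 0 := fun h => hcon (Int.dvd_of_emod_eq_zero h)
    have h5 : (P (algebraMap L E a) % e).toNat < e := by omega
    exact Nat.find_min hex h5 ⟨by omega, a * π ^ (-q), by rw [h1]; omega⟩
  choose q hq using hdvd
  have hq0 : ∀ a, q a = P (algebraMap L E a) / e := by
    intro a
    rw [hq a, Int.mul_ediv_cancel_left _ he'.ne']
  refine ⟨⟨q, ?_, ?_, ?_, ?_, ?_⟩, e, he, fun a => hq a⟩
  · rw [hq0, map_zero, P.map_zero, Int.zero_ediv]
  · intro a b ha hb
    have h1 := P.map_mul (hinj a ha) (hinj b hb)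
    rw [← map_mul, hq, hq, hq, ← mul_add] at h1
    exact mul_left_cancel₀ he'.ne' h1
  · intro a b ha hb hab
    have h1 := P.map_add' _ _ (hinj a ha) (hinj b hb) (by rw [← map_add]; exact hinj _ hab)
    have h2 : min (P (algebraMap L E a)) (P (algebraMap L E b)) ≤ P (algebraMap L E (a + b)) := by
      rw [map_add]
      exact h1
    rw [hq, hq, hq (a + b)] at h2
    rcases le_total (q a) (q b) with h3 | h3
    · rw [min_eq_left h3]
      rw [min_eq_left (mul_le_mul_of_nonneg_left h3 he'.le)] at h2
      exact le_of_mul_le_mul_left h2 he'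
    · rw [min_eq_right h3]
      rw [min_eq_right (mul_le_mul_of_nonneg_left h3 he'.le)] at h2
      exact le_of_mul_le_mul_left h2 he'
  · intro c
    rw [hq0, ← IsScalarTower.algebraMap_apply, P.map_const, Int.zero_ediv]
  · refine ⟨π, ?_⟩
    rw [hq0, hπ, Int.ediv_self he'.ne']

/-- The restriction of a discrete valuation to a subfield over which the field is algebraic. -/
theorem exists_restrict_dval [FiniteDimensional L E] (P : DVal k E) :
    ∃ (Q : DVal k L) (e : ℕ), LiesOver P Q e := by
  apply exists_base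
  by_contra hcon
  push Not at hcon
  obtain ⟨x, hx0, hx⟩ := P.exists_uniformizer
  have hL : ∀ a : L, algebraMap L E a ∈ P.ring := by
    intro a
    rw [DVal.mem_ring, hcon a]
  have hxint : (algebraMap L E).IsIntegralElem x⁻¹ := Algebra.IsIntegral.isIntegral x⁻¹
  let φ : L →+* P.ring := (algebraMap L E).codRestrict P.ring hL
  have hφ : (algebraMap P.ring E).comp φ = algebraMap L E := by
    ext a
    rfl
  rw [← hφ] at hxint
  have h5 : IsIntegral P.ring x⁻¹ := RingHom.IsIntegralElem.of_comp hxint
  have h6 := mem_ring_of_isIntegral P h5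
  rw [P.map_inv, hx] at h6
  omega

theorem exists_cover_of_coords [FiniteDimensional L E] {X : ProjVar k L} {N : ℕ}
    {y : Fin (N + 1) → E} (hy : ∀ i, y i ≠ 0) {a : Fin (X.n + 1) → Fin (N + 1)}
    (ha : ∀ i, chart k y (a i) = icl E (chart k X.x i)) :
    ∃ X' : ProjVar k E, IsFiniteCover X' X := by
  let X' : ProjVar k E := ⟨N, y, hy, gen_chart hy ha, normal_chart hy ha⟩
  have hmem : ∀ R ∈ X'.localRings, ∃ (i : Fin (X.n + 1)) (q : Ideal (icl E (chart k X.x i)))
      (_ : q.IsPrime), R = locAt (icl E (chart k X.x i)) q := by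
    intro R hR
    obtain ⟨l, p, hp, rfl⟩ := X'.mem_localRings.1 hR
    exact exists_locAt_icl hy ha l p
  -- the intersection with `L`
  have hint : ∀ (i : Fin (X.n + 1)) (q : Ideal (icl E (chart k X.x i))) [hq : q.IsPrime] (z : L),
      algebraMap L E z ∈ locAt (icl E (chart k X.x i)) q ↔
        z ∈ locAt (chart k X.x i) (q.comap (toIcl E (chart k X.x i))) := by
    intro i q hq z
    constructor
    · exact locAt_icl_inter (X.chart_isFrac i) q
    · rintro ⟨u, v, hv, huv⟩
      refine ⟨toIcl E _ u, toIcl E _ v, hv, ?_⟩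
      rw [coe_toIcl, coe_toIcl, ← huv, map_mul]
  refine ⟨X', inferInstance, ?_, ?_⟩
  · intro R hR
    obtain ⟨i, q, hq, rfl⟩ := hmem R hR
    refine ⟨_, X.locAt_mem i (q.comap (toIcl E (chart k X.x i))), ?_, ?_⟩
    · intro z hz
      exact (hint i q z).2 hz
    · intro z _ hz'
      rw [← map_inv₀] at hz'
      exact (hint i q z⁻¹).1 hz'
  · intro P hP
    obtain ⟨Q, e, hPQ⟩ := exists_restrict_dval (L := L) P
    refine ⟨Q, ?_, e, hPQ⟩
    obtain ⟨i, q, hq, hR⟩ := hmem P.ring hP
    have h1 : Q.ring = locAt (chart k X.x i) (q.comap (toIcl E (chart k X.x i))) := by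
      ext z
      rw [← hint i q z, ← hR, DVal.mem_ring, DVal.mem_ring, hPQ.2]
      have h2 : (0 : ℤ) < e := by exact_mod_cast hPQ.1
      constructor
      · intro h; positivity
      · intro h
        by_contra h3
        push Not at h3
        nlinarith
    change Q.ring ∈ X.localRings
    rw [h1]
    exact X.locAt_mem i _

/-- The normalisation of a normal projective variety in a finite extension of its function
field. -/
theorem exists_cover [CharZero k] [FiniteDimensional L E] (X : ProjVar k L) :
    ∃ X' : ProjVar k E, IsFiniteCover X' X := by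
  classical
  -- generators of the integral closures
  choose r b hb0 hb hspan using fun i => icl_finite (E := E) (X.chart_isFrac i)
  choose D hD using fun (i : Fin (X.n + 1)) (j : Fin (X.n + 1)) (l : Fin (r i)) =>
    icl_shift (E := E) X.x X.x_ne i j (X.chart_isFrac i) (hb i l)
  obtain ⟨d, hd1, hd⟩ : ∃ d : ℕ, 1 ≤ d ∧ ∀ i j l, D i j l ≤ d := by
    refine ⟨1 + ∑ i, ∑ j, ∑ l, D i j l, by omega, fun i j l => ?_⟩
    have h1 : D i j l ≤ ∑ l, D i j l :=
      Finset.single_le_sum (f := fun l => D i j l) (fun _ _ => Nat.zero_le _) (Finset.mem_univ l)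
    have h2 : ∑ l, D i j l ≤ ∑ j, ∑ l, D i j l :=
      Finset.single_le_sum (f := fun j => ∑ l, D i j l) (fun _ _ => Nat.zero_le _)
        (Finset.mem_univ j)
    have h3 : ∑ j, ∑ l, D i j l ≤ ∑ i, ∑ j, ∑ l, D i j l :=
      Finset.single_le_sum (f := fun i => ∑ j, ∑ l, D i j l) (fun _ _ => Nat.zero_le _)
        (Finset.mem_univ i)
    omega
  -- the coordinates
  let ι : Type := (Fin d → Fin (X.n + 1)) ⊕ (Σ i : Fin (X.n + 1), Fin (r i))
  let Y : ι → E := Sum.elim (fun α => ∏ s, algebraMap L E (X.x (α s)))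
    (fun il => algebraMap L E (X.x il.1) ^ d * b il.1 il.2)
  have hY : ∀ t, Y t ≠ 0 := by
    rintro (α | il)
    · exact Finset.prod_ne_zero_iff.2 fun s _ => (map_ne_zero _).2 (X.x_ne _)
    · exact mul_ne_zero (pow_ne_zero _ ((map_ne_zero _).2 (X.x_ne _))) (hb0 _ _)
  obtain ⟨N, hN⟩ : ∃ N, Fintype.card ι = N + 1 := by
    have : Nonempty ι := ⟨Sum.inl fun _ => 0⟩
    exact ⟨Fintype.card ι - 1, by have := Fintype.card_pos (α := ι); omega⟩
  let e : ι ≃ Fin (N + 1) := Fintype.equivFinOfCardEq hN
  refine exists_cover_of_coords (X := X) (y := Y ∘ e.symm) (fun i => hY _)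
    (a := fun i => e (Sum.inl fun _ => i)) (fun i => ?_)
  have hai : (Y ∘ e.symm) (e (Sum.inl fun _ => i)) = algebraMap L E (X.x i) ^ d := by
    simp [Y]
  apply le_antisymm
  · unfold chart
    rw [Algebra.adjoin_le_iff]
    rintro _ ⟨j, rfl⟩
    change (Y ∘ e.symm) j / (Y ∘ e.symm) (e (Sum.inl fun _ => i)) ∈ icl E (chart k X.x i)
    rw [hai]
    obtain ⟨t, rfl⟩ := e.surjective j
    rw [Function.comp_apply, Equiv.symm_apply_apply]
    rcases t with α | ⟨j, l⟩
    · have h1 : Y (Sum.inl α) / algebraMap L E (X.x i) ^ d =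
          algebraMap L E (∏ s, X.x (α s) / X.x i) := by
        simp only [Y, Sum.elim_inl, Finset.prod_div_distrib, Finset.prod_const, Finset.card_univ,
          Fintype.card_fin, map_div₀, map_prod, map_pow]
      rw [h1]
      exact algebraMap_mem_icl (Subalgebra.prod_mem _ fun s _ => Algebra.subset_adjoin ⟨α s, rfl⟩)
    · have h1 : Y (Sum.inr ⟨j, l⟩) / algebraMap L E (X.x i) ^ d =
          algebraMap L E (X.x j / X.x i) ^ d * b j l := by
        simp only [Y, Sum.elim_inr, map_div₀, div_pow]
        ring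
      rw [h1]
      exact hD j i l d (hd j i l)
  · intro z hz
    obtain ⟨c, hc, rfl⟩ := hspan i z hz
    refine Subalgebra.sum_mem _ fun l _ => Subalgebra.mul_mem _ ?_ ?_
    · have h1 : ∀ u ∈ chart k X.x i, algebraMap L E u ∈
          chart k (Y ∘ e.symm) (e (Sum.inl fun _ => i)) := by
        intro u hu
        have h2 : chart k X.x i ≤ (chart k (Y ∘ e.symm) (e (Sum.inl fun _ => i))).comap
            (IsScalarTower.toAlgHom k L E) := by
          unfold chart
          rw [Algebra.adjoin_le_iff]
          rintro _ ⟨j, rfl⟩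
          change algebraMap L E (X.x j / X.x i) ∈ Algebra.adjoin k _
          apply Algebra.subset_adjoin
          let s₀ : Fin d := ⟨0, hd1⟩
          refine ⟨e (Sum.inl (Function.update (fun _ => i) s₀ j)), ?_⟩
          change (Y ∘ e.symm) (e (Sum.inl (Function.update (fun _ => i) s₀ j))) /
            (Y ∘ e.symm) (e (Sum.inl fun _ => i)) = _
          rw [hai, Function.comp_apply, Equiv.symm_apply_apply]
          simp only [Y, Sum.elim_inl]
          have hne : algebraMap L E (X.x i) ≠ 0 := (map_ne_zero _).2 (X.x_ne i)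
          rw [← Finset.mul_prod_erase Finset.univ _ (Finset.mem_univ s₀), Function.update_self]
          have h3 : ∏ s ∈ Finset.univ.erase s₀,
              algebraMap L E (X.x (Function.update (fun _ => i) s₀ j s)) =
              algebraMap L E (X.x i) ^ (d - 1) := by
            rw [Finset.prod_congr rfl (g := fun _ => algebraMap L E (X.x i)), Finset.prod_const,
              Finset.card_erase_of_mem (Finset.mem_univ _), Finset.card_univ, Fintype.card_fin]
            intro s hs
            rw [Function.update_of_ne (Finset.ne_of_mem_erase hs)]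
          rw [h3, map_div₀]
          obtain ⟨d', rfl⟩ : ∃ d', d = d' + 1 := ⟨d - 1, by omega⟩
          rw [Nat.add_sub_cancel, pow_succ]
          field_simp
        exact h2 hu
      exact h1 _ (hc l)
    · apply Algebra.subset_adjoin
      refine ⟨e (Sum.inr ⟨i, l⟩), ?_⟩
      change (Y ∘ e.symm) (e (Sum.inr ⟨i, l⟩)) / (Y ∘ e.symm) (e (Sum.inl fun _ => i)) = _
      rw [hai, Function.comp_apply, Equiv.symm_apply_apply]
      simp only [Y, Sum.elim_inr]
      have hne : algebraMap L E (X.x i) ≠ 0 := (map_ne_zero _).2 (X.x_ne i)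
      field_simp

end Pool.Agent.Helper60.PB
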