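import Pool.Agent.Helper60.PB.G1.FinalE
import Pool.Agent.Helper63.PB.Final

set_option autoImplicit false
set_option linter.unusedSectionVars false

/-!
# PB-41 Curve: the comparison theorem for fibrations in curves of genus at most one and their covers
-/

namespace Pool.Agent.Helper60.PB

open Pool.Agent.Helper92.Weak Pool.Agent.Helper92.Ga Pool.Agent.Helper63.PB


/-- `L'` is the function field of the projective line over `K'`. -/
def IsRationalField (K' L' : Type*) [Field K'] [Field L'] [Algebra K' L'] : Prop :=
  ∃ t : L', Transcendental K' t ∧ IntermediateField.adjoin K' {t} = ⊤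

/-- `L'` is the function field of the curve `y ^ 2 = t (t - 1) (t - l)` of genus one over `K'`. -/
def IsGenusOneField (K' L' : Type*) [Field K'] [Field L'] [Algebra K' L'] : Prop :=
  ∃ (t y : L') (l : K'), Transcendental K' t ∧ l ≠ 0 ∧ l ≠ 1 ∧
    y ^ 2 = t * (t - 1) * (t - algebraMap K' L' l) ∧ IntermediateField.adjoin K' {t, y} = ⊤

/-- `X → Z` is a morphism which maps every prime divisor of `X` onto `Z` or onto a prime divisor
of `Z`, and the geometric generic fibre is a curve of genus zero or one: if `K`, `L` are the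
function fields of `Z`, `X`, then `L' = L ⊗ K'` is the function field of such a curve over the
finite extension `K'` of `K`. -/
structure IsCurveFibration {k K L : Type*} (K' L' : Type*) [Field k] [Field K] [Field L]
    [Field K'] [Field L'] [Algebra k K] [Algebra k L] [Algebra K L] [Algebra K K'] [Algebra K L']
    [Algebra L L'] [Algebra K' L'] [IsScalarTower K L L'] [IsScalarTower K K' L']
    (X : ProjVar k L) (Z : ProjVar k K) : Prop where
  mor : IsMorphism X Z
  equi : ∀ P ∈ X.primeDivisors, (∃ a : K, P (algebraMap K L a) ≠ 0) →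
    ∃ Q ∈ Z.primeDivisors, ∃ e, LiesOver P Q e
  finite : FiniteDimensional K K'
  pushout : Algebra.IsPushout K K' L L'
  curve : IsRationalField K' L' ∨ IsGenusOneField K' L'

/-- The condition on the horizontal part of `Δ`: none if the genus of the fibres is one; if it is
zero, then either all coefficients are at most one, or `K_X + min(Δ, 1)` is big on the fibres. -/
def HorizontalOK (K K' L' : Type*) {k L : Type*} [Field k] [Field K] [Field L] [Field K'] [Field L']
    [Algebra k L] [Algebra K L] [Algebra K' L'] {X : ProjVar k L} {n : ℕ} (p : X.Pair n) : Prop :=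
  IsGenusOneField K' L' ∨
    (∀ P : X.primeDivisors, (∀ x : K, P.1 (algebraMap K L x) = 0) → p.Δ P ≤ 1) ∨ IsBigOnFibre K p

universe v

variable {k K L K' : Type*} {L' : Type v} [Field k] [Field K] [Field L] [Field K'] [Field L']
  [Algebra k K] [Algebra k L] [Algebra k K'] [Algebra k L'] [Algebra K L] [Algebra K K']
  [Algebra K L'] [Algebra L L'] [Algebra K' L'] [IsScalarTower k K L] [IsScalarTower k K K']
  [IsScalarTower k K L'] [IsScalarTower k L L'] [IsScalarTower k K' L'] [IsScalarTower K L L']
  [IsScalarTower K K' L'] {X : ProjVar k L} {Z : ProjVar k K}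

/-- The comparison theorem for fibrations in curves of genus at most one. -/
theorem main_curve [IsAlgClosed k] [CharZero k] {d : ℕ} (hd : Algebra.trdeg k K = d)
    (h : IsCurveFibration K' L' X Z) (p : X.Pair (d + 1)) (q : Z.Pair d)
    (h1 : HorizontalOK K K' L' p) (hq : IsOrbifoldBase p q) (hκ : Z.kod q.logDiv ≠ ⊥) :
    (X.kod p.logDiv = ⊥ ∧ X.nu p.logDiv = ⊥) ∨
    ∃ (s : ℕ) (B : Z.Div), s ≤ 1 ∧ (∀ Q, 0 ≤ B Q) ∧ ∀ ε : ℚ, 0 < ε →
      X.kod p.logDiv = s + Z.kod (q.logDiv + ε • B) ∧
      X.nu p.logDiv = s + Z.nu (q.logDiv + ε • B) := by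
  by_cases hE : IsGenusOneField K' L'
  · exact Or.inr (emain hd ⟨h.mor, h.equi, h.finite, h.pushout, hE⟩ p q hq hκ)
  · have hR : IsRationalField K' L' := h.curve.resolve_right hE
    have h2 := h1.resolve_left hE
    exact main hd ⟨h.mor, h.equi, h.finite, h.pushout, hR⟩ p q h2 hq hκ

end Pool.Agent.Helper60.PB
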