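import Mathlib

set_option autoImplicit false

/-!
# Project PB (MP_2c56d9_ag): Kummer extensions of a rational function field

`kummer_indep`: let `t ∈ Ω` be transcendental over `κ`, `y ^ N = c ∏ (t - a_l) ^ n_l` with distinct
`a_l ∈ κ`, and suppose that `N` and the `n_l` have no common divisor. Then `1, y, ..., y ^ (N - 1)`
are linearly independent over `κ(t)`.
-/

namespace Pool.Agent.Helper60.PB

open Polynomial

variable {κ Ω : Type*} [Field κ] [Field Ω] [Algebra κ Ω]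

theorem rootMultiplicity_pow' {p : κ[X]} (hp : p ≠ 0) (x : κ) (n : ℕ) :
    rootMultiplicity x (p ^ n) = n * rootMultiplicity x p := by
  induction n with
  | zero =>
    rw [pow_zero, zero_mul]
    exact rootMultiplicity_eq_zero (by simp [IsRoot])
  | succ n ih =>
    rw [pow_succ, rootMultiplicity_mul (mul_ne_zero (pow_ne_zero n hp) hp), ih]
    ring

theorem rootMultiplicity_C' {c : κ} (hc : c ≠ 0) (x : κ) : rootMultiplicity x (C c) = 0 :=
  rootMultiplicity_eq_zero (by simp [IsRoot, hc])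

theorem rootMultiplicity_prod_pow {ι : Type*} (s : Finset ι) (a : ι → κ) (ha : Set.InjOn a s)
    (n : ι → ℕ) {c : κ} (hc : c ≠ 0) {l : ι} (hl : l ∈ s) :
    rootMultiplicity (a l) (C c * ∏ m ∈ s, (X - C (a m)) ^ n m) = n l := by
  classical
  have h0 : ∀ m, (X - C (a m)) ^ n m ≠ 0 := fun m => pow_ne_zero _ (X_sub_C_ne_zero _)
  have h1 : C c * ∏ m ∈ s, (X - C (a m)) ^ n m =
      (C c * ∏ m ∈ s.erase l, (X - C (a m)) ^ n m) * (X - C (a l)) ^ n l := by
    rw [← Finset.mul_prod_erase s _ hl]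
    ring
  have h2 : C c * ∏ m ∈ s.erase l, (X - C (a m)) ^ n m ≠ 0 :=
    mul_ne_zero (C_ne_zero.2 hc) (Finset.prod_ne_zero_iff.2 fun m _ => h0 m)
  rw [h1, rootMultiplicity_mul_X_sub_C_pow h2, rootMultiplicity_eq_zero, zero_add]
  rw [IsRoot, eval_mul, eval_C, eval_prod, mul_eq_zero, not_or]
  refine ⟨hc, ?_⟩
  change _ ≠ _
  rw [Finset.prod_ne_zero_iff]
  intro m hm
  rw [eval_pow, eval_sub, eval_X, eval_C]
  refine pow_ne_zero _ (sub_ne_zero.2 fun h => ?_)
  exact (Finset.ne_of_mem_erase hm) (ha (Finset.mem_of_mem_erase hm) hl h.symm)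

theorem kummer_indep {t y : Ω} (ht : Transcendental κ t) {N : ℕ} (hN : 0 < N) {ι : Type*}
    (s : Finset ι) (a : ι → κ) (ha : Set.InjOn a s) (n : ι → ℕ) {c : κ} (hc : c ≠ 0)
    (hy : y ^ N = aeval t (C c * ∏ l ∈ s, (X - C (a l)) ^ n l))
    (hgcd : ∀ d : ℕ, (∀ l ∈ s, N ∣ d * n l) → N ∣ d) (F : ℕ → κ[X])
    (hF : ∑ i ∈ Finset.range N, aeval t (F i) * y ^ i = 0) : ∀ i < N, F i = 0 := by
  classical
  set g : κ[X] := C c * ∏ l ∈ s, (X - C (a l)) ^ n l with hg
  have hinj : ∀ p : κ[X], aeval t p = 0 → p = 0 := by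
    intro p hp
    by_contra h0
    exact ht ⟨p, h0, hp⟩
  have hg0 : g ≠ 0 :=
    mul_ne_zero (C_ne_zero.2 hc) (Finset.prod_ne_zero_iff.2 fun m _ =>
      pow_ne_zero _ (X_sub_C_ne_zero _))
  let 𝔽 := IntermediateField.adjoin κ {t}
  have hmem : ∀ p : κ[X], aeval t p ∈ 𝔽 := by
    intro p
    have h1 : t ∈ 𝔽 := IntermediateField.mem_adjoin_simple_self κ t
    have h2 : ((aeval (⟨t, h1⟩ : 𝔽) p : 𝔽) : Ω) = aeval t p := by
      have h3 := (aeval_algHom_apply (IntermediateField.val 𝔽) (⟨t, h1⟩ : 𝔽) p)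
      exact h3.symm
    rw [← h2]
    exact (aeval (⟨t, h1⟩ : 𝔽) p : 𝔽).2
  let G : 𝔽 := ⟨aeval t g, hmem g⟩
  have hG0 : G ≠ 0 := by
    intro h
    apply hg0
    apply hinj
    exact congrArg Subtype.val h
  let S : 𝔽[X] := ∑ i ∈ Finset.range N, C (⟨aeval t (F i), hmem (F i)⟩ : 𝔽) * X ^ i
  have hScoeff : ∀ i < N, S.coeff i = (⟨aeval t (F i), hmem (F i)⟩ : 𝔽) := by
    intro i hi
    simp only [S, finsetSum_coeff, coeff_C_mul, coeff_X_pow, mul_ite, mul_one, mul_zero]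
    rw [Finset.sum_ite_eq]
    rw [if_pos (Finset.mem_range.2 hi)]
  have hSdeg : S.degree < N := by
    rw [degree_lt_iff_coeff_zero]
    intro m hm
    simp only [S, finsetSum_coeff, coeff_C_mul, coeff_X_pow, mul_ite, mul_one, mul_zero]
    rw [Finset.sum_ite_eq, if_neg]
    rw [Finset.mem_range]
    omega
  have hSy : aeval y S = 0 := by
    simp only [S, map_sum, map_mul, aeval_C, map_pow, aeval_X]
    rw [← hF]
    exact Finset.sum_congr rfl fun i _ => rfl
  by_contra hcon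
  push Not at hcon
  obtain ⟨i₀, hi₀, hFi₀⟩ := hcon
  have hS0 : S ≠ 0 := by
    intro h
    apply hFi₀
    apply hinj
    have h1 := hScoeff i₀ hi₀
    rw [h, coeff_zero] at h1
    exact (congrArg Subtype.val h1).symm
  have hyP : aeval y (X ^ N - C G : 𝔽[X]) = 0 := by
    rw [map_sub, map_pow, aeval_X, aeval_C, hy]
    exact sub_self _
  have hint : IsIntegral 𝔽 y := ⟨X ^ N - C G, monic_X_pow_sub_C _ hN.ne', hyP⟩
  set M := minpoly 𝔽 y with hM
  have hMm : M.Monic := minpoly.monic hint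
  have hMS : M.degree < N := lt_of_le_of_lt (minpoly.degree_le_of_ne_zero 𝔽 y hS0 hSy) hSdeg
  have hMP : M ∣ X ^ N - C G := minpoly.dvd 𝔽 y hyP
  set d := M.natDegree with hd
  have hdN : d < N := by
    rw [degree_eq_natDegree hMm.ne_zero] at hMS
    exact_mod_cast hMS
  have hd0 : 0 < d := minpoly.natDegree_pos hint
  -- the constant coefficient
  have hkey : M.coeff 0 ^ N = ((-1) ^ d) ^ N * G ^ d := by
    let Ω' := AlgebraicClosure 𝔽
    have hsp : (M.map (algebraMap 𝔽 Ω')).Splits := IsAlgClosed.splits _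
    have h1 := hsp.coeff_zero_eq_prod_roots_of_monic (hMm.map _)
    rw [coeff_map, natDegree_map] at h1
    apply (algebraMap 𝔽 Ω').injective
    rw [map_pow, h1, mul_pow, map_mul, map_pow, map_pow, map_pow, map_neg, map_one, ← hd]
    congr 1
    have h4 : (M.map (algebraMap 𝔽 Ω')).roots.prod ^ N =
        ((M.map (algebraMap 𝔽 Ω')).roots.map fun r => r ^ N).prod := by
      have h5 := Multiset.prod_map_pow (m := (M.map (algebraMap 𝔽 Ω')).roots) (f := fun r => r)
        (n := N)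
      rw [h5, Multiset.map_id']
    rw [h4, Multiset.map_congr rfl (g := fun _ => algebraMap 𝔽 Ω' G),
      Multiset.map_const', Multiset.prod_replicate]
    · congr 1
      rw [← hsp.natDegree_eq_card_roots, natDegree_map]
    · intro r hr
      have h2 : IsRoot (M.map (algebraMap 𝔽 Ω')) r := isRoot_of_mem_roots hr
      have h3 : IsRoot ((X ^ N - C G : 𝔽[X]).map (algebraMap 𝔽 Ω')) r :=
        h2.dvd (Polynomial.map_dvd _ hMP)
      rw [IsRoot, Polynomial.map_sub, Polynomial.map_pow, map_X, map_C, eval_sub, eval_pow, eval_X,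
        eval_C, sub_eq_zero] at h3
      exact h3
  obtain ⟨A, B, hAB⟩ := (IntermediateField.mem_adjoin_simple_iff κ (M.coeff 0 : Ω)).1 (M.coeff 0).2
  have hM0 : (M.coeff 0 : Ω) ≠ 0 := by
    intro h
    have h1 : M.coeff 0 = 0 := Subtype.ext h
    rw [h1, zero_pow hN.ne'] at hkey
    have h2 : ((-1 : 𝔽) ^ d) ^ N * G ^ d ≠ 0 :=
      mul_ne_zero (pow_ne_zero _ (pow_ne_zero _ (neg_ne_zero.2 one_ne_zero))) (pow_ne_zero _ hG0)
    exact h2 hkey.symm
  have hA0 : A ≠ 0 := by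
    rintro rfl
    rw [map_zero, zero_div] at hAB
    exact hM0 hAB
  have hB0 : B ≠ 0 := by
    rintro rfl
    rw [map_zero, div_zero] at hAB
    exact hM0 hAB
  have hpoly : A ^ N = C (((-1) ^ d) ^ N) * (g ^ d * B ^ N) := by
    rw [← sub_eq_zero]
    apply hinj
    have h1 := congrArg (Subtype.val : 𝔽 → Ω) hkey
    have h2 : (M.coeff 0 : Ω) ^ N = ((-1) ^ d) ^ N * (aeval t g) ^ d := by
      have h3 : ((M.coeff 0 ^ N : 𝔽) : Ω) = (M.coeff 0 : Ω) ^ N := rfl
      rw [← h3, h1]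
      push_cast
      rfl
    have hB : aeval t B ≠ 0 := fun h => hB0 (hinj _ h)
    rw [hAB, div_pow, div_eq_iff (pow_ne_zero _ hB)] at h2
    rw [map_sub, map_mul, map_mul, map_pow, map_pow, map_pow, aeval_C, h2]
    simp only [map_pow, map_neg, map_one]
    ring
  apply absurd (hgcd d fun l hl => ?_) (fun h => absurd (Nat.le_of_dvd hd0 h) (by omega))
  have h1 := congrArg (rootMultiplicity (a l)) hpoly
  have hpm : (((-1 : κ)) ^ d) ^ N ≠ 0 := pow_ne_zero _ (pow_ne_zero _ (neg_ne_zero.2 one_ne_zero))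
  have hgB : g ^ d * B ^ N ≠ 0 := mul_ne_zero (pow_ne_zero _ hg0) (pow_ne_zero _ hB0)
  rw [rootMultiplicity_pow' hA0, rootMultiplicity_mul (mul_ne_zero (C_ne_zero.2 hpm) hgB),
    rootMultiplicity_C' hpm, rootMultiplicity_mul hgB, rootMultiplicity_pow' hg0,
    rootMultiplicity_pow' hB0, hg, rootMultiplicity_prod_pow s a ha n hc hl, zero_add] at h1
  exact (Nat.dvd_add_left ⟨rootMultiplicity (a l) B, rfl⟩).1 ⟨_, h1.symm⟩

end Pool.Agent.Helper60.PB
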