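import Pool.Agent.Helper47.PQ.R2
import Pool.Agent.Helper60.PB.KumAlg

set_option autoImplicit false

/-!
# Project PB (MP_2c56d9_ag): Gauss valuations and Kummer extensions

`kummer_ge`: let `v` be a discrete valuation of `L` over the discrete valuation `Q` of `K`, let
`t ∈ L` have the Gauss property `v (F (t)) = min v (F_j)` for polynomials `F` over `K`, and let
`y ^ N = c ∏ (t - a_l) ^ n_l`, where `c` and the `a_l - a_m` are units at `Q`, the `a_l` are integral,
and `N` and the `n_l` have no common divisor. Then `v (∑ F_i (t) y ^ i) = min v (F_i (t))`.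
-/

namespace Pool.Agent.Helper60.PB

open Pool.Agent.Helper92.Weak Pool.Agent.Helper47.PQ Polynomial

section Residue

variable {k L : Type*} [Field k] [Field L] [Algebra k L]

instance isLocalRing_ring (v : DVal k L) : IsLocalRing v.ring := by
  apply IsLocalRing.of_nonunits_add
  have key : ∀ a : v.ring, a ∈ nonunits v.ring ↔ v.Ge 1 (a : L) := by
    intro a
    rw [mem_nonunits_iff]
    constructor
    · intro h
      by_contra hcon
      unfold DVal.Ge at hcon
      push Not at hcon
      obtain ⟨h0, h1⟩ := hcon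
      have h2 : v (a : L) < 1 := by exact_mod_cast h1
      have h3 : 0 ≤ v (a : L) := a.2
      apply h
      refine IsUnit.of_mul_eq_one (⟨(a : L)⁻¹, ?_⟩ : v.ring) ?_
      · rw [DVal.mem_ring, DVal.map_inv]
        omega
      · exact Subtype.ext (mul_inv_cancel₀ h0)
    · rintro h hu
      obtain ⟨b, hb⟩ := isUnit_iff_exists_inv.1 hu
      have hb' : (a : L) * (b : L) = 1 := congrArg Subtype.val hb
      have h1 : v.Ge 0 (b : L) := (v.mem_ring_iff_ge).1 b.2
      have h2 := h.mul h1
      rw [hb'] at h2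
      rcases h2 with h2 | h2
      · exact one_ne_zero h2
      · rw [DVal.map_one] at h2
        norm_num at h2
  intro a b ha hb
  rw [key] at ha hb ⊢
  exact ha.add hb

theorem residue_eq_zero_iff' (v : DVal k L) (a : v.ring) :
    IsLocalRing.residue v.ring a = 0 ↔ v.Ge 1 (a : L) := by
  rw [IsLocalRing.residue_eq_zero_iff, IsLocalRing.mem_maximalIdeal, mem_nonunits_iff]
  constructor
  · intro h
    by_contra hcon
    unfold DVal.Ge at hcon
    push Not at hcon
    obtain ⟨h0, h1⟩ := hcon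
    have h2 : v (a : L) < 1 := by exact_mod_cast h1
    have h3 : 0 ≤ v (a : L) := a.2
    apply h
    refine IsUnit.of_mul_eq_one (⟨(a : L)⁻¹, ?_⟩ : v.ring) ?_
    · rw [DVal.mem_ring, DVal.map_inv]
      omega
    · exact Subtype.ext (mul_inv_cancel₀ h0)
  · rintro h hu
    obtain ⟨b, hb⟩ := isUnit_iff_exists_inv.1 hu
    have hb' : (a : L) * (b : L) = 1 := congrArg Subtype.val hb
    have h1 : v.Ge 0 (b : L) := (v.mem_ring_iff_ge).1 b.2
    have h2 := h.mul h1
    rw [hb'] at h2
    rcases h2 with h2 | h2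
    · exact one_ne_zero h2
    · rw [DVal.map_one] at h2
      norm_num at h2

end Residue

section

variable {k K L : Type*} [Field k] [Field K] [Field L] [Algebra k K] [Algebra k L] [Algebra K L]
  [IsScalarTower k K L]

/-- The inclusion of the valuation ring of `Q` in that of `v`. -/
def ringMap {v : DVal k L} {Q : DVal k K} {e : ℕ} (h : LiesOver v Q e) : Q.ring →+* v.ring where
  toFun a := ⟨algebraMap K L a, by
    rw [DVal.mem_ring, h.2]
    exact mul_nonneg (Int.natCast_nonneg e) a.2⟩
  map_one' := Subtype.ext (map_one _)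
  map_mul' _ _ := Subtype.ext (map_mul _ _ _)
  map_zero' := Subtype.ext (map_zero _)
  map_add' _ _ := Subtype.ext (map_add _ _ _)

omit [IsScalarTower k K L] in
theorem isLocalHom_ringMap {v : DVal k L} {Q : DVal k K} {e : ℕ} (h : LiesOver v Q e) :
    IsLocalHom (ringMap h) := by
  constructor
  intro a ha
  by_contra hcon
  have h1 : IsLocalRing.residue Q.ring a = 0 := by
    rw [IsLocalRing.residue_eq_zero_iff, IsLocalRing.mem_maximalIdeal]
    exact hcon
  rw [residue_eq_zero_iff'] at h1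
  have h2 : v.Ge 1 (algebraMap K L a) := by
    rcases h1 with h1 | h1
    · left; rw [h1, map_zero]
    · right
      rw [h.2]
      have h3 : (1 : ℤ) ≤ Q (a : K) := by exact_mod_cast h1
      have h4 : (1 : ℤ) ≤ e := by exact_mod_cast h.1
      have h5 : (1 : ℤ) ≤ e * Q (a : K) := by nlinarith
      exact_mod_cast h5
  have h3 : IsLocalRing.residue v.ring (ringMap h a) = 0 := (residue_eq_zero_iff' v _).2 h2
  rw [IsLocalRing.residue_eq_zero_iff, IsLocalRing.mem_maximalIdeal] at h3
  exact h3 ha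

omit [IsScalarTower k K L] in
theorem ge_one_of_ge_one {v : DVal k L} {Q : DVal k K} {e : ℕ} (h : LiesOver v Q e) {a : K}
    (ha : v.Ge 1 (algebraMap K L a)) : Q.Ge 1 a := by
  rcases ha with ha | ha
  · left
    exact (map_eq_zero _).1 ha
  · right
    rw [h.2] at ha
    have h3 : (1 : ℤ) ≤ e * Q a := by exact_mod_cast ha
    have h4 : (1 : ℤ) ≤ e := by exact_mod_cast h.1
    have h5 : (1 : ℤ) ≤ Q a := by
      by_contra hcon
      push Not at hcon
      nlinarith
    exact_mod_cast h5

omit [IsScalarTower k K L] in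
/-- The value of a polynomial. -/
theorem coe_eval₂_ringMap {v : DVal k L} {Q : DVal k K} {e : ℕ} (h : LiesOver v Q e) {t : L}
    (ht : 0 ≤ v t) (P : Q.ring[X]) :
    ((P.eval₂ (ringMap h) (⟨t, ht⟩ : v.ring) : v.ring) : L) =
      aeval t (P.map (algebraMap Q.ring K)) := by
  have h1 := Polynomial.hom_eval₂ P (ringMap h) (v.ring.subtype : v.ring →+* L) ⟨t, ht⟩
  rw [aeval_def, eval₂_map]
  exact h1

omit [IsScalarTower k K L] in
theorem kummer_ge {v : DVal k L} {Q : DVal k K} {e : ℕ} (h : LiesOver v Q e) {t y : L}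
    (ht : 0 ≤ v t) (hG : ∀ (F : K[X]) (r : ℚ), v.Ge r (aeval t F) →
      ∀ j, v.Ge r (algebraMap K L (F.coeff j)))
    {N : ℕ} (hN : 0 < N) {ι : Type*} [Fintype ι] (a : ι → K) (ha : ∀ l, 0 ≤ Q (a l))
    (hab : ∀ l m, l ≠ m → a l - a m ≠ 0 ∧ Q (a l - a m) = 0) (n : ι → ℕ) {c : K} (hc : c ≠ 0)
    (hc' : Q c = 0) (hy : y ^ N = aeval t (C c * ∏ l, (X - C (a l)) ^ n l))
    (hgcd : ∀ d : ℕ, (∀ l, N ∣ d * n l) → N ∣ d) (F : ℕ → K[X]) {r : ℚ}
    (hr : v.Ge r (∑ i ∈ Finset.range N, aeval t (F i) * y ^ i)) :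
    ∀ i < N, v.Ge r (aeval t (F i)) := by
  classical
  -- polynomials with coefficients of large value have large values
  have hval : ∀ (P : K[X]) (q : ℚ), (∀ j, v.Ge q (algebraMap K L (P.coeff j))) →
      v.Ge q (aeval t P) := by
    intro P q hP
    rw [aeval_eq_sum_range]
    apply DVal.Ge.sum
    intro j _
    have h1 : v.Ge 0 (t ^ j) := by
      right
      rw [v.map_pow]
      have : (0 : ℤ) ≤ j * v t := mul_nonneg (Int.natCast_nonneg j) ht
      exact_mod_cast this
    have h2 := (hP j).mul h1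
    rw [add_zero] at h2
    rw [Algebra.smul_def]
    exact h2
  by_cases hall : ∀ i < N, F i = 0
  · intro i hi
    rw [hall i hi, map_zero]
    exact DVal.Ge.zero
  push Not at hall
  -- a coefficient of minimal value
  obtain ⟨i₁, hi₁, hF₁⟩ := hall
  let T : Finset (ℕ × ℕ) := (Finset.range N).biUnion fun i => (F i).support.image fun j => (i, j)
  have hT : ∀ p : ℕ × ℕ, p ∈ T ↔ p.1 < N ∧ (F p.1).coeff p.2 ≠ 0 := by
    rintro ⟨i, j⟩
    simp only [T, Finset.mem_biUnion, Finset.mem_range, Finset.mem_image, mem_support_iff]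
    constructor
    · rintro ⟨i', h1, j', h2, h3⟩
      have h4 : i' = i := congrArg Prod.fst h3
      have h5 : j' = j := congrArg Prod.snd h3
      subst h4 h5
      exact ⟨h1, h2⟩
    · rintro ⟨h1, h2⟩
      exact ⟨i, h1, j, h2, rfl⟩
  have hTne : T.Nonempty := by
    have h1 : (F i₁).leadingCoeff ≠ 0 := leadingCoeff_ne_zero.2 hF₁
    exact ⟨(i₁, (F i₁).natDegree), (hT _).2 ⟨hi₁, h1⟩⟩
  obtain ⟨⟨i₀, j₀⟩, h00, hmin⟩ := Finset.exists_min_image T
    (fun p => Q ((F p.1).coeff p.2)) hTne
  rw [hT] at h00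
  obtain ⟨hi₀, hc₀⟩ := h00
  dsimp only at hi₀ hc₀
  set c₀ := (F i₀).coeff j₀ with hc₀def
  have hmin' : ∀ i < N, ∀ j, (F i).coeff j ≠ 0 → Q c₀ ≤ Q ((F i).coeff j) := fun i hi j hj =>
    hmin (i, j) ((hT _).2 ⟨hi, hj⟩)
  have hc₀L : algebraMap K L c₀ ≠ 0 := (_root_.map_ne_zero _).2 hc₀
  set u := ∑ i ∈ Finset.range N, aeval t (F i) * y ^ i with hu
  -- the key claim
  suffices hclaim : ¬ v.Ge 1 ((algebraMap K L c₀)⁻¹ * u) by
    have h1 : v.Ge (v (algebraMap K L c₀)) (algebraMap K L c₀) := v.ge_self _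
    have h2 : r ≤ v (algebraMap K L c₀) := by
      unfold DVal.Ge at hclaim
      push Not at hclaim
      obtain ⟨h3, h4⟩ := hclaim
      have hu0 : u ≠ 0 := right_ne_zero_of_mul h3
      rw [v.map_mul (inv_ne_zero hc₀L) hu0, v.map_inv] at h4
      have h5 : -v (algebraMap K L c₀) + v u < 1 := by exact_mod_cast h4
      have h6 : v u ≤ v (algebraMap K L c₀) := by omega
      rw [DVal.ge_iff hu0] at hr
      have h7 : (v u : ℚ) ≤ v (algebraMap K L c₀) := by exact_mod_cast h6
      linarith
    intro i hi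
    refine DVal.Ge.mono (hval (F i) _ fun j => ?_) h2
    by_cases hj : (F i).coeff j = 0
    · rw [hj, map_zero]; exact DVal.Ge.zero
    · right
      rw [h.2, h.2]
      have h3 := hmin' i hi j hj
      have h4 : (e : ℤ) * Q c₀ ≤ e * Q ((F i).coeff j) :=
        mul_le_mul_of_nonneg_left h3 (Int.natCast_nonneg e)
      exact_mod_cast h4
  intro hcl
  -- scaled polynomials over the valuation ring of `Q`
  have hlift : ∀ i, ∃ P : Q.ring[X], i < N →
      P.map (algebraMap Q.ring K) = C c₀⁻¹ * F i := by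
    intro i
    by_cases hi : i < N
    · have h1 : C c₀⁻¹ * F i ∈ Polynomial.lifts (algebraMap Q.ring K) := by
        rw [Polynomial.lifts_iff_coeff_lifts]
        intro j
        refine ⟨⟨(C c₀⁻¹ * F i).coeff j, ?_⟩, rfl⟩
        rw [coeff_C_mul, DVal.mem_ring]
        by_cases hj : (F i).coeff j = 0
        · rw [hj, mul_zero, DVal.map_zero]
        · rw [Q.map_mul (inv_ne_zero hc₀) hj, Q.map_inv]
          have := hmin' i hi j hj
          omega
      obtain ⟨P, hP⟩ := (Polynomial.mem_lifts _).1 h1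
      exact ⟨P, fun _ => hP⟩
    · exact ⟨0, fun h => absurd h hi⟩
  choose P hP using hlift
  -- residue fields
  have hloc := isLocalHom_ringMap h
  let κ := IsLocalRing.ResidueField Q.ring
  let Ω := IsLocalRing.ResidueField v.ring
  let _ : Algebra κ Ω := (IsLocalRing.ResidueField.map (ringMap h)).toAlgebra
  let tR : v.ring := ⟨t, ht⟩
  let tb : Ω := IsLocalRing.residue v.ring tR
  have hres : ∀ P : Q.ring[X], IsLocalRing.residue v.ring (P.eval₂ (ringMap h) tR) =
      aeval tb (P.map (IsLocalRing.residue Q.ring)) := by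
    intro P
    rw [Polynomial.hom_eval₂, aeval_def, eval₂_map]
    rfl
  have htr : Transcendental κ tb := by
    rintro ⟨f, hf0, hf⟩
    obtain ⟨P, rfl⟩ := Polynomial.map_surjective _ IsLocalRing.residue_surjective f
    apply hf0
    rw [← hres, residue_eq_zero_iff', coe_eval₂_ringMap h ht] at hf
    ext j
    rw [coeff_map, coeff_zero, residue_eq_zero_iff']
    have h1 := hG _ _ hf j
    rw [coeff_map] at h1
    exact ge_one_of_ge_one h h1
  -- the element `y`
  let cR : Q.ring := ⟨c, by rw [DVal.mem_ring, hc']⟩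
  let aR : ι → Q.ring := fun l => ⟨a l, ha l⟩
  let gR : Q.ring[X] := C cR * ∏ l, (X - C (aR l)) ^ n l
  have hgR : gR.map (algebraMap Q.ring K) = C c * ∏ l, (X - C (a l)) ^ n l := by
    simp only [gR, Polynomial.map_mul, Polynomial.map_prod, Polynomial.map_pow, Polynomial.map_sub,
      map_X, map_C]
    rfl
  have hyv : 0 ≤ v y := by
    have h1 : 0 ≤ v (y ^ N) := by
      rw [hy, ← hgR, ← coe_eval₂_ringMap h ht]
      exact (gR.eval₂ (ringMap h) (⟨t, ht⟩ : v.ring)).2
    rw [v.map_pow] at h1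
    have h2 : (0 : ℤ) < N := by exact_mod_cast hN
    by_contra hcon
    push Not at hcon
    nlinarith
  let yR : v.ring := ⟨y, hyv⟩
  have hyR : yR ^ N = gR.eval₂ (ringMap h) tR := by
    apply Subtype.ext
    rw [coe_eval₂_ringMap h ht, hgR, ← hy]
    rfl
  have hyb : (IsLocalRing.residue v.ring yR) ^ N = aeval tb
      (C (IsLocalRing.residue Q.ring cR) *
        ∏ l, (X - C (IsLocalRing.residue Q.ring (aR l))) ^ n l) := by
    rw [← map_pow, hyR, hres]
    simp only [gR, Polynomial.map_mul, Polynomial.map_prod, Polynomial.map_pow, Polynomial.map_sub,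
      map_X, map_C]
  have hcb : IsLocalRing.residue Q.ring cR ≠ 0 := by
    rw [Ne, residue_eq_zero_iff']
    rintro (h1 | h1)
    · exact hc h1
    · change (1 : ℚ) ≤ ((Q c : ℤ) : ℚ) at h1
      rw [hc'] at h1
      norm_num at h1
  have hainj : Set.InjOn (fun l => IsLocalRing.residue Q.ring (aR l))
      ((Finset.univ : Finset ι) : Set ι) := by
    intro l _ m _ hlm
    by_contra hne
    obtain ⟨h1, h2⟩ := hab l m hne
    have h3 : IsLocalRing.residue Q.ring (aR l - aR m) = 0 := by
      rw [map_sub, sub_eq_zero]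
      exact hlm
    rw [residue_eq_zero_iff'] at h3
    rcases h3 with h3 | h3
    · exact h1 h3
    · change (1 : ℚ) ≤ ((Q (a l - a m) : ℤ) : ℚ) at h3
      rw [h2] at h3
      norm_num at h3
  -- the relation
  have hrel : ∑ i ∈ Finset.range N, aeval tb ((P i).map (IsLocalRing.residue Q.ring)) *
      (IsLocalRing.residue v.ring yR) ^ i = 0 := by
    have h1 : ∀ i, aeval tb ((P i).map (IsLocalRing.residue Q.ring)) *
        (IsLocalRing.residue v.ring yR) ^ i =
        IsLocalRing.residue v.ring ((P i).eval₂ (ringMap h) tR * yR ^ i) := by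
      intro i
      rw [map_mul, map_pow, hres]
    rw [Finset.sum_congr rfl fun i _ => h1 i, ← map_sum, residue_eq_zero_iff']
    have h2 : ((∑ i ∈ Finset.range N, (P i).eval₂ (ringMap h) tR * yR ^ i : v.ring) : L) =
        (algebraMap K L c₀)⁻¹ * u := by
      rw [hu, Finset.mul_sum]
      rw [AddSubmonoidClass.coe_finsetSum]
      refine Finset.sum_congr rfl fun i hi => ?_
      change (((P i).eval₂ (ringMap h) (⟨t, ht⟩ : v.ring) : v.ring) : L) * y ^ i = _
      rw [coe_eval₂_ringMap h ht, hP i (Finset.mem_range.1 hi), map_mul, aeval_C, map_inv₀]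
      ring
    rw [h2]
    exact hcl
  have hzero := kummer_indep htr hN Finset.univ _ hainj n hcb hyb
    (fun d hd => hgcd d fun l => hd l (Finset.mem_univ l)) _ hrel i₀ hi₀
  have h1 := congrArg (fun f => f.coeff j₀) hzero
  simp only [coeff_map, coeff_zero] at h1
  rw [residue_eq_zero_iff'] at h1
  have h2 : (((P i₀).coeff j₀ : Q.ring) : K) = 1 := by
    have h3 := congrArg (fun f => f.coeff j₀) (hP i₀ hi₀)
    simp only [coeff_map, coeff_C_mul] at h3
    rw [← hc₀def, inv_mul_cancel₀ hc₀] at h3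
    exact h3
  rw [h2] at h1
  rcases h1 with h1 | h1
  · exact one_ne_zero h1
  · rw [DVal.map_one] at h1
    norm_num at h1

end

end Pool.Agent.Helper60.PB
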