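import Pool.Agent.Helper92.Weak.Defs

set_option autoImplicit false

/-!
# Project PB (MP_2c56d9_ag): the Taylor lemma

Let `D` be a derivation of `L` over `K` with `D t = 1` and `v (D g) ≥ v g - Λ` for all `g`. Then the
coefficients of a polynomial `N` over `K` satisfy `v (N_j) ≥ v (N (t)) - n (max Λ 0 + |v t|)`, if
`n ≥ deg N`.
-/

namespace Pool.Agent.Helper60.PB

open Pool.Agent.Helper92.Weak Polynomial

variable {k K L : Type*} [Field k] [Field K] [Field L] [Algebra k K] [Algebra k L] [Algebra K L]

omit [Algebra k K] in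
theorem ge_pow {v : DVal k L} (a : L) (n : ℕ) : v.Ge ((n : ℚ) * v a) (a ^ n) := by
  have h1 := v.ge_self (a ^ n)
  rw [v.map_pow] at h1
  push_cast at h1
  exact h1

/-- Taylor formula for the coefficients of a polynomial. -/
theorem coeff_eq_sum (N : K[X]) {n : ℕ} (hn : N.natDegree ≤ n) (t : L) (j : ℕ) :
    algebraMap K L (N.coeff j) = ∑ i ∈ Finset.range (n + 1),
      ((i + j).choose i : L) * aeval t (hasseDeriv (i + j) N) * (-t) ^ i := by
  set M : L[X] := (hasseDeriv j N).map (algebraMap K L) with hM
  have h1 : algebraMap K L (N.coeff j) = M.eval 0 := by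
    rw [← coeff_zero_eq_eval_zero, hM, coeff_map, hasseDeriv_coeff, zero_add, Nat.choose_self,
      Nat.cast_one, one_mul]
  have h2 : M.eval 0 = (taylor t M).eval (-t) := by
    rw [taylor_eval, neg_add_cancel]
  have h3 : (taylor t M).natDegree < n + 1 := by
    rw [natDegree_taylor, hM]
    refine lt_of_le_of_lt natDegree_map_le ?_
    have := natDegree_hasseDeriv_le N j
    omega
  rw [h1, h2, eval_eq_sum_range' h3]
  refine Finset.sum_congr rfl fun i _ => ?_
  rw [taylor_coeff, hM]
  congr 1
  have h4 : hasseDeriv i ((hasseDeriv j N).map (algebraMap K L)) =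
      ((hasseDeriv i (hasseDeriv j N)).map (algebraMap K L)) := by
    ext l
    simp only [hasseDeriv_coeff, coeff_map, map_mul, map_natCast]
  have h5 : hasseDeriv i (hasseDeriv j N) = (i + j).choose i • hasseDeriv (i + j) N := by
    have h6 := congrArg (fun f => f N) (hasseDeriv_comp (R := K) i j)
    simpa using h6
  rw [h4, h5, eval_map_algebraMap, map_nsmul, nsmul_eq_mul]

/-- The Taylor lemma. -/
theorem taylor_bound [IsScalarTower k K L] [CharZero k] (v : DVal k L) (D : Derivation K L L)
    {t : L} (ht : D t = 1) {Λ : ℚ} (hD : ∀ (r : ℚ) (g : L), v.Ge r g → v.Ge (r - Λ) (D g))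
    (N : K[X]) {n : ℕ} (hn : N.natDegree ≤ n) {r : ℚ} (hr : v.Ge r (aeval t N)) (j : ℕ) :
    v.Ge (r - n * (max Λ 0 + |(v t : ℚ)|)) (algebraMap K L (N.coeff j)) := by
  have hc : CharZero L := charZero_of_injective_algebraMap (algebraMap k L).injective
  have h1 : ∀ i : ℕ, v.Ge (r - i * Λ) (aeval t (derivative^[i] N)) := by
    intro i
    induction i with
    | zero => simpa using hr
    | succ i ih =>
      rw [Function.iterate_succ_apply']
      have h2 := hD _ _ ih
      rw [Derivation.map_aeval, ht, smul_eq_mul, mul_one] at h2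
      refine h2.mono ?_
      push_cast
      linarith
  have h2 : ∀ i : ℕ, v.Ge (r - i * Λ) (aeval t (hasseDeriv i N)) := by
    intro i
    have h3 : derivative^[i] N = (i.factorial : K) • hasseDeriv i N := by
      rw [← factorial_smul_hasseDeriv, Nat.cast_smul_eq_nsmul]
      rfl
    have h4 := (h1 i).smul ((i.factorial : k)⁻¹)
    rw [h3, map_smul, algebra_compatible_smul K ((i.factorial : k)⁻¹), smul_smul, map_inv₀,
      map_natCast] at h4
    have hc' : CharZero K := charZero_of_injective_algebraMap (algebraMap k K).injective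
    have h5 : ((i.factorial : K))⁻¹ * (i.factorial : K) = 1 :=
      inv_mul_cancel₀ (by exact_mod_cast i.factorial_ne_zero)
    rwa [h5, one_smul] at h4
  rw [coeff_eq_sum N hn t j]
  apply DVal.Ge.sum
  intro i hi
  by_cases hij : n < i + j
  · have h3 : hasseDeriv (i + j) N = 0 := hasseDeriv_eq_zero_of_lt_natDegree _ _ (by omega)
    rw [h3, map_zero, mul_zero, zero_mul]
    exact DVal.Ge.zero
  · push Not at hij
    have h3 : v.Ge 0 (((i + j).choose i : L)) := by
      have h4 := v.ge_self (((i + j).choose i : L))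
      rw [← map_natCast (algebraMap k L), v.map_const] at h4
      rw [← map_natCast (algebraMap k L)]
      simpa using h4
    have h4 : v.Ge ((i : ℚ) * v t) ((-t) ^ i) := by
      have h5 := ge_pow (v := v) (-t) i
      rwa [v.map_neg] at h5
    refine ((h3.mul (h2 (i + j))).mul h4).mono ?_
    have h5 : (i : ℚ) + j ≤ n := by exact_mod_cast hij
    have h6 : (0 : ℚ) ≤ i := Nat.cast_nonneg _
    have h7 : (0 : ℚ) ≤ j := Nat.cast_nonneg _
    have h8 : ((i : ℚ) + j) * Λ ≤ n * max Λ 0 := by
      calc ((i : ℚ) + j) * Λ ≤ ((i : ℚ) + j) * max Λ 0 :=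
            mul_le_mul_of_nonneg_left (le_max_left _ _) (by positivity)
        _ ≤ n * max Λ 0 := mul_le_mul_of_nonneg_right h5 (le_max_right _ _)
    have h9 : -(n * |(v t : ℚ)|) ≤ i * (v t : ℚ) := by
      have h10 : -((i : ℚ) * |(v t : ℚ)|) ≤ i * (v t : ℚ) := by
        rw [← mul_neg]
        exact mul_le_mul_of_nonneg_left (neg_abs_le _) h6
      have h11 : (i : ℚ) * |(v t : ℚ)| ≤ n * |(v t : ℚ)| :=
        mul_le_mul_of_nonneg_right (by linarith) (abs_nonneg _)
      linarith
    push_cast
    nlinarith [h8, h9]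

end Pool.Agent.Helper60.PB
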