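import Pool.Agent.Helper92.Weak.Defs
import Pool.Agent.Helper60.PB.Add
import Pool.Agent.Helper60.PB.KumAlg

set_option autoImplicit false

/-!
# Project PB (MP_2c56d9_ag), genus 1: logarithmic forms on elliptic curves

`L = K(t, y)`, `y ^ 2 = t (t - 1) (t - l)`, `D = d / dt`, and `v` a discrete valuation with
`v (D g) ≥ v g - μ` for all `g`.

`theta_six`: `v (l (1 - l) / y ^ 6) + 6 μ ≥ 0`; `good_of_six`: in the case of equality `μ = 0` and
`t`, `t - 1`, `t - l`, `l`, `1 - l`, `y` are units at `v`.
`kappa_ge`: `v ((T - t) / y ^ 2) + 2 μ ≥ 0` for the abscissa `T` of a translate;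
`integral_of_kappa`: in the case of equality (at a good `v`) the point is integral at `v`.
-/

namespace Pool.Agent.Helper60.PB

open Pool.Agent.Helper92.Weak Polynomial

section

variable {k K L : Type*} [Field k] [Field K] [Field L] [Algebra k L] [Algebra K L]

/-- The Legendre equation of an elliptic curve. -/
structure Leg (t y : L) (l : K) : Prop where
  eq : y ^ 2 = t * (t - 1) * (t - algebraMap K L l)
  l0 : l ≠ 0
  l1 : l ≠ 1
  tr : Transcendental K t

variable {t y : L} {l : K}

namespace Leg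

variable (h : Leg t y l)

include h

theorem sub_ne (a : K) : t - algebraMap K L a ≠ 0 := by
  intro h0
  apply h.tr
  rw [sub_eq_zero.1 h0]
  exact isAlgebraic_algebraMap a

theorem t_ne (a : K) : t ≠ algebraMap K L a := sub_ne_zero.1 (h.sub_ne a)

theorem t0 : t ≠ 0 := by
  have := h.sub_ne 0
  simpa using this

theorem t1 : t - 1 ≠ 0 := by
  have := h.sub_ne 1
  simpa using this

theorem y0 : y ≠ 0 := by
  intro h0
  have h1 := h.eq
  rw [h0, zero_pow two_ne_zero] at h1
  exact mul_ne_zero (mul_ne_zero h.t0 h.t1) (h.sub_ne l) h1.symm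

theorem l0' : algebraMap K L l ≠ 0 := (_root_.map_ne_zero _).2 h.l0

theorem l1' : 1 - algebraMap K L l ≠ 0 := by
  intro h0
  apply h.l1
  have h1 : algebraMap K L (1 - l) = 0 := by rw [map_sub, map_one]; exact h0
  have h2 := (map_eq_zero _).1 h1
  exact (sub_eq_zero.1 h2).symm

/-- `1` and `y` are linearly independent over the polynomials in `t`. -/
theorem indep (F₀ F₁ : K[X]) (hF : aeval t F₀ + aeval t F₁ * y = 0) : F₀ = 0 ∧ F₁ = 0 := by
  have ha : Set.InjOn (fun i : Fin 3 => (![0, 1, l] : Fin 3 → K) i)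
      ((Finset.univ : Finset (Fin 3)) : Set (Fin 3)) := by
    intro i _ j _ hij
    have h01 : (0 : K) ≠ 1 := zero_ne_one
    fin_cases i <;> fin_cases j <;>
      simp_all [h.l0, h.l1, h.l0.symm, h.l1.symm]
  have hy : y ^ 2 = aeval t (C 1 * ∏ i ∈ (Finset.univ : Finset (Fin 3)),
      (X - C ((![0, 1, l] : Fin 3 → K) i)) ^ ((fun _ => 1 : Fin 3 → ℕ) i)) := by
    rw [h.eq, Fin.prod_univ_three]
    simp
  have h1 := kummer_indep (κ := K) (Ω := L) h.tr (N := 2) two_pos Finset.univ
    (fun i : Fin 3 => (![0, 1, l] : Fin 3 → K) i) ha (fun _ => 1) one_ne_zero hy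
    (fun d hd => by simpa using hd 0 (Finset.mem_univ _)) (fun i => if i = 0 then F₀ else F₁)
    (by
      rw [Finset.sum_range_succ, Finset.sum_range_succ, Finset.sum_range_zero]
      simpa using hF)
  exact ⟨by simpa using h1 0 (by omega), by simpa using h1 1 (by omega)⟩

end Leg

section Val

variable {v : DVal k L} {D : Derivation K L L} {μ : ℤ}
  (h : Leg t y l) (ht : D t = 1) (hD : ∀ g : L, v.Ge ((v g - μ : ℤ) : ℚ) (D g))

include hD in
/-- Logarithmic derivatives. -/
theorem dlog_ge {g : L} (hg : g ≠ 0) : v.Ge ((-μ : ℤ) : ℚ) (D g / g) := by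
  rcases hD g with h0 | h0
  · left
    rw [h0, zero_div]
  · by_cases hDg : D g = 0
    · left
      rw [hDg, zero_div]
    right
    rw [v.map_div hDg hg]
    have h1 : v g - μ ≤ v (D g) := by exact_mod_cast h0
    have h2 : -μ ≤ v (D g) - v g := by omega
    exact_mod_cast h2

include ht hD in
theorem v_sub_le (a : K) (ha : t - algebraMap K L a ≠ 0) : v (t - algebraMap K L a) ≤ μ := by
  have h1 := dlog_ge hD ha
  rw [map_sub, ht, D.map_algebraMap, sub_zero, DVal.ge_iff (div_ne_zero one_ne_zero ha),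
    v.map_div one_ne_zero ha, v.map_one] at h1
  have h2 : -μ ≤ 0 - v (t - algebraMap K L a) := by exact_mod_cast h1
  omega

include ht hD in
theorem v_sub_sub_le {a b : K} (hab : a ≠ b) (ha : t - algebraMap K L a ≠ 0)
    (hb : t - algebraMap K L b ≠ 0) :
    v (t - algebraMap K L a) + v (t - algebraMap K L b) ≤ v (algebraMap K L (a - b)) + μ := by
  have h0 : algebraMap K L (a - b) ≠ 0 := (_root_.map_ne_zero _).2 (sub_ne_zero.2 hab)
  have h1 := dlog_ge hD (div_ne_zero ha hb)
  have h2 : D ((t - algebraMap K L a) / (t - algebraMap K L b)) /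
      ((t - algebraMap K L a) / (t - algebraMap K L b)) =
      algebraMap K L (a - b) / ((t - algebraMap K L a) * (t - algebraMap K L b)) := by
    rw [Derivation.leibniz_div, map_sub, map_sub, ht, D.map_algebraMap, D.map_algebraMap, map_sub]
    simp only [smul_eq_mul]
    field_simp
    ring
  rw [h2, DVal.ge_iff (div_ne_zero h0 (mul_ne_zero ha hb)), v.map_div h0 (mul_ne_zero ha hb),
    v.map_mul ha hb] at h1
  have h3 : -μ ≤ v (algebraMap K L (a - b)) -
    (v (t - algebraMap K L a) + v (t - algebraMap K L b)) := by exact_mod_cast h1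
  omega

include h in
theorem two_v_y : 2 * v y = v t + v (t - 1) + v (t - algebraMap K L l) := by
  have h1 := congrArg v h.eq
  rw [v.map_pow, v.map_mul (mul_ne_zero h.t0 h.t1) (h.sub_ne l), v.map_mul h.t0 h.t1] at h1
  exact_mod_cast h1

include h ht hD in
/-- The six inequalities. -/
theorem six_ineq : v t ≤ μ ∧ v (t - 1) ≤ μ ∧ v (t - algebraMap K L l) ≤ μ ∧
    v t + v (t - 1) ≤ μ ∧ v t + v (t - algebraMap K L l) ≤ v (algebraMap K L l) + μ ∧
    v (t - 1) + v (t - algebraMap K L l) ≤ v (1 - algebraMap K L l) + μ := by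
  have h1 := v_sub_le ht hD 0 (h.sub_ne 0)
  have h2 := v_sub_le ht hD 1 (h.sub_ne 1)
  have h3 := v_sub_le ht hD l (h.sub_ne l)
  have h4 := v_sub_sub_le ht hD (zero_ne_one (α := K)) (h.sub_ne 0) (h.sub_ne 1)
  have h5 := v_sub_sub_le ht hD h.l0.symm (h.sub_ne 0) (h.sub_ne l)
  have h6 := v_sub_sub_le ht hD h.l1.symm (h.sub_ne 1) (h.sub_ne l)
  simp only [map_zero, map_one, map_sub, sub_zero, zero_sub, _root_.map_neg, DVal.map_neg,
    DVal.map_one, zero_add] at h1 h2 h3 h4 h5 h6
  exact ⟨h1, h2, h3, h4, h5, h6⟩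

/-- The form `l (1 - l) / y ^ 6` of degree `6`. -/
def six (y : L) (l : K) : L := algebraMap K L l * (1 - algebraMap K L l) / y ^ 6

include h in
theorem six_ne_zero : six y l ≠ 0 := div_ne_zero (mul_ne_zero h.l0' h.l1') (pow_ne_zero _ h.y0)

include h in
theorem v_six : v (six y l) = v (algebraMap K L l) + v (1 - algebraMap K L l) - 6 * v y := by
  unfold six
  rw [v.map_div (mul_ne_zero h.l0' h.l1') (pow_ne_zero _ h.y0), v.map_mul h.l0' h.l1', v.map_pow]
  push_cast
  ring

include h ht hD in
theorem theta_six : 0 ≤ v (six y l) + 6 * μ := by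
  obtain ⟨h1, h2, h3, h4, h5, h6⟩ := six_ineq h ht hD
  have h7 := two_v_y (v := v) h
  rw [v_six h]
  omega

include h ht hD in
theorem good_of_six (hg : v (six y l) + 6 * μ = 0) : μ = 0 ∧ v t = 0 ∧ v (t - 1) = 0 ∧
    v (t - algebraMap K L l) = 0 ∧ v (algebraMap K L l) = 0 ∧ v (1 - algebraMap K L l) = 0 ∧
    v y = 0 := by
  obtain ⟨h1, h2, h3, h4, h5, h6⟩ := six_ineq h ht hD
  have h7 := two_v_y (v := v) h
  rw [v_six h] at hg
  omega

end Val

section Trans

variable {v : DVal k L} {D : Derivation K L L} {μ : ℤ} {b c : K}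
  (h : Leg t y l) (ht : D t = 1) (hD : ∀ g : L, v.Ge ((v g - μ : ℤ) : ℚ) (D g))
  (hc : c ^ 2 = b * (b - 1) * (b - l))

/-- The abscissa of the translate. -/
def TT (t y : L) (l b c : K) : L :=
  trT (algebraMap K L l) t y (algebraMap K L b) (algebraMap K L c)

include h hc in
/-- The abscissa of the translate is not `0` or `1`. -/
theorem TT_ne {a : K} (ha : a * (a - 1) * (a - l) = 0) : TT t y l b c ≠ algebraMap K L a := by
  intro hT
  have hc1 : (algebraMap K L c) ^ 2 = algebraMap K L b * (algebraMap K L b - 1) *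
      (algebraMap K L b - algebraMap K L l) := by
    have h4 := congrArg (algebraMap K L) hc
    simpa using h4
  have h1 := trY_sq h.eq hc1 (h.t_ne b)
  have h2 : TT t y l b c = trT (algebraMap K L l) t y (algebraMap K L b) (algebraMap K L c) := rfl
  rw [← h2, hT] at h1
  have h3 : algebraMap K L a * (algebraMap K L a - 1) * (algebraMap K L a - algebraMap K L l) =
      0 := by
    have h4 := congrArg (algebraMap K L) ha
    simpa using h4
  rw [h3] at h1
  have h4 : trY (algebraMap K L l) t y (algebraMap K L b) (algebraMap K L c) = 0 :=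
    pow_eq_zero_iff two_ne_zero |>.1 h1
  unfold trY at h4
  rw [← h2, hT] at h4
  have h5 : slope t y (algebraMap K L b) (algebraMap K L c) * (t - algebraMap K L b) =
      y + algebraMap K L c := by
    unfold slope
    have := h.sub_ne b
    field_simp
  have h6 : aeval t (C c * (X - C a) : K[X]) + aeval t (C (b - a) : K[X]) * y = 0 := by
    simp only [map_mul, map_sub, aeval_C, aeval_X]
    linear_combination (t - algebraMap K L b) * h4 - (t - algebraMap K L a) * h5
  obtain ⟨h7, h8⟩ := h.indep _ _ h6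
  have h9 : b = a := by
    have := C_eq_zero.1 h8
    exact sub_eq_zero.1 this
  have h10 : c = 0 := by
    rcases mul_eq_zero.1 h7 with h11 | h11
    · exact C_eq_zero.1 h11
    · exact absurd h11 (X_sub_C_ne_zero a)
  subst h9
  rw [h10] at hT
  -- now `f + (1 + l - 2 b - X) (X - b) ^ 2` is zero, its linear coefficient is `f' b`
  have h11 : aeval t (X * (X - 1) * (X - C l) + (1 + C l - 2 * C b - X) * (X - C b) ^ 2 : K[X]) =
      0 := by
    have h12 := h.sub_ne b
    unfold TT trT slope at hT
    simp only [map_zero, add_zero] at hT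
    rw [div_pow, h.eq] at hT
    field_simp at hT
    simp only [map_mul, map_sub, map_add, map_pow, aeval_C, aeval_X, map_one, map_ofNat]
    linear_combination hT
  have h12 : (X * (X - 1) * (X - C l) + (1 + C l - 2 * C b - X) * (X - C b) ^ 2 : K[X]) = 0 := by
    by_contra hne
    exact h.tr ⟨_, hne, h11⟩
  have h13 := congrArg (fun p => eval b (derivative p)) h12
  simp only [derivative_add, derivative_mul, derivative_sub, derivative_X, derivative_one,
    derivative_C, derivative_pow, eval_add, eval_mul, eval_sub, eval_X, eval_one, eval_C, eval_pow,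
    derivative_zero, eval_zero, derivative_ofNat, eval_ofNat] at h13
  have h14 : b * (b - 1) * (b - l) = 0 := by rw [← hc, h10]; ring
  have h15 : 3 * b ^ 2 - 2 * (1 + l) * b + l = 0 := by
    simp at h13
    linear_combination h13
  rcases mul_eq_zero.1 h14 with h16 | h16
  · rcases mul_eq_zero.1 h16 with h17 | h17
    · rw [h17] at h15
      apply h.l0
      linear_combination h15
    · have h18 : b = 1 := sub_eq_zero.1 h17
      rw [h18] at h15
      apply h.l1
      linear_combination -h15
  · have h18 : b = l := sub_eq_zero.1 h16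
    rw [h18] at h15
    have h19 : l * (l - 1) = 0 := by linear_combination h15
    rcases mul_eq_zero.1 h19 with h20 | h20
    · exact h.l0 h20
    · exact h.l1 (sub_eq_zero.1 h20)

/-- The form `(T - t) / y ^ 2` of degree `2`. -/
def kap (t y : L) (l b c : K) : L := (TT t y l b c - t) / y ^ 2

include h ht hD hc in
theorem kappa_ge : v.Ge ((-(2 * μ) : ℤ) : ℚ) (kap t y l b c) := by
  have hT0 : TT t y l b c ≠ 0 := by
    have := TT_ne (a := 0) h hc (by ring)
    simpa using this
  have hT1 : TT t y l b c - 1 ≠ 0 := by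
    have := TT_ne (a := 1) h hc (by ring)
    rw [map_one] at this
    exact sub_ne_zero.2 this
  have h1 := trT_sub_div D ht h.eq h.y0 hc (h.t_ne b) (T := TT t y l b c) rfl hT0 hT1
  have h2 : v.Ge ((-(2 * μ) : ℤ) : ℚ) ((TT t y l b c - algebraMap K L l) / y ^ 2) := by
    rw [h1]
    refine ((dlog_ge hD hT0).mul (dlog_ge hD hT1)).mono ?_
    push_cast
    linarith
  have h3 : v.Ge ((-(2 * μ) : ℤ) : ℚ) ((t - algebraMap K L l) / y ^ 2) := by
    have h4 : (t - algebraMap K L l) / y ^ 2 = (D t / t) * (D (t - 1) / (t - 1)) := by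
      have := h.t0
      have := h.t1
      have := h.sub_ne l
      rw [h.eq, map_sub, ht, Derivation.map_one_eq_zero, sub_zero]
      field_simp
    rw [h4]
    refine ((dlog_ge hD h.t0).mul (dlog_ge hD h.t1)).mono ?_
    push_cast
    linarith
  have h4 : kap t y l b c = (TT t y l b c - algebraMap K L l) / y ^ 2 -
      (t - algebraMap K L l) / y ^ 2 := by
    unfold kap
    ring
  rw [h4]
  exact h2.sub h3

include h ht hD in
/-- A nonzero multiple of `(t - l) / y ^ 2` has level `2`. -/
theorem xi_ge : v.Ge ((-(2 * μ) : ℤ) : ℚ) ((t - algebraMap K L l) / y ^ 2) := by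
  have h4 : (t - algebraMap K L l) / y ^ 2 = (D t / t) * (D (t - 1) / (t - 1)) := by
    have := h.t0
    have := h.t1
    have := h.sub_ne l
    rw [h.eq, map_sub, ht, Derivation.map_one_eq_zero, sub_zero]
    field_simp
  rw [h4]
  refine ((dlog_ge hD h.t0).mul (dlog_ge hD h.t1)).mono ?_
  push_cast
  linarith

end Trans

section Integral

variable {v : DVal k L} {b c : K}

/-- At a good valuation, a point whose translate is not near `t` is integral. -/
theorem integral_of_kappa (h : Leg t y l) (hc : c ^ 2 = b * (b - 1) * (b - l)) (h1 : v t = 0)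
    (h4 : v (algebraMap K L l) = 0) (h6 : v y = 0)
    (hk : ¬ v.Ge 1 (kap t y l b c)) : 0 ≤ v (algebraMap K L b) := by
  by_contra hneg
  push Not at hneg
  apply hk
  set b' := algebraMap K L b with hb'
  set c' := algebraMap K L c with hc'
  set l' := algebraMap K L l with hl'
  have hc1 : c' ^ 2 = b' * (b' - 1) * (b' - l') := by
    have h7 := congrArg (algebraMap K L) hc
    simpa using h7
  have hb0 : b' ≠ 0 := v.ne_zero_of_pos (by omega)
  -- the values of `b - 1` and `b - l`
  have hval : ∀ x : L, (x = 0 ∨ v x = 0) → b' - x ≠ 0 ∧ v (b' - x) = v b' := by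
    intro x hx
    have h8 : -x = 0 ∨ v b' < v (-x) := by
      rcases hx with rfl | hx
      · left; exact neg_zero
      · right; rw [v.map_neg, hx]; exact hneg
    have h9 := v.add_ne_zero_of_lt hb0 h8
    have h10 := v.map_add_eq_of_lt hb0 h8
    rw [← sub_eq_add_neg] at h9 h10
    exact ⟨h9, h10⟩
  obtain ⟨e1, e2⟩ := hval 1 (Or.inr v.map_one)
  obtain ⟨e3, e4⟩ := hval l' (Or.inr h4)
  have e5 : 2 * v c' = 3 * v b' := by
    have h7 := congrArg v hc1
    rw [v.map_pow, v.map_mul (mul_ne_zero hb0 e1) e3, v.map_mul hb0 e1, e2, e4] at h7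
    push_cast at h7
    linarith
  obtain ⟨s, hs⟩ : ∃ s : ℤ, v b' = 2 * s := ⟨v b' / 2, by omega⟩
  have hs' : v c' = 3 * s := by omega
  have hsneg : s < 0 := by omega
  have htb : t - b' ≠ 0 := h.sub_ne b
  have hvtb : v (t - b') = 2 * s := by
    have h8 := hval t (Or.inr h1)
    have h9 : t - b' = -(b' - t) := by ring
    rw [h9, v.map_neg, h8.2, hs]
  have hid := trT_sub_self (l := l') (t := t) (y := y) hc1 (h.t_ne b)
  -- the bound for the right hand side
  have h2L : v.Ge 0 (2 : L) := by
    have h8 := v.ge_self (algebraMap k L 2)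
    rw [v.map_const, map_ofNat] at h8
    simpa using h8
  have h3L : v.Ge 0 (3 : L) := by
    have h8 := v.ge_self (algebraMap k L 3)
    rw [v.map_const, map_ofNat] at h8
    simpa using h8
  have h1L : v.Ge 0 (1 : L) := by
    have h8 := v.ge_self (1 : L)
    rw [v.map_one] at h8
    simpa using h8
  have htL : v.Ge 0 t := by
    have h8 := v.ge_self t
    rw [h1] at h8
    simpa using h8
  have hyL : v.Ge 0 y := by
    have h8 := v.ge_self y
    rw [h6] at h8
    simpa using h8
  have hlL : v.Ge 0 l' := by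
    have h8 := v.ge_self l'
    rw [h4] at h8
    simpa using h8
  have hbL : v.Ge ((2 * s : ℤ) : ℚ) b' := by
    have h8 := v.ge_self b'
    rwa [hs] at h8
  have hcL : v.Ge ((3 * s : ℤ) : ℚ) c' := by
    have h8 := v.ge_self c'
    rwa [hs'] at h8
  have hsQ : (s : ℚ) < 0 := by exact_mod_cast hsneg
  have r1 : v.Ge ((3 * s : ℤ) : ℚ) (2 * y * c') := by
    refine ((h2L.mul hyL).mul hcL).mono ?_
    linarith
  have r2 : v.Ge ((3 * s : ℤ) : ℚ) (b' * (3 * t ^ 2 - 2 * (1 + l') * t + l')) := by
    have h8 : v.Ge 0 (3 * t ^ 2 - 2 * (1 + l') * t + l') := by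
      have a1 : v.Ge 0 (3 * t ^ 2) := by
        rw [pow_two]
        simpa using h3L.mul (htL.mul htL)
      have a2 : v.Ge 0 (2 * (1 + l') * t) := by
        simpa using (h2L.mul (h1L.add hlL)).mul htL
      exact (a1.sub a2).add hlL
    refine (hbL.mul h8).mono ?_
    push_cast
    linarith
  have r3 : v.Ge ((3 * s : ℤ) : ℚ) (y ^ 2) := by
    rw [pow_two]
    refine (hyL.mul hyL).mono ?_
    push_cast
    linarith
  have r4 : v.Ge ((3 * s : ℤ) : ℚ) ((1 + l' - 2 * t) * t ^ 2) := by
    have a2 : v.Ge 0 (2 * t) := by simpa using h2L.mul htL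
    rw [pow_two]
    refine (((h1L.add hlL).sub a2).mul (htL.mul htL)).mono ?_
    push_cast
    linarith
  have r5 := ((r1.add r2).add r3).add r4
  rw [← hid] at r5
  -- divide by the square
  have r6 : v.Ge 1 (trT l' t y b' c' - t) := by
    by_cases hz : trT l' t y b' c' - t = 0
    · exact Or.inl hz
    rw [DVal.ge_iff (mul_ne_zero hz (pow_ne_zero 2 htb)), v.map_mul hz (pow_ne_zero 2 htb),
      v.map_pow, hvtb] at r5
    right
    have h8 : 3 * s ≤ v (trT l' t y b' c' - t) + 2 * (2 * s) := by exact_mod_cast r5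
    have h9 : 1 ≤ v (trT l' t y b' c' - t) := by omega
    exact_mod_cast h9
  have hy2 : v.Ge 0 (y ^ 2)⁻¹ := by
    right
    rw [v.map_inv, v.map_pow, h6]
    simp
  have r7 := r6.mul hy2
  rw [add_zero] at r7
  unfold kap TT
  rw [div_eq_mul_inv]
  exact r7

end Integral

end

end Pool.Agent.Helper60.PB
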