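import Pool.Agent.Helper47.PQ.R2
import Pool.Agent.Helper47.PQ.Charts

set_option autoImplicit false

/-!
# Project PB (MP_2c56d9_ag), module NC1: integral closures of charts in a finite extension

For a subalgebra `A` of `L` (integrally closed, noetherian, with fraction field `L`) and a finite
extension `E` of `L`: its integral closure `icl E A` in `E`.

`locAt_icl_inter`: if `𝔮` is a prime ideal of `icl E A` then an element of `L` which lies in the
local ring of `icl E A` at `𝔮` lies in the local ring of `A` at `𝔮 ∩ A`.
-/

namespace Pool.Agent.Helper60.PB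

open Pool.Agent.Helper92.Weak Pool.Agent.Helper47.PQ

variable {k L : Type*} [Field k] [Field L] [Algebra k L]

section

variable (E : Type*) [Field E] [Algebra k E] [Algebra L E] [IsScalarTower k L E]

/-- The integral closure in `E` of the subalgebra `A` of `L`. -/
def icl (A : Subalgebra k L) : Subalgebra k E := (integralClosure A E).restrictScalars k

variable {E}

theorem mem_icl {A : Subalgebra k L} {z : E} : z ∈ icl E A ↔ IsIntegral A z := Iff.rfl

theorem algebraMap_mem_icl {A : Subalgebra k L} {a : L} (ha : a ∈ A) :
    algebraMap L E a ∈ icl E A := by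
  rw [mem_icl]
  exact isIntegral_algebraMap (R := A) (A := E) (x := ⟨a, ha⟩)

/-- The inclusion of `A` in its integral closure. -/
def toIcl (E : Type*) [Field E] [Algebra k E] [Algebra L E] [IsScalarTower k L E]
    (A : Subalgebra k L) : A →+* icl E A where
  toFun a := ⟨algebraMap L E a, algebraMap_mem_icl a.2⟩
  map_one' := Subtype.ext (map_one _)
  map_mul' _ _ := Subtype.ext (map_mul _ _ _)
  map_zero' := Subtype.ext (map_zero _)
  map_add' _ _ := Subtype.ext (map_add _ _ _)

@[simp] theorem coe_toIcl {A : Subalgebra k L} (a : A) :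
    ((toIcl E A a : icl E A) : E) = algebraMap L E a := rfl

omit [Algebra k E] [IsScalarTower k L E] in
/-- An element which is a root of a monic polynomial over `L` with coefficients in `A`. -/
theorem isIntegral_of_coeff {A : Subalgebra k L} {P : Polynomial L} (hP : P.Monic)
    (hc : ∀ n, P.coeff n ∈ A) {z : E} (hz : Polynomial.aeval z P = 0) : IsIntegral A z := by
  have h1 : P ∈ Polynomial.lifts (algebraMap A L) := by
    rw [Polynomial.lifts_iff_coeff_lifts]
    intro n
    exact ⟨⟨P.coeff n, hc n⟩, rfl⟩
  obtain ⟨Q, hQ, -, hQm⟩ := Polynomial.lifts_and_natDegree_eq_and_monic h1 hP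
  refine ⟨Q, hQm, ?_⟩
  have h2 : Polynomial.eval₂ (algebraMap L E) z P = 0 := hz
  rw [← hQ, Polynomial.eval₂_map] at h2
  exact h2

variable [FiniteDimensional L E]

omit [Algebra k E] [IsScalarTower k L E] [FiniteDimensional L E] in
theorem minpoly_coeff_mem {A : Subalgebra k L} [IsIntegrallyClosed A] (hA : IsFrac A) {z : E}
    (hz : IsIntegral A z) (n : ℕ) : (minpoly L z).coeff n ∈ A := by
  have := hA.isFractionRing
  rw [minpoly.isIntegrallyClosed_eq_field_fractions' L hz, Polynomial.coeff_map]
  exact ((minpoly A z).coeff n).2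

theorem icl_isIntegrallyClosed {A : Subalgebra k L} (hA : IsFrac A) :
    IsIntegrallyClosed (icl E A) := by
  have := hA.isFractionRing
  exact integralClosure.isIntegrallyClosedOfFiniteExtension (R := A) (L := E) L

theorem icl_isFrac {A : Subalgebra k L} (hA : IsFrac A) : IsFrac (icl E A) := by
  have := hA.isFractionRing
  have hCf : IsFractionRing (integralClosure A E) E :=
    integralClosure.isFractionRing_of_finite_extension L E
  intro z
  obtain ⟨a, b, hb, hz⟩ := IsFractionRing.div_surjective (A := integralClosure A E) z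
  refine ⟨a, a.2, b, b.2, ?_, hz.symm⟩
  intro h0
  exact nonZeroDivisors.ne_zero hb (Subtype.ext h0)

/-- The integral closure is a finite module. -/
theorem icl_finite [CharZero k] {A : Subalgebra k L} [IsNoetherianRing A] [IsIntegrallyClosed A]
    (hA : IsFrac A) : ∃ (r : ℕ) (b : Fin r → E), (∀ i, b i ≠ 0) ∧ (∀ i, b i ∈ icl E A) ∧
      ∀ z ∈ icl E A, ∃ a : Fin r → L, (∀ i, a i ∈ A) ∧ z = ∑ i, algebraMap L E (a i) * b i := by
  classical
  have := hA.isFractionRing
  have hcL : CharZero L := charZero_of_injective_algebraMap (algebraMap k L).injective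
  have hfin : Module.Finite A (integralClosure A E) :=
    IsIntegralClosure.finite A L E (integralClosure A E)
  obtain ⟨s, hs⟩ := hfin.fg_top
  set t : Finset (integralClosure A E) := s.erase 0 with ht
  have ht' : Submodule.span A (t : Set (integralClosure A E)) = ⊤ := by
    rw [ht, Finset.coe_erase, Submodule.span_sdiff_singleton_zero, hs]
  set e := t.equivFin.symm with he
  refine ⟨t.card, fun i => ((e i : integralClosure A E) : E), ?_, ?_, ?_⟩
  · intro i h0
    have h1 : (e i : integralClosure A E) = 0 := Subtype.ext h0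
    have h2 := (e i).2
    rw [h1, ht] at h2
    exact Finset.notMem_erase _ _ h2
  · intro i
    exact (e i : integralClosure A E).2
  · intro z hz
    have h1 : (⟨z, hz⟩ : integralClosure A E) ∈ Submodule.span A (t : Set (integralClosure A E)) := by
      rw [ht']; trivial
    rw [Submodule.mem_span_finset'] at h1
    obtain ⟨f, hf⟩ := h1
    refine ⟨fun i => (f (e i) : L), fun i => (f (e i)).2, ?_⟩
    have h2 : z = ∑ x : t, algebraMap L E (f x : L) * ((x : integralClosure A E) : E) := by
      have h3 : ((∑ x : t, f x • (x : integralClosure A E) : integralClosure A E) : E) = z :=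
        congrArg (Subtype.val : integralClosure A E → E) hf
      rw [← h3, AddSubmonoidClass.coe_finsetSum]
      refine Finset.sum_congr rfl fun x _ => ?_
      rw [Subalgebra.coe_smul, Algebra.smul_def]
      rfl
    rw [h2]
    exact (Fintype.sum_equiv e _ _ fun i => rfl).symm

theorem icl_isNoetherian [CharZero k] {A : Subalgebra k L} [IsNoetherianRing A]
    [IsIntegrallyClosed A] (hA : IsFrac A) : IsNoetherianRing (icl E A) := by
  have := hA.isFractionRing
  have hcL : CharZero L := charZero_of_injective_algebraMap (algebraMap k L).injective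
  exact integralClosure.isNoetherianRing (K := L) (A := A) (L := E)

instance comap_toIcl_isPrime {A : Subalgebra k L} (q : Ideal (icl E A)) [q.IsPrime] :
    (q.comap (toIcl E A)).IsPrime := Ideal.comap_isPrime _ _

theorem locAt_icl_inter {A : Subalgebra k L} [IsIntegrallyClosed A] (hA : IsFrac A)
    (q : Ideal (icl E A)) [hq : q.IsPrime] {z : L} (hz : algebraMap L E z ∈ locAt (icl E A) q) :
    z ∈ locAt A (q.comap (toIcl E A)) := by
  classical
  by_cases hz0 : z = 0
  · rw [hz0]; exact Subalgebra.zero_mem _
  obtain ⟨a, b, hb, hab⟩ := hz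
  have hbi : IsIntegral A (b : E) := mem_icl.1 b.2
  have hai : IsIntegral A (z • (b : E)) := by
    rw [Algebra.smul_def, hab]
    exact mem_icl.1 a.2
  set P := minpoly L (b : E) with hP
  have hbL : IsIntegral L (b : E) := Algebra.IsIntegral.isIntegral _
  have h2 : minpoly L (z • (b : E)) = P.scaleRoots z := IsIntegrallyClosed.minpoly_smul hz0 hbL
  have hcb : ∀ n, P.coeff n ∈ A := minpoly_coeff_mem hA hbi
  have hca : ∀ n, P.coeff n * z ^ (P.natDegree - n) ∈ A := by
    intro n
    rw [← Polynomial.coeff_scaleRoots, ← h2]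
    exact minpoly_coeff_mem hA hai n
  have hPm : P.Monic := minpoly.monic hbL
  -- some coefficient is not in the prime ideal
  have hex : ∃ n, n < P.natDegree ∧ (⟨P.coeff n, hcb n⟩ : A) ∉ q.comap (toIcl E A) := by
    by_contra hcon
    push Not at hcon
    apply hb
    apply hq.mem_of_pow_mem P.natDegree
    have h3 : Polynomial.aeval (b : E) P = 0 := minpoly.aeval L _
    rw [Polynomial.aeval_eq_sum_range, Finset.sum_range_succ] at h3
    have h4 : P.coeff P.natDegree = 1 := hPm
    rw [h4, one_smul] at h3
    have h5 : (b : icl E A) ^ P.natDegree =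
        -∑ i ∈ Finset.range P.natDegree, toIcl E A ⟨P.coeff i, hcb i⟩ * b ^ i := by
      apply Subtype.ext
      push_cast
      have h6 : (b : E) ^ P.natDegree = -∑ i ∈ Finset.range P.natDegree, P.coeff i • (b : E) ^ i :=
        eq_neg_of_add_eq_zero_right h3
      rw [h6]
      congr 1
      refine Finset.sum_congr rfl fun i _ => ?_
      rw [Algebra.smul_def]
      rfl
    rw [h5]
    refine q.neg_mem (q.sum_mem fun i hi => q.mul_mem_right _ ?_)
    exact hcon i (Finset.mem_range.1 hi)
  obtain ⟨n, hn, hnq⟩ := hex
  set p := q.comap (toIcl E A) with hp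
  have hzs : z ^ (P.natDegree - n) ∈ locAt A p := by
    refine ⟨⟨P.coeff n * z ^ (P.natDegree - n), hca n⟩, ⟨P.coeff n, hcb n⟩, hnq, ?_⟩
    change z ^ (P.natDegree - n) * P.coeff n = P.coeff n * z ^ (P.natDegree - n)
    ring
  have hic : IsIntegrallyClosed (locAt A p) := isIntegrallyClosed_locAt p
  have hfr : IsFrac (locAt A p) := hA.mono (le_locAt p)
  apply hfr.mem_of_isIntegral
  have h7 : IsIntegral (locAt A p) (z ^ (P.natDegree - n)) :=
    isIntegral_algebraMap (R := locAt A p) (A := L) (x := ⟨_, hzs⟩)
  exact IsIntegral.of_pow (by omega) h7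

end

end Pool.Agent.Helper60.PB
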