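import Pool.Agent.Helper60.PB.BaseDefs
import Pool.Agent.Helper60.PB.BigBase
import Pool.Agent.Helper63.PB.Stable

set_option autoImplicit false
set_option linter.unusedSectionVars false

/-!
# PB-46 Mds: varieties with finitely generated section rings

`kod_eq_nu_of_fg`: if for all integral divisors `D ≥ 0` and `A` the ring `⊕ H⁰(Z, a D + b A')` is
finitely generated for some `A' ≥ A` (this holds for Mori dream spaces and for abelian varieties)
then `κ(D) = ν(D)` for every `ℚ`-divisor `D` with `κ(D) ≥ 0`.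

PROOF. We may assume that `D` is effective. The generators of degree `1` in `A'` span
`⊕ H⁰(m D + A')` over the ring `⊕ H⁰(m D)`. So `dim H⁰(m D + A') ≤ ∑ dim H⁰((m - m_i) D)`, a finite
sum.
-/

namespace Pool.Agent.Helper60.PB

open Pool.Agent.Helper92.Weak Pool.Agent.Helper47.PQ Pool.Agent.Helper63.PB

section Def

variable {k K : Type*} [Field k] [Field K] [Algebra k K] {Z : ProjVar k K}

theorem mul_mem_H0 {D D' : Z.Div} {f g : K} (hf : f ∈ Z.H0 D) (hg : g ∈ Z.H0 D') :
    f * g ∈ Z.H0 (D + D') := by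
  rw [MA.mem_H0] at hf hg ⊢
  intro P
  refine ((hf P).mul (hg P)).mono ?_
  rw [Finsupp.add_apply]
  linarith

theorem one_mem_H0 : (1 : K) ∈ Z.H0 (0 : Z.Div) := by
  rw [MA.mem_H0]
  intro P
  right
  rw [P.1.map_one, Finsupp.zero_apply]
  simp

theorem pow_mem_H0 {D A : Z.Div} {a b : ℕ} {f : K} (hf : f ∈ Z.H0 ((a : ℚ) • D + (b : ℚ) • A))
    (m : ℕ) : f ^ m ∈ Z.H0 (((m * a : ℕ) : ℚ) • D + ((m * b : ℕ) : ℚ) • A) := by
  induction m with
  | zero =>
    rw [pow_zero, Nat.zero_mul, Nat.zero_mul, Nat.cast_zero, zero_smul, zero_smul, add_zero]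
    exact one_mem_H0
  | succ m ih =>
    have h1 := mul_mem_H0 ih hf
    have h2 : (((m + 1) * a : ℕ) : ℚ) • D + (((m + 1) * b : ℕ) : ℚ) • A =
        (((m * a : ℕ) : ℚ) • D + ((m * b : ℕ) : ℚ) • A + ((a : ℚ) • D + (b : ℚ) • A) : Z.Div) := by
      push_cast
      module
    rw [pow_succ, h2]
    exact h1

end Def

section Span

variable {k K : Type*} [Field k] [Field K] [Algebra k K] {Z : ProjVar k K}

/-- The products of finitely many sections with sections of multiples of `D`. -/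
private noncomputable def U (D : Z.Div) (S : Finset (ℕ × K)) (m : ℕ) : Submodule k K :=
  ⨆ s ∈ S.filter (fun s => s.1 ≤ m),
    (Z.H0 (((m - s.1 : ℕ) : ℚ) • D)).map (LinearMap.mulLeft k s.2)

private theorem mul_mem_U {D : Z.Div} {S : Finset (ℕ × K)} {m m' : ℕ} {c g : K}
    (hc : c ∈ U D S m) (hg : g ∈ Z.H0 ((m' : ℚ) • D)) : c * g ∈ U D S (m + m') := by
  have h1 : U D S m ≤ (U D S (m + m')).comap (LinearMap.mulRight k g) := by
    unfold U
    refine iSup₂_le fun s hs => ?_
    rintro _ ⟨f, hf, rfl⟩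
    rw [Submodule.mem_comap]
    have h2 : s ∈ S.filter (fun s => s.1 ≤ m + m') := by
      rw [Finset.mem_filter] at hs ⊢
      exact ⟨hs.1, hs.2.trans (Nat.le_add_right _ _)⟩
    refine Submodule.mem_iSup_of_mem s (Submodule.mem_iSup_of_mem h2 ⟨f * g, ?_, ?_⟩)
    · have h3 := mul_mem_H0 hf hg
      have h4 : (((m + m' - s.1 : ℕ) : ℚ) • D : Z.Div) =
          ((m - s.1 : ℕ) : ℚ) • D + (m' : ℚ) • D := by
        rw [← add_smul, Nat.sub_add_comm (Finset.mem_filter.1 hs).2]
        push_cast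
        rfl
      rw [h4]
      exact h3
    · change s.2 * (f * g) = s.2 * f * g
      ring
  exact h1 hc

private theorem prod_mem {D A : Z.Div} {S T : Finset (ℕ × ℕ × K)} (hT : T ⊆ S)
    (hS : ∀ s ∈ S, s.2.2 ∈ Z.H0 ((s.1 : ℚ) • D + (s.2.1 : ℚ) • A)) {S' : Finset (ℕ × K)}
    (hS' : ∀ s ∈ S, s.2.1 = 1 → (s.1, s.2.2) ∈ S') (m : ℕ × ℕ × K → ℕ) :
    (∑ s ∈ T, m s * s.2.1 = 0 →
      ∏ s ∈ T, s.2.2 ^ m s ∈ Z.H0 (((∑ s ∈ T, m s * s.1 : ℕ) : ℚ) • D)) ∧
    (∑ s ∈ T, m s * s.2.1 = 1 → ∏ s ∈ T, s.2.2 ^ m s ∈ U D S' (∑ s ∈ T, m s * s.1)) := by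
  classical
  induction T using Finset.induction_on with
  | empty =>
    constructor
    · intro _
      rw [Finset.prod_empty, Finset.sum_empty, Nat.cast_zero, zero_smul]
      exact one_mem_H0
    · intro h
      rw [Finset.sum_empty] at h
      omega
  | insert s T hs ih =>
    obtain ⟨h0, h1⟩ := ih ((Finset.subset_insert _ _).trans hT)
    have hsS : s ∈ S := hT (Finset.mem_insert_self _ _)
    have h2 := pow_mem_H0 (hS s hsS) (m s)
    rw [Finset.prod_insert hs, Finset.sum_insert hs, Finset.sum_insert hs]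
    constructor
    · intro h
      have h3 : m s * s.2.1 = 0 := by omega
      rw [h3, Nat.cast_zero, zero_smul, add_zero] at h2
      have h4 := mul_mem_H0 h2 (h0 (by omega))
      rw [← add_smul, ← Nat.cast_add] at h4
      exact h4
    · intro h
      rcases Nat.eq_zero_or_pos (m s * s.2.1) with h3 | h3
      · rw [h3, Nat.cast_zero, zero_smul, add_zero] at h2
        have h4 := mul_mem_U (h1 (by omega)) h2
        rw [mul_comm (∏ s ∈ T, s.2.2 ^ m s), Nat.add_comm] at h4
        exact h4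
      · have h4 : m s * s.2.1 = 1 := by omega
        have h5 : m s = 1 := Nat.eq_one_of_mul_eq_one_right h4
        have h6 : s.2.1 = 1 := Nat.eq_one_of_mul_eq_one_left h4
        have h7 := h0 (by omega)
        have h8 := hS' s hsS h6
        rw [h5, pow_one, one_mul]
        unfold U
        refine Submodule.mem_iSup_of_mem (s.1, s.2.2) (Submodule.mem_iSup_of_mem
          (Finset.mem_filter.2 ⟨h8, Nat.le_add_right _ _⟩) ⟨_, ?_, rfl⟩)
        rw [Nat.add_sub_cancel_left]
        exact h7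

private theorem exists_U {D A₀ : Z.Div} (hD : Z.IsInt D) (hA : Z.IsInt A₀) (hpos : ∀ P, 0 ≤ D P)
    (h : HasFGSections Z) : ∃ A : Z.Div, (∀ P, A₀ P ≤ A P) ∧
      ∃ S : Finset (ℕ × K), ∀ m : ℕ, Z.H0 ((m : ℚ) • D + A) ≤ U D S m := by
  classical
  obtain ⟨A, hAA, S, hS, hgen⟩ := h D A₀ hD hA hpos
  set S' : Finset (ℕ × K) := (S.filter fun s => s.2.1 = 1).image fun s => (s.1, s.2.2) with hS'
  refine ⟨A, hAA, S', fun m f hf => ?_⟩
  have h1 := hgen m 1
  rw [Nat.cast_one, one_smul] at h1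
  refine (Submodule.span_le.2 ?_) (h1 hf)
  rintro _ ⟨e, he1, he2, rfl⟩
  have h2 := (prod_mem (S' := S') (subset_refl S) hS (fun s hs h3 => by
    rw [hS', Finset.mem_image]
    exact ⟨s, Finset.mem_filter.2 ⟨hs, h3⟩, rfl⟩) e).2 he2
  rw [he1] at h2
  exact h2

theorem sdim_sup_le {V : Type*} [AddCommGroup V] [Module k V] (A B : Submodule k V) :
    sdim (A ⊔ B) ≤ sdim A + sdim B := by
  unfold sdim
  rw [← map_add]
  exact OrderHomClass.mono Cardinal.toENat (Submodule.rank_add_le_rank_add_rank A B)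

theorem sdim_biSup_le {V ι : Type*} [AddCommGroup V] [Module k V] (S : Finset ι)
    (A : ι → Submodule k V) : sdim (⨆ s ∈ S, A s) ≤ ∑ s ∈ S, sdim (A s) := by
  classical
  induction S using Finset.induction_on with
  | empty => simp
  | insert s S hs ih =>
    rw [Finset.iSup_insert, Finset.sum_insert hs]
    exact (sdim_sup_le _ _).trans (by gcongr)

theorem sdim_map_le {V W : Type*} [AddCommGroup V] [Module k V] [AddCommGroup W] [Module k W]
    (φ : V →ₗ[k] W) (A : Submodule k V) : sdim (A.map φ) ≤ sdim A := by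
  have h := lift_rank_map_le φ A
  have h2 := OrderHomClass.mono Cardinal.toENat h
  rwa [Cardinal.toENat_lift, Cardinal.toENat_lift] at h2

end Span

section Final

variable {k K : Type*} [Field k] [IsAlgClosed k] [Field K] [Algebra k K] {Z : ProjVar k K}

/-- A divisor with `κ ≥ 0` has a multiple which is linearly equivalent to an effective integral
divisor with the same `κ` and `ν`. -/
theorem exists_effective {D : Z.Div} (hD : Z.kod D ≠ ⊥) : ∃ E : Z.Div, Z.IsInt E ∧
    (∀ P, 0 ≤ E P) ∧ Z.kod E = Z.kod D ∧ Z.nu E = Z.nu D := by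
  classical
  obtain ⟨m, hm, f, hf, hfD⟩ : ∃ m : ℕ, 1 ≤ m ∧ ∃ f : K, f ≠ 0 ∧ f ∈ Z.H0 ((m : ℚ) • D) := by
    by_contra hcon
    push Not at hcon
    apply hD
    rcases regular D with ⟨-, h1⟩ | ⟨d, C, m₀, hd, hm₀, hi, hl, -⟩
    · exact h1
    · exfalso
      have h3 := hl 1 le_rfl
      have h4 : Z.H0 (((1 * m₀ : ℕ) : ℚ) • D) = ⊥ := by
        rw [eq_bot_iff]
        intro f hf
        by_contra hf0
        exact hcon (1 * m₀) (by omega) f hf0 hf
      have h5 := Z.h0_le (((1 * m₀ : ℕ) : ℚ) • D)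
      rw [h4, sdim_bot] at h5
      rw [le_antisymm h5 zero_le, mul_zero] at h3
      simp at h3
  set D₀ : Z.Div := (m : ℚ) • D + Z.prin f with hD₀
  have hpos : ∀ Q, 0 ≤ D₀ Q := by
    intro Q
    have h1 := (MA.mem_H0.1 hfD) Q
    rw [DVal.ge_iff hf] at h1
    rw [hD₀, Finsupp.add_apply, ProjVar.prin_apply]
    linarith
  obtain ⟨N, hN, hND⟩ := exists_int_mult D₀
  refine ⟨(N : ℚ) • D₀, hND, fun P => ?_, ?_, ?_⟩
  · rw [Finsupp.smul_apply, smul_eq_mul]
    exact mul_nonneg (Nat.cast_nonneg _) (hpos P)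
  · rw [kod_smul D₀ hN, hD₀, Z.kod_add_prin _ hf, kod_smul D hm]
  · rw [nu_smul D₀ hN, hD₀, Z.nu_add_prin _ hf, nu_smul D hm]

/-- If the section rings are finitely generated then `κ(D) = ν(D)` for every `ℚ`-divisor with
`κ(D) ≥ 0`. -/
theorem kod_eq_nu_of_fg (h : HasFGSections Z) {D : Z.Div} (hD : Z.kod D ≠ ⊥) :
    Z.kod D = Z.nu D := by
  classical
  refine le_antisymm (kod_le_nu D) ?_
  obtain ⟨E, hND, hpos, hk, hn⟩ := exists_effective hD
  rw [← hk, ← hn]
  rw [nu_eq_sup]
  refine iSup_le fun A₀ => ?_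
  obtain ⟨A₁, hA₁, hdom⟩ := exists_dom E A₀ 0
  obtain ⟨A, hAA, S, hS⟩ := exists_U hND hA₁ hpos h
  obtain ⟨M, hM⟩ : ∃ M : ℕ, ∀ s ∈ S, s.1 ≤ M :=
    ⟨∑ s ∈ S, s.1, fun s hs => Finset.single_le_sum (fun _ _ => Nat.zero_le _) hs⟩
  have hle : ∀ m : ℕ, sdim (Z.H0 ((m : ℚ) • E + A₀)) ≤
      ∑ s ∈ S.filter (fun s => s.1 ≤ m), sdim (Z.H0 (((m - s.1 : ℕ) : ℚ) • E)) := by
    intro m
    have h1 : Z.H0 ((m : ℚ) • E + A₀) ≤ Z.H0 ((m : ℚ) • E + A) := by
      refine H0_mono fun P => ?_
      have h2 := hdom P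
      have h3 := hAA P
      rw [Finsupp.add_apply, Finsupp.add_apply]
      push_cast at h2
      linarith
    refine (sdim_mono (h1.trans (hS m))).trans ((sdim_biSup_le _ _).trans ?_)
    exact Finset.sum_le_sum fun s _ => sdim_map_le _ _
  rcases regular E with ⟨h1, h2⟩ | ⟨d, C, m₀, hd, -, -, -, hu⟩
  · rw [h2, le_bot_iff]
    refine logGrowth_eq_bot ?_
    filter_upwards [Filter.eventually_gt_atTop M] with m hm
    refine le_antisymm ((hle m).trans ?_) zero_le
    refine (Finset.sum_eq_zero fun s hs => ?_).le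
    have h4 := hM s (Finset.mem_filter.1 hs).1
    rw [h1 (m - s.1) (by omega), sdim_bot]
  · rw [hd]
    have h3 := logGrowth_le (s := d) (C := S.card * C) (a := 1) (c := 0) (φ := id)
      Filter.tendsto_id (by intro m; simp) (h1 := fun m => sdim (Z.H0 ((m : ℚ) • E + A₀)))
      (h2 := fun _ => 1) (by
        filter_upwards [Filter.eventually_gt_atTop M] with m hm
        rw [mul_one]
        refine (hle m).trans ?_
        refine (Finset.sum_le_sum (g := fun _ => (C : ℕ∞) * (m : ℕ∞) ^ d) fun s hs => ?_).trans ?_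
        · have h4 := hM s (Finset.mem_filter.1 hs).1
          refine (hu (m - s.1) (by omega)).trans ?_
          gcongr
          omega
        · rw [Finset.sum_const, nsmul_eq_mul]
          push_cast
          rw [mul_assoc]
          gcongr
          exact Finset.filter_subset _ _)
    have h4 : logGrowth (fun _ => (1 : ℕ∞)) = 0 := by
      unfold logGrowth
      simp
    rwa [h4, add_zero] at h3

/-- Divisors with `κ ≥ 0` on varieties with finitely generated section rings are stable. -/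
theorem isStable_fg (h : HasFGSections Z) {D : Z.Div} (hD : Z.kod D ≠ ⊥) : IsStable Z D := by
  refine ⟨hD, fun B hB => kod_eq_nu_of_fg h fun h1 => hD ?_⟩
  have h2 : Z.kod D ≤ Z.kod (D + B) := by
    refine Pool.Agent.Helper60.PB.kod_mono fun P => ?_
    rw [Finsupp.add_apply]
    linarith [hB P]
  rw [h1, le_bot_iff] at h2
  exact h2

end Final

end Pool.Agent.Helper60.PB
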