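import Pool.Agent.Helper60.PB.NuZeroDefs
import Pool.Agent.Helper63.PB.StableDefs
import Pool.Agent.Helper63.PB.Trdeg
import Pool.Agent.Helper60.PB.BigBase
import Pool.Agent.Helper92.HA.MkDFrame
import Pool.Agent.Helper92.HA.Wronsk

set_option autoImplicit false

/-!
# Fibrations whose general fibre has numerical dimension zero
-/

namespace Pool.Agent.Helper60.PB

open Pool.Agent.Helper92.Weak Pool.Agent.Helper92.HA Pool.Agent.Helper47.PQ Module
open Pool.Agent.Helper50.Forms
open scoped KaehlerDifferential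

/-- The common constants of the partial derivatives are algebraic. -/
theorem alg_of_der {K L : Type*} [Field K] [CharZero K] [Field L] [Algebra K L] {d : ℕ}
    {s : Fin d → L} (hs : IsTranscendenceBasis K s) {D : Fin d → Derivation K L L}
    (hD : ∀ i j, D i (s j) = if i = j then 1 else 0) {x : L} (hx : ∀ i, D i x = 0) :
    IsAlgebraic K x := by
  classical
  by_contra hcon
  have hx1 : AlgebraicIndepOn K id ({x} : Set L) := by
    unfold AlgebraicIndepOn
    rw [algebraicIndependent_unique_type_iff]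
    exact hcon
  obtain ⟨t, hxt, ht⟩ := exists_isTranscendenceBasis_superset hx1
  obtain ⟨b, hb⟩ := exists_kaehler_basis_aux ht
  have h1 : KaehlerDifferential.D K L x ≠ 0 := by
    have h := b.ne_zero ⟨x, hxt rfl⟩
    rwa [hb] at h
  obtain ⟨b', hb'⟩ := exists_kaehler_basis hs
  apply h1
  have h2 : ∀ i, D i = (b'.coord i).compDer (KaehlerDifferential.D K L) := by
    intro i
    apply der_unique hs
    intro j
    rw [hD]
    change _ = b'.repr (KaehlerDifferential.D K L (s j)) i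
    rw [← hb', b'.repr_self, Finsupp.single_apply]
    by_cases hij : i = j
    · rw [if_pos hij, if_pos hij.symm]
    · rw [if_neg hij, if_neg fun h => hij h.symm]
  apply b'.ext_elem
  intro i
  have h3 := hx i
  rw [h2 i] at h3
  rw [map_zero]
  exact h3

/-- The partial derivatives lose a bounded amount. -/
theorem der_star {k L K : Type*} [Field k] [Field L] [Field K] [Algebra k L] [Algebra K L]
    {d : ℕ} {s : Fin d → L} {D : Fin d → Derivation K L L}
    (hD : ∀ i j, D i (s j) = if i = j then 1 else 0) (hs0 : ∀ j, s j ≠ 0) {v : DVal k L} {c : ℚ}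
    (h : ∀ g : Fin d → L, (∀ j, g j ≠ 0) →
      v.Ge (∑ j, (v (g j) : ℚ) - c) (Matrix.of fun i j => D i (g j)).det) (i : Fin d) {C : ℚ}
    (hC : c + ∑ j, |(v (s j) : ℚ)| ≤ C) (m : ℚ) (g : L) (hg : v.Ge m g) : v.Ge (m - C) (D i g) := by
  classical
  rcases hg with hg | hg
  · left
    rw [hg, map_zero]
  by_cases hg0 : g = 0
  · left
    rw [hg0, map_zero]
  have h1 := h (Function.update s i g) fun j => by
    by_cases hj : j = i
    · subst hj
      rwa [Function.update_self]
    · rw [Function.update_of_ne hj]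
      exact hs0 j
  have h2 : (Matrix.of fun l j => D l (Function.update s i g j)) =
      (1 : Matrix (Fin d) (Fin d) L).updateCol i fun l => D l g := by
    ext l j
    rw [Matrix.of_apply, Matrix.updateCol_apply]
    by_cases hj : j = i
    · subst hj
      rw [if_pos rfl, Function.update_self]
    · rw [if_neg hj, Function.update_of_ne hj, hD, Matrix.one_apply]
  rw [h2, ← Matrix.cramer_apply, Matrix.cramer_one, Module.End.one_apply] at h1
  refine h1.mono ?_
  have h3 : -∑ j, |(v (s j) : ℚ)| + m ≤ ∑ j, (v (Function.update s i g j) : ℚ) := by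
    rw [← Finset.add_sum_erase _ _ (Finset.mem_univ i),
      ← Finset.add_sum_erase _ (fun j => (v (Function.update s i g j) : ℚ)) (Finset.mem_univ i)]
    rw [Function.update_self]
    have h4 : -∑ j ∈ Finset.univ.erase i, |(v (s j) : ℚ)| ≤
        ∑ j ∈ Finset.univ.erase i, (v (Function.update s i g j) : ℚ) := by
      rw [← Finset.sum_neg_distrib]
      refine Finset.sum_le_sum fun j hj => ?_
      rw [Function.update_of_ne (Finset.ne_of_mem_erase hj)]
      exact neg_abs_le _
    have h5 := abs_nonneg (v (s i) : ℚ)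
    linarith
  linarith

section

variable {k K L : Type*} [Field k] [Field K] [Field L] [Algebra k K] [Algebra k L] [Algebra K L]
  {X : ProjVar k L} {Z : ProjVar k K}

omit [Algebra k K] in
theorem mem_genH0 {D : X.Div} {f : L} : f ∈ X.genH0 K D ↔
    ∀ P : X.primeDivisors, (∀ a : K, P.1 (algebraMap K L a) = 0) → P.1.Ge (-(D P)) f := by
  unfold ProjVar.genH0 sec
  rw [Submodule.mem_iInf]
  constructor
  · intro h P hP
    exact h ⟨P, hP⟩
  · intro h P
    exact h P.1 P.2

omit [Algebra k K] in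
theorem genH0_mono {D D' : X.Div}
    (h : ∀ P : X.primeDivisors, (∀ a : K, P.1 (algebraMap K L a) = 0) → D P ≤ D' P) :
    X.genH0 K D ≤ X.genH0 K D' := by
  intro f hf
  rw [mem_genH0] at hf ⊢
  intro P hP
  exact (hf P hP).mono (neg_le_neg (h P hP))

omit [Algebra k K] in
/-- Boundedness without the integrality condition. -/
theorem bdd_sdim {D : X.Div}
    (h : ∀ A : X.Div, ∃ C : ℕ, ∀ m : ℕ, X.genh0 K ((m : ℚ) • D + A) ≤ C) (A : X.Div) :
    ∃ C : ℕ, ∀ m : ℕ, sdim (X.genH0 K ((m : ℚ) • D + A)) ≤ C := by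
  obtain ⟨N, hN, hND⟩ := exists_int_mult D
  obtain ⟨A₁, hA₁, hdom⟩ := exists_dom D A N
  obtain ⟨C, hC⟩ := h A₁
  refine ⟨C, fun m => ?_⟩
  refine (sdim_mono (genH0_mono (D' := ((N * (m / N + 1) : ℕ) : ℚ) • D + A₁)
    fun P _ => round_le hN hdom m P)).trans ?_
  refine le_trans (le_of_eq ?_) (hC (N * (m / N + 1)))
  unfold ProjVar.genh0
  rw [if_pos]
  intro P
  obtain ⟨z, hz⟩ := hND P.1
  obtain ⟨w, hw⟩ := hA₁ P.1
  generalize m / N = j
  refine ⟨((j + 1 : ℕ) : ℤ) * z + w, ?_⟩
  rw [Finsupp.smul_apply, smul_eq_mul] at hz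
  rw [Finsupp.add_apply, Finsupp.smul_apply, smul_eq_mul, hw]
  push_cast
  rw [← hz]
  ring

/-- The absolute values of a principal divisor. -/
noncomputable def absPrin (X : ProjVar k L) (f : L) : X.Div :=
  (X.prin f).mapRange (fun q : ℚ => |q|) abs_zero

theorem absPrin_apply (f : L) (P : X.primeDivisors) : absPrin X f P = |(P.1 f : ℚ)| := by
  unfold absPrin
  rw [Finsupp.mapRange_apply, ProjVar.prin_apply]

/-- A divisor which is larger than the pull back. -/
theorem exists_pull_ge [IsScalarTower k K L] (X : ProjVar k L) (A : Z.Div) :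
    ∃ A' : X.Div, (∀ P, 0 ≤ A' P) ∧
      ∀ (P : X.primeDivisors) (Q : Z.primeDivisors) (e : ℕ), LiesOver P.1 Q.1 e →
        e * A Q ≤ A' P := by
  classical
  choose p hp0 hp using fun Q : Z.primeDivisors => Q.1.exists_uniformizer
  refine ⟨∑ Q ∈ A.support, |A Q| • absPrin X (algebraMap K L (p Q)), fun P => ?_, ?_⟩
  · rw [Finsupp.finsetSum_apply]
    refine Finset.sum_nonneg fun Q _ => ?_
    rw [Finsupp.smul_apply, absPrin_apply, smul_eq_mul]
    positivity
  · intro P Q e h
    rw [Finsupp.finsetSum_apply]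
    by_cases hQ : Q ∈ A.support
    · refine le_trans ?_ (Finset.single_le_sum (f := fun Q =>
        (|A Q| • absPrin X (algebraMap K L (p Q))) P) (fun Q _ => ?_) hQ)
      · change _ ≤ (|A Q| • absPrin X (algebraMap K L (p Q))) P
        rw [Finsupp.smul_apply, absPrin_apply, smul_eq_mul, h.2, hp, mul_one]
        have h1 : |(((e : ℤ)) : ℚ)| = e := by
          rw [Int.cast_natCast]
          exact abs_of_nonneg (Nat.cast_nonneg _)
        rw [h1, mul_comm]
        exact mul_le_mul_of_nonneg_right (le_abs_self _) (Nat.cast_nonneg _)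
      · change 0 ≤ (|A Q| • absPrin X (algebraMap K L (p Q))) P
        rw [Finsupp.smul_apply, absPrin_apply, smul_eq_mul]
        positivity
    · rw [Finsupp.notMem_support_iff] at hQ
      rw [hQ, mul_zero]
      refine Finset.sum_nonneg fun Q _ => ?_
      rw [Finsupp.smul_apply, absPrin_apply, smul_eq_mul]
      positivity

/-- The fibrewise smallest divisor. -/
theorem exists_min (D : X.Div) (hsurj : ∀ Q ∈ Z.primeDivisors, ∃ P ∈ X.primeDivisors, ∃ e,
    LiesOver P Q e) : ∃ (E : Z.Div) (S : Z.primeDivisors → X.primeDivisors)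
      (ε : Z.primeDivisors → ℕ), Function.Injective S ∧
      (∀ Q, LiesOver (S Q).1 Q.1 (ε Q)) ∧ (∀ Q, ε Q * E Q = D (S Q)) ∧
      ∀ (P : X.primeDivisors) (Q : Z.primeDivisors) (e : ℕ), LiesOver P.1 Q.1 e →
        e * E Q ≤ D P := by
  classical
  choose p hp0 hp using fun Q : Z.primeDivisors => Q.1.exists_uniformizer
  have key : ∀ Q : Z.primeDivisors, ∃ (P : X.primeDivisors) (e : ℕ), LiesOver P.1 Q.1 e ∧
      ∀ (P' : X.primeDivisors) (e' : ℕ), LiesOver P'.1 Q.1 e' → D P / e ≤ D P' / e' := by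
    intro Q
    have hfin : {P : X.primeDivisors | ∃ e, LiesOver P.1 Q.1 e}.Finite := by
      refine (X.finite_prin (algebraMap K L (p Q))).subset ?_
      rintro P ⟨e, he⟩
      change (P.1 (algebraMap K L (p Q)) : ℚ) ≠ 0
      rw [he.2, hp, mul_one]
      have := he.1
      exact_mod_cast (by omega : (e : ℤ) ≠ 0)
    have hne : {P : X.primeDivisors | ∃ e, LiesOver P.1 Q.1 e}.Nonempty := by
      obtain ⟨P, hP, e, he⟩ := hsurj Q.1 Q.2
      exact ⟨⟨P, hP⟩, e, he⟩
    obtain ⟨P, ⟨e, he⟩, hmin⟩ := Set.exists_min_image _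
      (fun P : X.primeDivisors => D P / (P.1 (algebraMap K L (p Q)) : ℚ)) hfin hne
    refine ⟨P, e, he, fun P' e' he' => ?_⟩
    have h1 := hmin P' ⟨e', he'⟩
    change D P / (P.1 (algebraMap K L (p Q)) : ℚ) ≤
      D P' / (P'.1 (algebraMap K L (p Q)) : ℚ) at h1
    rw [he.2, he'.2, hp, mul_one, mul_one, Int.cast_natCast, Int.cast_natCast] at h1
    exact h1
  choose S ε hS hmin using key
  have hinj : Function.Injective S := by
    intro Q Q' h
    have h1 := hS Q
    have h2 := hS Q'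
    rw [← h] at h2
    have h3 : (0 : ℤ) < ε Q := by exact_mod_cast h1.1
    have h4 : (0 : ℤ) < ε Q' := by exact_mod_cast h2.1
    have h5 : ∀ a, (ε Q : ℤ) * Q.1 a = ε Q' * Q'.1 a := fun a => by rw [← h1.2, ← h2.2]
    have h6 := h5 (p Q)
    have h7 := h5 (p Q')
    rw [hp] at h6 h7
    have h8 : (ε Q : ℤ) = ε Q' := by
      rw [mul_one] at h6 h7
      have h9 : (1 : ℤ) ≤ Q'.1 (p Q) := by
        by_contra hcon
        push Not at hcon
        nlinarith
      have h10 : (1 : ℤ) ≤ Q.1 (p Q') := by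
        by_contra hcon
        push Not at hcon
        nlinarith
      nlinarith
    refine Subtype.ext (DVal.ext fun a => ?_)
    have h9 := h5 a
    rw [h8] at h9
    exact mul_left_cancel₀ h4.ne' h9
  let E : Z.Div := Finsupp.onFinset (D.support.preimage S hinj.injOn)
    (fun Q => D (S Q) / ε Q) fun Q hQ => by
      rw [Finset.mem_preimage, Finsupp.mem_support_iff]
      intro h
      apply hQ
      rw [h, zero_div]
  have hE : ∀ Q, E Q = D (S Q) / ε Q := fun _ => rfl
  refine ⟨E, S, ε, hinj, hS, fun Q => ?_, fun P Q e h => ?_⟩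
  · have h1 : (ε Q : ℚ) ≠ 0 := by exact_mod_cast (hS Q).1.ne'
    rw [hE]
    field_simp
  · have h1 : (0 : ℚ) < e := by exact_mod_cast h.1
    have h2 := hmin Q P e h
    rw [hE]
    rw [le_div_iff₀ h1] at h2
    linarith

omit [Algebra k K] in
/-- The sections of `m D` come from the base. -/
theorem mem_range_of_bdd (hconn : ∀ x : L, IsAlgebraic K x → x ∈ Set.range (algebraMap K L))
    {D : X.Div} (hhor : ∀ P : X.primeDivisors, (∀ a : K, P.1 (algebraMap K L a) = 0) → 0 ≤ D P)
    (hb : ∃ C : ℕ, ∀ m : ℕ, sdim (X.genH0 K ((m : ℚ) • D)) ≤ C) {m : ℕ} {f : L}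
    (hf : f ∈ X.genH0 K ((m : ℚ) • D)) : f ∈ Set.range (algebraMap K L) := by
  classical
  by_contra hcon
  have htr : Transcendental K f := fun h => hcon (hconn f h)
  obtain ⟨C, hC⟩ := hb
  have hli : LinearIndependent K fun i : Fin (C + 1) => f ^ (i : ℕ) :=
    pow_li (transcendental_iff_injective.1 htr) _
  have hmem : ∀ i : Fin (C + 1), f ^ (i : ℕ) ∈ X.genH0 K (((C * m : ℕ) : ℚ) • D) := by
    intro i
    rw [mem_genH0] at hf ⊢
    intro P hP
    have h1 := hf P hP
    have h2 : ∀ j : ℕ, P.1.Ge (-(j * (m * D P))) (f ^ j) := by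
      intro j
      induction j with
      | zero =>
        right
        rw [pow_zero, P.1.map_one]
        simp
      | succ j ih =>
        rw [pow_succ]
        refine (ih.mul h1).mono ?_
        rw [Finsupp.smul_apply, smul_eq_mul]
        push_cast
        linarith
    refine (h2 i).mono ?_
    rw [Finsupp.smul_apply, smul_eq_mul]
    have h3 : ((i : ℕ) : ℚ) ≤ C := by
      have := i.2
      exact_mod_cast (by omega : (i : ℕ) ≤ C)
    have h4 : 0 ≤ (m : ℚ) * D P := mul_nonneg (Nat.cast_nonneg _) (hhor P hP)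
    push_cast
    nlinarith
  have h1 := hC (C * m)
  have h2 : ((C + 1 : ℕ) : ℕ∞) ≤ sdim (X.genH0 K (((C * m : ℕ) : ℚ) • D)) := by
    have hli' : LinearIndependent K fun i : Fin (C + 1) =>
        (⟨f ^ (i : ℕ), hmem i⟩ : X.genH0 K (((C * m : ℕ) : ℚ) • D)) :=
      LinearIndependent.of_comp (Submodule.subtype _) hli
    have h3 := hli'.cardinal_lift_le_rank
    rw [Cardinal.mk_fin] at h3
    have h4 := OrderHomClass.mono Cardinal.toENat h3
    rw [Cardinal.toENat_lift, Cardinal.toENat_lift] at h4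
    unfold sdim
    refine le_trans (le_of_eq ?_) h4
    simp
  have h3 := h2.trans h1
  have h4 : C + 1 ≤ C := by exact_mod_cast h3
  omega

theorem ge_base {P : DVal k L} {Q : DVal k K} {e : ℕ} (h : LiesOver P Q e) {c c' : ℚ}
    (hc : c = e * c') {a : K} : P.Ge c (algebraMap K L a) ↔ Q.Ge c' a := by
  by_cases ha : a = 0
  · rw [ha, map_zero]
    exact ⟨fun _ => DVal.Ge.zero, fun _ => DVal.Ge.zero⟩
  · have haL : algebraMap K L a ≠ 0 := by rwa [Ne, map_eq_zero]
    rw [DVal.ge_iff haL, DVal.ge_iff ha, h.2, hc]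
    push_cast
    have h1 : (0 : ℚ) < e := by exact_mod_cast h.1
    exact mul_le_mul_iff_of_pos_left h1

/-- The comparison of the section spaces, for the coefficients. -/
theorem nuZero_coeff [IsScalarTower k K L] [CharZero k] {n d : ℕ} (hn : Algebra.trdeg k K = n)
    (hd : Algebra.trdeg K L = d) (hmor : IsMorphism X Z)
    (hequi : ∀ P ∈ X.primeDivisors, (∃ a : K, P (algebraMap K L a) ≠ 0) →
      ∃ Q ∈ Z.primeDivisors, ∃ e, LiesOver P Q e)
    (hconn : ∀ x : L, IsAlgebraic K x → x ∈ Set.range (algebraMap K L))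
    (p : X.Pair (n + d)) (q : Z.Pair n) {D : X.Div} {E : Z.Div}
    (S : Z.primeDivisors → X.primeDivisors) (ε : Z.primeDivisors → ℕ) (hinj : Function.Injective S)
    (hS : ∀ Q, LiesOver (S Q).1 Q.1 (ε Q)) (hSE : ∀ Q, ε Q * E Q = D (S Q)) (A : X.Div)
    {c : ℕ} {y : Fin c → L} (hy : LinearIndependent K y) :
    ∃ A' : Z.Div, ∀ (m : ℕ) (a : Fin c → K),
      ∑ j, algebraMap K L (a j) * y j ∈ X.H0 ((m : ℚ) • D + A) →
        ∀ j, a j ∈ Z.H0 ((m : ℚ) • E + A') := by
  classical
  have hK0 : CharZero K := charZero_of_injective_algebraMap (algebraMap k K).injective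
  obtain ⟨s, hs⟩ := exists_basis_of_trdeg hd
  obtain ⟨-, F, -, -, -, -, -, -, -, -⟩ := exists_dframe (K' := K) (L' := L) hn hmor hequi hs p q
  have hself : ∀ P : X.primeDivisors, LiesOver P.1 P.1 1 := fun P => ⟨one_pos, fun a => by simp⟩
  have hs0 : ∀ j, s j ≠ 0 := fun j h => by
    have h1 := F.D_t j j
    rw [h, map_zero, if_pos rfl] at h1
    exact zero_ne_one h1
  obtain ⟨w, hw⟩ := exists_wronskian F.D
    (fun x hx => hconn x (alg_of_der hs F.D_t hx)) y hy
  set W := Matrix.of fun i j => word F.D (w i) (y j) with hW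
  let ℓ : ℕ := ∑ i, (w i).length
  have hℓ : ∀ i, (w i).length ≤ ℓ := fun i =>
    Finset.single_le_sum (f := fun i => (w i).length) (fun _ _ => Nat.zero_le _)
      (Finset.mem_univ i)
  -- the divisors on `X`
  obtain ⟨Dd, hDd⟩ : ∃ Dd : X.Div, ∀ P, Dd P =
      |(F.a P : ℚ)| + |(P.1 F.u : ℚ)| + ∑ j, |(P.1 (s j) : ℚ)| := by
    refine ⟨F.aD.mapRange (fun q : ℚ => |q|) abs_zero + absPrin X F.u +
      ∑ j, absPrin X (s j), fun P => ?_⟩
    simp only [Finsupp.add_apply, Finsupp.mapRange_apply, absPrin_apply,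
      Finsupp.finsetSum_apply, DFrame.aD_apply]
  obtain ⟨Dw, hDw⟩ : ∃ Dw : X.Div, ∀ P, Dw P =
      ∑ i, ∑ j, |(P.1 (word F.D (w i) (y j)) : ℚ)| := by
    refine ⟨∑ i, ∑ j, absPrin X (word F.D (w i) (y j)), fun P => ?_⟩
    simp only [absPrin_apply, Finsupp.finsetSum_apply]
  have hDw' : ∀ P i j, |(P.1 (word F.D (w i) (y j)) : ℚ)| ≤ Dw P := by
    intro P i j
    rw [hDw]
    refine le_trans ?_ (Finset.single_le_sum
      (f := fun i => ∑ j, |(P.1 (word F.D (w i) (y j)) : ℚ)|) (fun _ _ =>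
        Finset.sum_nonneg fun _ _ => abs_nonneg _) (Finset.mem_univ i))
    exact Finset.single_le_sum (f := fun j => |(P.1 (word F.D (w i) (y j)) : ℚ)|)
      (fun _ _ => abs_nonneg _) (Finset.mem_univ j)
  obtain ⟨G, hG⟩ : ∃ G : X.Div, ∀ P, G P =
      |A P| + ℓ * Dd P + c * Dw P + |(P.1 W.det : ℚ)| := by
    refine ⟨A.mapRange (fun q : ℚ => |q|) abs_zero + (ℓ : ℚ) • Dd + (c : ℚ) • Dw +
      absPrin X W.det, fun P => ?_⟩
    simp only [Finsupp.add_apply, Finsupp.mapRange_apply, absPrin_apply, Finsupp.smul_apply,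
      smul_eq_mul]
  obtain ⟨A', hA'⟩ : ∃ A' : Z.Div, ∀ Q, A' Q = G (S Q) + ℓ * |(F.c Q : ℚ)| := by
    refine ⟨G.comapDomain S hinj.injOn + (ℓ : ℚ) • F.cD.mapRange (fun q : ℚ => |q|) abs_zero,
      fun Q => ?_⟩
    simp only [Finsupp.add_apply, Finsupp.mapRange_apply, Finsupp.smul_apply,
      Finsupp.comapDomain_apply, DFrame.cD_apply, smul_eq_mul]
  refine ⟨A', fun m a hf j => ?_⟩
  rw [Pool.Agent.Helper60.MA.mem_H0] at hf ⊢
  intro Q
  have he : (1 : ℚ) ≤ ε Q := by exact_mod_cast (hS Q).1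
  have h1 := hf (S Q)
  have hDd0 : 0 ≤ Dd (S Q) := by
    rw [hDd]
    positivity
  have hDw0 : 0 ≤ Dw (S Q) := by
    rw [hDw]
    positivity
  let C₀ : ℚ := Dd (S Q) + ε Q * |(F.c Q : ℚ)|
  have hC₀ : 0 ≤ C₀ := by positivity
  have h2 := wronsk_coeff F.D (S Q).1 hw hC₀ hDw0 hℓ (fun i r g hg => ?_) (fun i j => ?_) a _ h1 j
  · change (S Q).1.Ge (-(((m : ℚ) • D + A : X.Div) (S Q)) - ℓ * C₀ - c * Dw (S Q) -
      (S Q).1 W.det) _ at h2
    refine (ge_base (hS Q) (c' := (-(((m : ℚ) • D + A : X.Div) (S Q)) - ℓ * C₀ - c * Dw (S Q) -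
      (S Q).1 W.det) / ε Q) (by field_simp)).1 h2 |>.mono ?_
    rw [le_div_iff₀ (by linarith)]
    simp only [Finsupp.add_apply, Finsupp.smul_apply, smul_eq_mul]
    rw [← hSE Q, hA', hG]
    have h3 := le_abs_self (A (S Q))
    have h4 := le_abs_self ((S Q).1 W.det : ℚ)
    have h5 : 0 ≤ |A (S Q)| + ℓ * Dd (S Q) + c * Dw (S Q) + |((S Q).1 W.det : ℚ)| := by
      positivity
    simp only [C₀]
    nlinarith
  · refine der_star (C := C₀) F.D_t hs0 (c := F.a (S Q) + 1 - ε Q * (F.c Q + 1) - (S Q).1 F.u)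
      (fun g hg => ?_) i ?_ r g hg
    · refine (F.star (S Q) Q (ε Q) (hS Q) (S Q).1 1 (hself _) g hg).mono (le_of_eq ?_)
      push_cast
      ring
    · simp only [C₀]
      rw [hDd]
      have h3 := le_abs_self (F.a (S Q) : ℚ)
      have h4 := neg_abs_le ((S Q).1 F.u : ℚ)
      have h5 := neg_abs_le (F.c Q : ℚ)
      nlinarith
  · by_cases h0 : word F.D (w i) (y j) = 0
    · exact Or.inl h0
    · right
      exact (neg_le_neg (hDw' (S Q) i j)).trans (neg_abs_le _)

/-- A bounded increasing sequence of spaces is contained in one of them. -/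
theorem exists_top {V : ℕ → Submodule K L} (hmono : ∀ m n, m ≤ n → V m ≤ V n) {C : ℕ}
    (hC : ∀ m, sdim (V m) ≤ C) : ∃ m₀, FiniteDimensional K (V m₀) ∧ ∀ m, V m ≤ V m₀ := by
  have hfd : ∀ m, FiniteDimensional K (V m) := by
    intro m
    have h1 := hC m
    unfold sdim at h1
    have h2 : Module.rank K (V m) < Cardinal.aleph0 := by
      by_contra hcon
      push Not at hcon
      rw [Cardinal.toENat_eq_top.2 hcon] at h1
      exact absurd h1 (by simp)
    exact Module.rank_lt_aleph0_iff.1 h2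
  have hfr : ∀ m, finrank K (V m) ≤ C := by
    intro m
    have h1 := hC m
    unfold sdim at h1
    rw [← Module.finrank_eq_rank, Cardinal.toENat_nat] at h1
    exact_mod_cast h1
  obtain ⟨m₀, hm₀⟩ : ∃ m₀, ∀ m, finrank K (V m) ≤ finrank K (V m₀) := by
    have hfin : (Set.range fun m => finrank K (V m)).Finite :=
      (Set.finite_le_nat C).subset (by rintro _ ⟨m, rfl⟩; exact hfr m)
    obtain ⟨x, ⟨m₀, rfl⟩, hx⟩ := Set.exists_max_image _ id hfin ⟨_, ⟨0, rfl⟩⟩
    exact ⟨m₀, fun m => hx _ ⟨m, rfl⟩⟩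
  refine ⟨m₀, hfd m₀, fun m => ?_⟩
  rcases le_total m m₀ with h | h
  · exact hmono _ _ h
  · exact (Submodule.eq_of_le_of_finrank_le (hmono _ _ h) (hm₀ m)).ge

theorem nuZero_core [IsScalarTower k K L] [IsAlgClosed k] [CharZero k] {n d : ℕ}
    (hn : Algebra.trdeg k K = n)
    (hd : Algebra.trdeg K L = d) (hmor : IsMorphism X Z)
    (hequi : ∀ P ∈ X.primeDivisors, (∃ a : K, P (algebraMap K L a) ≠ 0) →
      ∃ Q ∈ Z.primeDivisors, ∃ e, LiesOver P Q e)
    (hconn : ∀ x : L, IsAlgebraic K x → x ∈ Set.range (algebraMap K L))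
    (p : X.Pair (n + d)) (q : Z.Pair n) {D : X.Div} {E : Z.Div}
    (S : Z.primeDivisors → X.primeDivisors) (ε : Z.primeDivisors → ℕ) (hinj : Function.Injective S)
    (hS : ∀ Q, LiesOver (S Q).1 Q.1 (ε Q)) (hSE : ∀ Q, ε Q * E Q = D (S Q))
    (hmin : ∀ (P : X.primeDivisors) (Q : Z.primeDivisors) (e : ℕ), LiesOver P.1 Q.1 e →
      e * E Q ≤ D P)
    (hhor : ∀ P : X.primeDivisors, (∀ a : K, P.1 (algebraMap K L a) = 0) → 0 ≤ D P)
    (hbdd : ∀ A : X.Div, ∃ C : ℕ, ∀ m : ℕ, sdim (X.genH0 K ((m : ℚ) • D + A)) ≤ C) :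
    X.kod D = Z.kod E ∧ X.nu D = Z.nu E := by
  classical
  -- sections of `Z`
  have hlift : ∀ (m : ℚ), 0 ≤ m → ∀ (A : Z.Div) (A' : X.Div), (∀ P, 0 ≤ A' P) →
      (∀ (P : X.primeDivisors) (Q : Z.primeDivisors) (e : ℕ), LiesOver P.1 Q.1 e →
        e * A Q ≤ A' P) → ∀ a ∈ Z.H0 (m • E + A), algebraMap K L a ∈ X.H0 (m • D + A') := by
    intro m hm A A' hA'0 hA' a ha
    rw [Pool.Agent.Helper60.MA.mem_H0] at ha ⊢
    intro P
    by_cases hP : ∃ a : K, P.1 (algebraMap K L a) ≠ 0
    · obtain ⟨Q, hQ, e, he⟩ := hequi P.1 P.2 hP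
      refine ((ge_base he (c' := -((m • E + A : Z.Div) ⟨Q, hQ⟩)) rfl).2 (ha ⟨Q, hQ⟩)).mono ?_
      rw [Finsupp.add_apply, Finsupp.smul_apply, Finsupp.add_apply, Finsupp.smul_apply,
        smul_eq_mul, smul_eq_mul]
      have h1 := hmin P ⟨Q, hQ⟩ e he
      have h2 := hA' P ⟨Q, hQ⟩ e he
      have h3 := mul_le_mul_of_nonneg_left h1 hm
      linarith
    · push Not at hP
      by_cases ha0 : algebraMap K L a = 0
      · exact Or.inl ha0
      right
      rw [hP a, Finsupp.add_apply, Finsupp.smul_apply, smul_eq_mul]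
      have h1 := hhor P hP
      have h2 := hA'0 P
      have h3 := mul_nonneg hm h1
      push_cast
      linarith
  have hgen : ∀ D' : X.Div, X.H0 D' ≤ (X.genH0 K D').restrictScalars k := by
    intro D' f hf
    rw [Submodule.restrictScalars_mem, mem_genH0]
    rw [Pool.Agent.Helper60.MA.mem_H0] at hf
    exact fun P _ => hf P
  constructor
  · -- the sections of `m D` are the sections of `m E`
    have h0 : ∃ C : ℕ, ∀ m : ℕ, sdim (X.genH0 K ((m : ℚ) • D)) ≤ C := by
      obtain ⟨C, hC⟩ := hbdd 0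
      refine ⟨C, fun m => ?_⟩
      have := hC m
      rwa [add_zero] at this
    have heq : ∀ m : ℕ, sdim (X.H0 ((m : ℚ) • D)) = sdim (Z.H0 ((m : ℚ) • E)) := by
      intro m
      refine (sdim_eq_of_equiv (LinearEquiv.ofBijective (({
        toFun := fun a => ⟨algebraMap K L a.1, ?_⟩
        map_add' := fun a b => by ext; simp
        map_smul' := fun c a => by
          ext
          simp only [Submodule.coe_smul, RingHom.id_apply, Algebra.smul_def, map_mul]
          rw [← IsScalarTower.algebraMap_apply k K L] } :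
          Z.H0 ((m : ℚ) • E) →ₗ[k] X.H0 ((m : ℚ) • D))) ⟨?_, ?_⟩)).symm
      · have h1 := hlift m (Nat.cast_nonneg _) 0 0 (fun _ => le_rfl) (fun _ _ _ _ => by simp) a.1
          (by rw [add_zero]; exact a.2)
        rwa [add_zero] at h1
      · intro a b hab
        have h1 := congrArg Subtype.val hab
        exact Subtype.ext ((algebraMap K L).injective h1)
      · rintro ⟨f, hf⟩
        obtain ⟨a, ha⟩ := mem_range_of_bdd hconn hhor h0 (hgen _ hf)
        refine ⟨⟨a, ?_⟩, Subtype.ext ha⟩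
        rw [Pool.Agent.Helper60.MA.mem_H0] at hf ⊢
        intro Q
        have h1 := hf (S Q)
        rw [← ha] at h1
        refine (ge_base (hS Q) ?_).1 h1
        rw [Finsupp.smul_apply, Finsupp.smul_apply, smul_eq_mul, smul_eq_mul, ← hSE Q]
        ring
    obtain ⟨N₁, hN₁, hD⟩ := exists_int_mult D
    obtain ⟨N₂, hN₂, hE⟩ := exists_int_mult E
    have hN : 1 ≤ N₁ * N₂ := Nat.mul_pos hN₁ hN₂
    rw [← kod_smul D hN, ← kod_smul E hN]
    unfold ProjVar.kod
    congr 1
    funext m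
    have e1 : X.IsInt ((m : ℚ) • ((N₁ * N₂ : ℕ) : ℚ) • D) := by
      intro P
      obtain ⟨z, hz⟩ := hD P
      refine ⟨m * N₂ * z, ?_⟩
      rw [Finsupp.smul_apply, smul_eq_mul] at hz
      rw [Finsupp.smul_apply, Finsupp.smul_apply, smul_eq_mul, smul_eq_mul]
      push_cast
      rw [← hz]
      ring
    have e2 : Z.IsInt ((m : ℚ) • ((N₁ * N₂ : ℕ) : ℚ) • E) := by
      intro P
      obtain ⟨z, hz⟩ := hE P
      refine ⟨m * N₁ * z, ?_⟩
      rw [Finsupp.smul_apply, smul_eq_mul] at hz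
      rw [Finsupp.smul_apply, Finsupp.smul_apply, smul_eq_mul, smul_eq_mul]
      push_cast
      rw [← hz]
      ring
    rw [X.h0_of_int e1, Z.h0_of_int e2]
    have h1 := heq (m * (N₁ * N₂))
    rw [smul_smul, smul_smul]
    push_cast at h1 ⊢
    exact h1
  · rw [nu_eq_sup, nu_eq_sup]
    apply le_antisymm
    · refine iSup_le fun A => ?_
      obtain ⟨C, hC⟩ := hbdd A
      obtain ⟨m₀, hfd, hm₀⟩ := exists_top (V := fun m : ℕ => X.genH0 K ((m : ℚ) • D + A))
        (fun m m' h => genH0_mono fun P hP => by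
          rw [Finsupp.add_apply, Finsupp.smul_apply, Finsupp.add_apply, Finsupp.smul_apply,
            smul_eq_mul, smul_eq_mul]
          have h1 : (m : ℚ) ≤ m' := by exact_mod_cast h
          have h2 := mul_le_mul_of_nonneg_right h1 (hhor P hP)
          linarith) hC
      set V := X.genH0 K ((m₀ : ℚ) • D + A) with hV
      let b := Module.finBasis K V
      have hy : LinearIndependent K fun j => (b j : L) :=
        b.linearIndependent.map' V.subtype (Submodule.ker_subtype _)
      obtain ⟨A', hA'⟩ := nuZero_coeff hn hd hmor hequi hconn p q S ε hinj hS hSE A hy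
      refine le_trans ?_ (le_iSup (fun A : Z.Div => logGrowth fun m =>
        sdim (Z.H0 ((m : ℚ) • E + A))) A')
      refine logGrowth_le_of_le (C := finrank K V) (φ := fun m => m) Filter.tendsto_id
        (a := 1) (c := 0) (fun m => by simp) fun m _ => ?_
      have hmemV : ∀ f : X.H0 ((m : ℚ) • D + A), (f : L) ∈ V := fun f => hm₀ m (hgen _ f.2)
      have hrep : ∀ f : X.H0 ((m : ℚ) • D + A), (f : L) =
          ∑ j, algebraMap K L (b.repr ⟨f, hmemV f⟩ j) * (b j : L) := by
        intro f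
        have h1 := congrArg Subtype.val (b.sum_repr ⟨(f : L), hmemV f⟩)
        rw [Submodule.coe_sum] at h1
        refine h1.symm.trans (Finset.sum_congr rfl fun j _ => ?_)
        rw [Submodule.coe_smul, Algebra.smul_def]
      have hcoef : ∀ (f : X.H0 ((m : ℚ) • D + A)) (j : Fin (finrank K V)),
          b.repr ⟨f, hmemV f⟩ j ∈ Z.H0 ((m : ℚ) • E + A') := by
        intro f j
        refine hA' m (fun j => b.repr ⟨f, hmemV f⟩ j) ?_ j
        rw [← hrep]
        exact f.2
      have hadd : ∀ (f g : X.H0 ((m : ℚ) • D + A)) (j : Fin (finrank K V)),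
          b.repr ⟨((f + g : X.H0 ((m : ℚ) • D + A)) : L), hmemV (f + g)⟩ j =
            b.repr ⟨f, hmemV f⟩ j + b.repr ⟨g, hmemV g⟩ j := by
        intro f g j
        have h2 : (⟨((f + g : X.H0 ((m : ℚ) • D + A)) : L), hmemV (f + g)⟩ : V) =
            ⟨f, hmemV f⟩ + ⟨g, hmemV g⟩ := rfl
        rw [h2, map_add]
        rfl
      have hsmul : ∀ (c : k) (f : X.H0 ((m : ℚ) • D + A)) (j : Fin (finrank K V)),
          b.repr ⟨((c • f : X.H0 ((m : ℚ) • D + A)) : L), hmemV (c • f)⟩ j =
            c • b.repr ⟨f, hmemV f⟩ j := by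
        intro c f j
        have h2 : (⟨((c • f : X.H0 ((m : ℚ) • D + A)) : L), hmemV (c • f)⟩ : V) =
            algebraMap k K c • ⟨f, hmemV f⟩ := by
          apply Subtype.ext
          rw [Submodule.coe_smul, Submodule.coe_smul, Algebra.smul_def, Algebra.smul_def,
            ← IsScalarTower.algebraMap_apply]
        rw [h2, map_smul, Algebra.smul_def]
        rfl
      have h1 := sdim_le_card_mul (ι := Fin (finrank K V)) (W := X.H0 ((m : ℚ) • D + A))
        (W' := Z.H0 ((m : ℚ) • E + A'))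
        { toFun := fun f => Finsupp.equivFunOnFinite.symm fun j => ⟨_, hcoef f j⟩
          map_add' := fun f g => by
            ext j
            exact hadd f g j
          map_smul' := fun c f => by
            ext j
            exact hsmul c f j }
        (by
          intro f g hfg
          apply Subtype.ext
          rw [hrep f, hrep g]
          refine Finset.sum_congr rfl fun j _ => ?_
          have h2 := congrArg Subtype.val (DFunLike.congr_fun hfg j)
          change b.repr ⟨f, hmemV f⟩ j = b.repr ⟨g, hmemV g⟩ j at h2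
          rw [h2])
      rw [Fintype.card_fin] at h1
      exact h1
    · refine iSup_le fun A => ?_
      obtain ⟨A', hA'0, hA'⟩ := exists_pull_ge X A
      refine le_trans ?_ (le_iSup (fun A : X.Div => logGrowth fun m =>
        sdim (X.H0 ((m : ℚ) • D + A))) A')
      refine logGrowth_le_of_le (C := 1) (φ := fun m => m) Filter.tendsto_id
        (a := 1) (c := 0) (fun m => by simp) fun m _ => ?_
      rw [Nat.cast_one, one_mul]
      refine sdim_le_of_injective ({
        toFun := fun a => ⟨algebraMap K L a.1, hlift m (Nat.cast_nonneg _) A A' hA'0 hA' a.1 a.2⟩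
        map_add' := fun a b => by ext; simp
        map_smul' := fun c a => by
          ext
          simp only [Submodule.coe_smul, RingHom.id_apply, Algebra.smul_def, map_mul]
          rw [← IsScalarTower.algebraMap_apply k K L] } :
          Z.H0 ((m : ℚ) • E + A) →ₗ[k] X.H0 ((m : ℚ) • D + A')) ?_
      intro a b hab
      have h1 := congrArg Subtype.val hab
      exact Subtype.ext ((algebraMap K L).injective h1)

/-- Fibrations whose general fibre has numerical dimension zero. -/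
theorem IsNuZero.exists_base [IsScalarTower k K L] [IsAlgClosed k] [CharZero k] {n d : ℕ}
    (hn : Algebra.trdeg k K = n) (hd : Algebra.trdeg K L = d) (p : X.Pair (n + d)) (q : Z.Pair n)
    {D : X.Div} {E : Z.Div} (h : IsNuZero X D Z E) :
    ∃ B : Z.Div, (∀ Q, 0 ≤ B Q) ∧ X.kod D = Z.kod (E + B) ∧ X.nu D = Z.nu (E + B) := by
  classical
  have hK0 : CharZero K := charZero_of_injective_algebraMap (algebraMap k K).injective
  obtain ⟨s, hs⟩ := exists_basis_of_trdeg hd
  obtain ⟨m, φ, hm, hφ, hv, hh⟩ := h.eff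
  have hm0 : (0 : ℚ) < m := by exact_mod_cast hm
  set D₂ : X.Div := (m : ℚ) • D + X.prin φ with hD₂
  have hD₂' : ∀ P, D₂ P = m * D P + P.1 φ := by
    intro P
    rw [hD₂, Finsupp.add_apply, Finsupp.smul_apply, smul_eq_mul, ProjVar.prin_apply]
  obtain ⟨E₂, S, ε, hinj, hS, hSE, hmin⟩ := exists_min D₂ fun Q hQ => exists_vertD h.mor hs hQ
  have hb : ∀ A : X.Div, ∃ C : ℕ, ∀ j : ℕ, sdim (X.genH0 K ((j : ℚ) • D₂ + A)) ≤ C := by
    intro A
    obtain ⟨C, hC⟩ := bdd_sdim h.bdd A
    refine ⟨C, fun j => (sdim_le_of_mul (φ ^ j) (pow_ne_zero _ hφ) fun f hf => ?_).trans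
      (hC (j * m))⟩
    rw [mem_genH0] at hf ⊢
    intro P hP
    have h1 : P.1.Ge ((j * P.1 φ : ℤ) : ℚ) (φ ^ j) := by
      right
      rw [P.1.map_pow]
    refine ((hf P hP).mul h1).mono ?_
    rw [Finsupp.add_apply, Finsupp.smul_apply, Finsupp.add_apply, Finsupp.smul_apply,
      smul_eq_mul, smul_eq_mul, hD₂']
    push_cast
    apply le_of_eq
    ring
  obtain ⟨h1, h2⟩ := nuZero_core hn hd h.mor h.equi h.conn p q S ε hinj hS hSE hmin
    (fun P hP => by rw [hD₂']; linarith [hh P hP]) hb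
  refine ⟨(m : ℚ)⁻¹ • E₂ - E, fun Q => ?_, ?_, ?_⟩
  · rw [Finsupp.sub_apply, Finsupp.smul_apply, smul_eq_mul]
    have h3 := hv (S Q) Q (ε Q) (hS Q)
    have h4 := hSE Q
    rw [hD₂'] at h4
    have h5 : (0 : ℚ) < ε Q := by exact_mod_cast (hS Q).1
    have h6 : (ε Q : ℚ) * (m * E Q) ≤ ε Q * E₂ Q := by linarith
    have h7 := le_of_mul_le_mul_left h6 h5
    rw [sub_nonneg, le_inv_mul_iff₀ hm0]
    exact h7
  · have h3 : (m : ℚ) • (E + ((m : ℚ)⁻¹ • E₂ - E)) = E₂ := by
      rw [add_sub_cancel, smul_smul, mul_inv_cancel₀ hm0.ne', one_smul]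
    rw [← kod_smul (E + ((m : ℚ)⁻¹ • E₂ - E)) hm, h3, ← h1, hD₂, X.kod_add_prin _ hφ,
      kod_smul _ hm]
  · have h3 : (m : ℚ) • (E + ((m : ℚ)⁻¹ • E₂ - E)) = E₂ := by
      rw [add_sub_cancel, smul_smul, mul_inv_cancel₀ hm0.ne', one_smul]
    rw [← nu_smul (E + ((m : ℚ)⁻¹ • E₂ - E)) hm, h3, ← h2, hD₂, X.nu_add_prin _ hφ,
      nu_smul _ hm]

/-- Weak abundance for fibrations whose general fibre has numerical dimension zero, over stable
bases. -/
theorem kod_eq_nu_nuZero [IsScalarTower k K L] [IsAlgClosed k] [CharZero k] {n d : ℕ}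
    (hn : Algebra.trdeg k K = n) (hd : Algebra.trdeg K L = d) (p : X.Pair (n + d)) (q : Z.Pair n)
    (h : IsNuZero X p.logDiv Z q.logDiv) (hZ : Pool.Agent.Helper63.PB.IsStable Z q.logDiv) :
    X.kod p.logDiv = X.nu p.logDiv := by
  obtain ⟨B, hB, h1, h2⟩ := h.exists_base hn hd p q
  rw [h1, h2, hZ.2 B hB]

end

/-- The dimension of the total space. -/
theorem trdeg_of_nuZero {k K L : Type*} [Field k] [Field K] [Field L] [Algebra k K] [Algebra k L]
    [Algebra K L] [IsScalarTower k K L] {n d : ℕ} (hn : Algebra.trdeg k K = n)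
    (hd : Algebra.trdeg K L = d) : Algebra.trdeg k L = (n + d : ℕ) := by
  obtain ⟨s, hs⟩ := exists_basis_of_trdeg hd
  exact Pool.Agent.Helper63.PB.trdeg_of_basis hn hs

end Pool.Agent.Helper60.PB
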