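import Pool.Agent.Helper60.PB.Icl

set_option autoImplicit false

/-!
# Project PB (MP_2c56d9_ag), module NC2: changing the chart
-/

namespace Pool.Agent.Helper60.PB

open Pool.Agent.Helper92.Weak Pool.Agent.Helper47.PQ

section

variable {k F : Type*} [Field k] [Field F] [Algebra k F]

/-- Elements of the `i`-th chart become elements of the `j`-th chart after multiplication with a high
power of `xᵢ / xⱼ`. -/
theorem chart_shift {n : ℕ} (x : Fin (n + 1) → F) (hx : ∀ i, x i ≠ 0) (i j : Fin (n + 1)) {a : F}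
    (ha : a ∈ chart k x i) : ∃ D : ℕ, ∀ d, D ≤ d → (x i / x j) ^ d * a ∈ chart k x j := by
  have hij : x i / x j ∈ chart k x j := Algebra.subset_adjoin ⟨i, rfl⟩
  unfold chart at ha
  induction ha using Algebra.adjoin_induction with
  | mem a ha =>
    obtain ⟨l, rfl⟩ := ha
    refine ⟨1, fun d hd => ?_⟩
    obtain ⟨e, rfl⟩ : ∃ e, d = e + 1 := ⟨d - 1, by omega⟩
    have h1 : (x i / x j) ^ (e + 1) * (x l / x i) = (x i / x j) ^ e * (x l / x j) := by
      have := hx i
      have := hx j
      rw [pow_succ]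
      field_simp
    rw [h1]
    exact Subalgebra.mul_mem _ (Subalgebra.pow_mem _ hij e) (Algebra.subset_adjoin ⟨l, rfl⟩)
  | algebraMap c =>
    exact ⟨0, fun d _ => Subalgebra.mul_mem _ (Subalgebra.pow_mem _ hij d)
      (Subalgebra.algebraMap_mem _ c)⟩
  | add a b _ _ iha ihb =>
    obtain ⟨D, hD⟩ := iha
    obtain ⟨D', hD'⟩ := ihb
    refine ⟨max D D', fun d hd => ?_⟩
    rw [mul_add]
    exact Subalgebra.add_mem _ (hD d (by omega)) (hD' d (by omega))
  | mul a b _ _ iha ihb =>
    obtain ⟨D, hD⟩ := iha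
    obtain ⟨D', hD'⟩ := ihb
    refine ⟨D + D', fun d hd => ?_⟩
    have h1 : (x i / x j) ^ d * (a * b) =
        (x i / x j) ^ D * a * ((x i / x j) ^ (d - D) * b) := by
      have h2 : d = D + (d - D) := by omega
      conv_lhs => rw [h2, pow_add]
      ring
    rw [h1]
    exact Subalgebra.mul_mem _ (hD D le_rfl) (hD' _ (by omega))

/-- A local ring of the `l`-th chart at which `y_m / y_l` is a unit is a local ring of the
`m`-th chart. -/
theorem locAt_change {N : ℕ} (y : Fin (N + 1) → F) (hy : ∀ i, y i ≠ 0) (l m : Fin (N + 1))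
    (p : Ideal (chart k y l)) [hp : p.IsPrime]
    (hml : (⟨y m / y l, Algebra.subset_adjoin ⟨m, rfl⟩⟩ : chart k y l) ∉ p) :
    ∃ (q : Ideal (chart k y m)) (_ : q.IsPrime), locAt (chart k y l) p = locAt (chart k y m) q := by
  classical
  set R := locAt (chart k y l) p with hR
  have hw : y l / y m ∈ R := by
    have h1 := inv_mem_locAt hml
    have h2 : ((⟨y m / y l, Algebra.subset_adjoin ⟨m, rfl⟩⟩ : chart k y l) : F)⁻¹ = y l / y m := by
      simp
    rwa [h2] at h1
  have hw' : y m / y l ∈ R := le_locAt p (Algebra.subset_adjoin ⟨m, rfl⟩)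
  have hle : chart k y m ≤ R := by
    rw [ProjVar.chart_le_iff]
    intro j
    have h1 : y j / y m = y j / y l * (y l / y m) := by
      have := hy l
      have := hy m
      field_simp
    rw [h1]
    exact Subalgebra.mul_mem _ (le_locAt p (Algebra.subset_adjoin ⟨j, rfl⟩)) hw
  have hloc : IsLocalRing R := by
    let _ := locAlg (chart k y l) p
    have := isLocalization_locAt (chart k y l) p
    exact IsLocalization.AtPrime.isLocalRing R p
  let φ : chart k y m →+* R := (Subalgebra.inclusion hle).toRingHom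
  let q : Ideal (chart k y m) := (IsLocalRing.maximalIdeal R).comap φ
  have hq : q.IsPrime := Ideal.comap_isPrime _ _
  have hunit : ∀ b : chart k y m, b ∉ q ↔ IsUnit (φ b) := by
    intro b
    change ¬ (φ b ∈ IsLocalRing.maximalIdeal R) ↔ _
    rw [IsLocalRing.mem_maximalIdeal, mem_nonunits_iff, not_not]
  have hunit' : ∀ b : chart k y m, b ∉ q → (b : F) ≠ 0 ∧ (b : F)⁻¹ ∈ R := by
    intro b hb
    rw [hunit] at hb
    obtain ⟨c, hc⟩ := isUnit_iff_exists_inv.1 hb
    have hc' : (b : F) * (c : F) = 1 := congrArg Subtype.val hc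
    have hb0 : (b : F) ≠ 0 := left_ne_zero_of_mul (hc'.symm ▸ one_ne_zero)
    refine ⟨hb0, ?_⟩
    rw [← eq_inv_of_mul_eq_one_right hc']
    exact c.2
  refine ⟨q, hq, le_antisymm ?_ ?_⟩
  · rintro z ⟨a, b, hb, hz⟩
    obtain ⟨D, hD⟩ := chart_shift (k := k) y hy l m a.2
    obtain ⟨D', hD'⟩ := chart_shift (k := k) y hy l m b.2
    refine ⟨⟨_, hD (max D D') (by omega)⟩, ⟨_, hD' (max D D') (by omega)⟩, ?_, ?_⟩
    · rw [hunit, isUnit_iff_exists_inv]
      have h1 : (b : F)⁻¹ ∈ R := inv_mem_locAt hb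
      refine ⟨⟨(y m / y l) ^ (max D D') * (b : F)⁻¹,
        R.mul_mem (R.pow_mem hw' _) h1⟩, ?_⟩
      apply Subtype.ext
      change (y l / y m) ^ (max D D') * (b : F) * ((y m / y l) ^ (max D D') * (b : F)⁻¹) = 1
      have h2 : (b : F) ≠ 0 := coe_ne_zero_of_notMem hb
      have h3 : (y l / y m) ^ (max D D') * (y m / y l) ^ (max D D') = 1 := by
        rw [← mul_pow]
        have := hy l
        have := hy m
        have h4 : y l / y m * (y m / y l) = 1 := by field_simp
        rw [h4, one_pow]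
      calc _ = (y l / y m) ^ (max D D') * (y m / y l) ^ (max D D') * ((b : F) * (b : F)⁻¹) := by
            ring
        _ = 1 := by rw [h3, mul_inv_cancel₀ h2, one_mul]
    · change z * ((y l / y m) ^ (max D D') * (b : F)) = (y l / y m) ^ (max D D') * (a : F)
      rw [← hz]
      ring
  · rintro z ⟨a, b, hb, hz⟩
    obtain ⟨hb0, hb1⟩ := hunit' b hb
    have h1 : z = a * (b : F)⁻¹ := by rw [← hz]; field_simp
    rw [h1]
    exact R.mul_mem (hle a.2) hb1

end

section

variable {k L E : Type*} [Field k] [Field L] [Field E] [Algebra k L] [Algebra k E] [Algebra L E]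
  [IsScalarTower k L E] [FiniteDimensional L E]

theorem icl_shift {n : ℕ} (x : Fin (n + 1) → L) (hx : ∀ i, x i ≠ 0) (i j : Fin (n + 1))
    [IsIntegrallyClosed (chart k x i)] (hfr : IsFrac (chart k x i)) {b : E}
    (hb : b ∈ icl E (chart k x i)) :
    ∃ D : ℕ, ∀ d, D ≤ d → algebraMap L E (x i / x j) ^ d * b ∈ icl E (chart k x j) := by
  classical
  set P := minpoly L b with hP
  have hbL : IsIntegral L b := Algebra.IsIntegral.isIntegral _
  have hPm : P.Monic := minpoly.monic hbL
  have hc : ∀ n, P.coeff n ∈ chart k x i := minpoly_coeff_mem hfr hb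
  choose D hD using fun n => chart_shift (k := k) x hx i j (hc n)
  refine ⟨(∑ n ∈ Finset.range P.natDegree, D n), fun d hd => ?_⟩
  set u : L := (x i / x j) ^ d with hu
  have hroot : Polynomial.aeval (algebraMap L E u * b) (P.scaleRoots u) = 0 := by
    apply Polynomial.scaleRoots_aeval_eq_zero
    exact minpoly.aeval L b
  rw [← map_pow, ← hu, mem_icl]
  refine isIntegral_of_coeff ((Polynomial.monic_scaleRoots_iff u).2 hPm) (fun n => ?_) hroot
  rw [Polynomial.coeff_scaleRoots]
  rcases lt_trichotomy n P.natDegree with h | h | h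
  · have h1 : D n ≤ d := by
      refine le_trans ?_ hd
      exact Finset.single_le_sum (f := D) (fun _ _ => Nat.zero_le _) (Finset.mem_range.2 h)
    rw [hu, ← pow_mul, mul_comm]
    apply hD n
    calc D n ≤ d := h1
      _ = d * 1 := (mul_one d).symm
      _ ≤ d * (P.natDegree - n) := Nat.mul_le_mul_left d (by omega)
  · rw [h]
    have h1 : P.coeff P.natDegree = 1 := hPm
    rw [h1, Nat.sub_self, pow_zero, mul_one]
    exact Subalgebra.one_mem _
  · rw [Polynomial.coeff_eq_zero_of_natDegree_lt h, zero_mul]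
    exact Subalgebra.zero_mem _

end

end Pool.Agent.Helper60.PB
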