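import Pool.Agent.Helper63.PB.Stable
import Pool.Agent.Helper60.PB.BigBase

set_option autoImplicit false

/-!
# PB-45 StableBig: divisors on varieties on which all prime divisors are big are stable
-/

namespace Pool.Agent.Helper60.PB

open Pool.Agent.Helper92.Weak Pool.Agent.Helper63.PB

variable {k K : Type*} [Field k] [IsAlgClosed k] [Field K] [Algebra k K] {Z : ProjVar k K}

theorem isStable_primeBig {n : ℕ} (hn : Algebra.trdeg k K = n) (hZ : IsPrimeBig Z) {D : Z.Div}
    (hD : Z.kod D ≠ ⊥) : IsStable Z D := by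
  refine ⟨hD, fun B hB => hZ.kod_eq_nu hn fun h => hD ?_⟩
  rw [← le_bot_iff, ← h]
  exact Pool.Agent.Helper63.PB.kod_mono fun Q => by
    rw [Finsupp.add_apply]
    linarith [hB Q]

theorem isStable_curve (hn : Algebra.trdeg k K = 1) {D : Z.Div} (hD : Z.kod D ≠ ⊥) :
    IsStable Z D :=
  isStable_primeBig (n := 1) (by exact_mod_cast hn) (primeBig_curve Z hn) hD

end Pool.Agent.Helper60.PB
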