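import Pool.Agent.Helper92.Tor.Final
import Pool.Agent.Helper92.Ga.Final
import Pool.Agent.Helper63.PB.StableOps

set_option autoImplicit false

/-!
# PB-47 StableTorus: klt pairs with torus action over stable pairs are stable
-/

namespace Pool.Agent.Helper60.PB

open Pool.Agent.Helper92.Weak Pool.Agent.Helper92.Ga Pool.Agent.Helper63.PB
open IntermediateField.algebraAdjoinAdjoin

section

variable {k L : Type*} [Field k] [Field L] [Algebra k L] {X : ProjVar k L}

theorem isValue_nonneg {v : DVal k L} {D : X.Div} {c : ℚ} (hc : X.IsValue v D c)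
    (hD : ∀ P, 0 ≤ D P) : 0 ≤ c := by
  obtain ⟨R, hR, hRv, m, f, hm, ⟨hf0, hf⟩, rfl⟩ := hc
  have h1 : 0 ≤ v f := by
    apply ProjVar.val_nonneg hR hRv
    intro P hP hRP
    have h2 := hf ⟨P, hP⟩ hRP
    rw [Finsupp.smul_apply, smul_eq_mul] at h2
    have h3 := mul_nonneg (Nat.cast_nonneg m : (0 : ℚ) ≤ m) (hD ⟨P, hP⟩)
    rw [← h2] at h3
    exact_mod_cast h3
  have h2 : (0 : ℚ) ≤ v f := by exact_mod_cast h1
  positivity

/-- Klt pairs are log canonical. -/
theorem lc_of_klt {n : ℕ} (hqf : X.IsQFactorial) (p : X.Pair n) (h : X.IsKlt p.ω p.can p.Δ) :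
    p.LC := by
  obtain ⟨δ, hδ, hlc⟩ := h
  refine ⟨hqf _, fun v hv a c ha hc => ?_⟩
  obtain ⟨κ, hκ⟩ := (hqf p.can).exists_value v
  obtain ⟨c₁, hc₁⟩ := (hqf p.Δ).exists_value v
  have h1 := isValue_nonneg hc₁ p.nonneg
  have h2 := hlc.2 v hv a _ ha (hκ.add (hc₁.smul (1 + δ)))
  rw [hc.unique (hκ.add hc₁)]
  have h3 := mul_nonneg hδ.le h1
  linarith

end

section

variable {k K L : Type*} [Field k] [Field K] [Field L] [Algebra k K] [Algebra k L]
  [Algebra K L] [IsScalarTower k K L]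

omit [Algebra k K] [Algebra k L] [IsScalarTower k K L] [Field k] in
theorem trdeg_torus {r : ℕ} {t : Fin r → L} (h1 : AlgebraicIndependent K t)
    (h2 : IntermediateField.adjoin K (Set.range t) = ⊤) : Algebra.trdeg K L = r := by
  have h3 : Algebra.IsAlgebraic (IntermediateField.adjoin K (Set.range t)) L :=
    ⟨fun x => isAlgebraic_algebraMap (⟨x, by rw [h2]; trivial⟩ :
      IntermediateField.adjoin K (Set.range t))⟩
  have h4 : Algebra.IsAlgebraic (Algebra.adjoin K (Set.range t)) L :=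
    (IsFractionRing.comap_isAlgebraic_iff (A := Algebra.adjoin K (Set.range t))
      (K := IntermediateField.adjoin K (Set.range t)) (C := L)).2 h3
  have h5 : IsTranscendenceBasis K t := by
    rw [h1.isTranscendenceBasis_iff_isAlgebraic]
    exact h4
  have h6 := h5.lift_cardinalMk_eq_trdeg
  rw [Cardinal.mk_fin, Cardinal.lift_natCast] at h6
  have h7 : Cardinal.lift.{0} (Algebra.trdeg K L) = ((r : ℕ) : Cardinal) := by
    rw [← h6]
  simpa using h7

/-- Klt pairs with torus action over a stable pair are stable. -/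
theorem isStable_torus [IsAlgClosed k] [CharZero k] {d r : ℕ} (hd : Algebra.trdeg k K = d)
    (t : Fin r → L) (Z : ProjVar k K) (X : ProjVar k L) (h : IsTorusVariety t X Z)
    (p : X.Pair (d + r)) (hsm : X.IsSmooth (d + r))
    (hqf : X.IsQFactorial) (hklt : X.IsKlt p.ω p.can p.Δ) (q : Z.Pair d) (hq : IsOrbifoldBase p q)
    (hZ : IsStable Z q.logDiv) (hκ : X.kod p.logDiv ≠ ⊥) : IsStable X p.logDiv := by
  have hn : Algebra.trdeg k L = (d + r : ℕ) := by
    have h1 := lift_trdeg_add_eq k K L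
    rw [trdeg_torus h.indep h.gen, hd] at h1
    simp only [Cardinal.lift_natCast] at h1
    have h2 : Cardinal.lift (Algebra.trdeg k L) = ((d + r : ℕ) : Cardinal) := by
      rw [← h1]
      push_cast
      rfl
    rw [Cardinal.lift_eq_nat_iff] at h2
    exact h2
  refine isStable_of_small hκ fun B hB => ?_
  obtain ⟨ε₀, hε₀, hε⟩ := klt_add_smul hn X hsm hqf p hklt B
  have hcB : ∀ P, 0 ≤ (ε₀ • B) P := fun P => by
    rw [Finsupp.smul_apply, smul_eq_mul]
    exact mul_nonneg hε₀.le (hB P)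
  refine ⟨ε₀, hε₀, ?_⟩
  have hlc : (addPair p (ε₀ • B) hcB).LC := lc_of_klt hqf _ (hε ε₀ hε₀ le_rfl)
  have hq' : IsOrbifoldBase (addPair p (ε₀ • B) hcB) q := by
    intro P Q e hPQ
    rw [addPair_Δ, Finsupp.add_apply]
    linarith [hq P Q e hPQ, hcB P]
  rw [← addPair_logDiv p (ε₀ • B) hcB]
  rcases Pool.Agent.Helper92.Tor.torus_variety_pair hd Z X h (addPair p (ε₀ • B) hcB) hlc q hq'
    hZ.1 with h3 | ⟨s, BZ, -, hBZ, h3, -⟩
  · rw [h3.1, h3.2]
  · obtain ⟨h4, h5⟩ := h3 1 one_pos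
    rw [one_smul] at h4 h5
    rw [h4, h5, hZ.2 BZ hBZ]

end

end Pool.Agent.Helper60.PB
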