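import Pool.Agent.Helper47.PQ.FlagDefs
import Pool.Agent.Helper60.PB.Cover

set_option autoImplicit false

/-!
# Project PB (MP_2c56d9_ag): linear bounds for sections at an arbitrary discrete valuation

`val_ge`: let `D`, `A` be divisors on `X` and `w` a discrete valuation of `L` over `k`. There is a
constant `C` with `w f ≥ -C (m + 1)` for all `m` and all sections `f` of `m D + A`. PROOF. As
`X` is projective, `w` has a centre, in the `i`-th chart say, and `A₁ = |D| + |A|` is at most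
`div g + c H` for some function `g` and a hyperplane section `H`; so `f g ^ (m + 1) / y_i ^ (c (m + 1))`
is in the coordinate ring of the chart. (The first lemmas are taken from Helper47/PQ/D5, where they
are private.)

`val_ge_ext`: the same for a discrete valuation of an extension of `L`.
-/

namespace Pool.Agent.Helper60.PB

open Pool.Agent.Helper92.Weak Pool.Agent.Helper47.PQ
open scoped Pointwise

variable {k L : Type*} [Field k] [Field L] [Algebra k L]

theorem VG_chart_hartogs (X : ProjVar k L) (i : Fin (X.n + 1)) {z : L}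
    (h : ∀ P ∈ X.primeDivisors, chart k X.x i ≤ P.ring → 0 ≤ P z) : z ∈ chart k X.x i := by
  by_contra hz
  let I : Ideal (chart k X.x i) :=
    { carrier := {b | z * (b : L) ∈ chart k X.x i}
      zero_mem' := by
        change z * ((0 : chart k X.x i) : L) ∈ chart k X.x i
        simp
      add_mem' := fun {a b} ha hb => by
        change z * ((a + b : chart k X.x i) : L) ∈ chart k X.x i
        push_cast
        rw [mul_add]
        exact Subalgebra.add_mem _ ha hb
      smul_mem' := fun a b hb => by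
        change z * ((a • b : chart k X.x i) : L) ∈ chart k X.x i
        have h1 : z * ((a • b : chart k X.x i) : L) = a * (z * b) := by
          rw [smul_eq_mul]
          push_cast
          ring
        rw [h1]
        exact Subalgebra.mul_mem _ a.2 hb }
  have hI : ∀ b : chart k X.x i, b ∈ I ↔ z * (b : L) ∈ chart k X.x i := fun b => Iff.rfl
  have hne : I ≠ ⊤ := by
    intro hc
    have h1 : (1 : chart k X.x i) ∈ I := by
      rw [hc]
      trivial
    rw [hI] at h1
    apply hz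
    simpa using h1
  obtain ⟨m, hm, hIm⟩ := Ideal.exists_le_maximal I hne
  have hmp : m.IsPrime := hm.isPrime
  have h1 : z ∈ locAt (chart k X.x i) m := by
    refine X.hartogs (X.locAt_mem i m) fun P hP hle => ?_
    rw [DVal.mem_ring]
    exact h P hP ((le_locAt m).trans hle)
  obtain ⟨a, b, hb, hab⟩ := mem_locAt.1 h1
  apply hb
  apply hIm
  rw [hI, hab]
  exact a.2

/-! ### The space of linear forms -/

/-- the coordinates -/
noncomputable def VGy (X : ProjVar k L) (j : Fin (X.n + 1)) : L := X.x j / X.x 0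

/-- the space of linear forms -/
noncomputable def VGW (X : ProjVar k L) : Submodule k L :=
  Submodule.span k (Set.range (VGy X))

/-- minus the minimum of the values of the coordinates -/
noncomputable def VGmu (X : ProjVar k L) (P : DVal k L) : ℤ :=
  Finset.univ.sup' Finset.univ_nonempty (fun j : Fin (X.n + 1) => -P (VGy X j))

theorem VGy_ne (X : ProjVar k L) (j : Fin (X.n + 1)) : VGy X j ≠ 0 :=
  div_ne_zero (X.x_ne j) (X.x_ne 0)

theorem VGy_mem (X : ProjVar k L) (j : Fin (X.n + 1)) : VGy X j ∈ VGW X :=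
  Submodule.subset_span ⟨j, rfl⟩

theorem VG_one_mem (X : ProjVar k L) : (1 : L) ∈ VGW X := by
  have h : VGy X 0 = 1 := div_self (X.x_ne 0)
  rw [← h]
  exact VGy_mem X 0

theorem VG_one_mem_pow (X : ProjVar k L) (T : ℕ) : (1 : L) ∈ VGW X ^ T := by
  have h := Submodule.pow_mem_pow (VGW X) (VG_one_mem X) T
  rwa [one_pow] at h

theorem VGmu_ge (X : ProjVar k L) (P : DVal k L) (j : Fin (X.n + 1)) :
    -VGmu X P ≤ P (VGy X j) := by
  have h : -P (VGy X j) ≤ VGmu X P :=
    Finset.le_sup' (fun j : Fin (X.n + 1) => -P (VGy X j)) (Finset.mem_univ j)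
  omega

theorem VGmu_nonneg (X : ProjVar k L) (P : DVal k L) : 0 ≤ VGmu X P := by
  have h := VGmu_ge X P 0
  have h1 : VGy X 0 = 1 := div_self (X.x_ne 0)
  rw [h1, P.map_one] at h
  omega

theorem VGmu_chart (X : ProjVar k L) (P : DVal k L) (i : Fin (X.n + 1))
    (h : chart k X.x i ≤ P.ring) : P (VGy X i) = -VGmu X P := by
  apply le_antisymm _ (VGmu_ge X P i)
  have h1 : VGmu X P ≤ -P (VGy X i) := by
    apply Finset.sup'_le
    intro j _
    have h2 := (ProjVar.chart_le_iff.1 h) j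
    rw [DVal.mem_ring, P.map_div (X.x_ne j) (X.x_ne i)] at h2
    unfold VGy
    rw [P.map_div (X.x_ne j) (X.x_ne 0), P.map_div (X.x_ne i) (X.x_ne 0)]
    omega
  omega

theorem VG_W_ge (X : ProjVar k L) (P : DVal k L) {s : L} (hs : s ∈ VGW X) :
    P.Ge (-(VGmu X P : ℚ)) s := by
  have h : VGW X ≤ P.filt (-(VGmu X P : ℚ)) := by
    apply Submodule.span_le.2
    rintro _ ⟨j, rfl⟩
    change P.Ge _ _
    right
    have := VGmu_ge X P j
    exact_mod_cast this
  exact h hs

theorem VG_pow_ge (X : ProjVar k L) (P : DVal k L) (T : ℕ) :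
    ∀ s ∈ VGW X ^ T, P.Ge (-(T * VGmu X P : ℚ)) s := by
  induction T with
  | zero =>
    intro s hs
    rw [pow_zero, Submodule.mem_one] at hs
    obtain ⟨c, rfl⟩ := hs
    right
    rw [P.map_const]
    simp
  | succ T ih =>
    intro s hs
    rw [pow_succ] at hs
    refine Submodule.mul_induction_on hs ?_ ?_
    · intro a ha b hb
      have h1 := (ih a ha).mul (VG_W_ge X P hb)
      refine h1.mono ?_
      push_cast
      linarith
    · intro a b ha hb
      exact ha.add hb

/-! ### Homogenisation -/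

theorem VG_hom (X : ProjVar k L) (i : Fin (X.n + 1)) {a : L} (ha : a ∈ chart k X.x i) :
    ∃ t₀ : ℕ, ∀ t, t₀ ≤ t → a * VGy X i ^ t ∈ VGW X ^ t := by
  unfold chart at ha
  induction ha using Algebra.adjoin_induction with
  | mem a ha =>
    obtain ⟨j, rfl⟩ := ha
    refine ⟨1, fun t ht => ?_⟩
    obtain ⟨t', rfl⟩ : ∃ t', t = t' + 1 := ⟨t - 1, by omega⟩
    have h1 : X.x j / X.x i * VGy X i ^ (t' + 1) = VGy X j * VGy X i ^ t' := by
      rw [pow_succ']
      unfold VGy
      have := X.x_ne i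
      have := X.x_ne 0
      field_simp
    change X.x j / X.x i * VGy X i ^ (t' + 1) ∈ _
    rw [h1, pow_succ']
    exact Submodule.mul_mem_mul (VGy_mem X j) (Submodule.pow_mem_pow _ (VGy_mem X i) t')
  | algebraMap c =>
    refine ⟨0, fun t _ => ?_⟩
    rw [← Algebra.smul_def]
    exact Submodule.smul_mem _ _ (Submodule.pow_mem_pow _ (VGy_mem X i) t)
  | add a b _ _ iha ihb =>
    obtain ⟨t₁, h₁⟩ := iha
    obtain ⟨t₂, h₂⟩ := ihb
    refine ⟨max t₁ t₂, fun t ht => ?_⟩
    rw [add_mul]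
    exact Submodule.add_mem _ (h₁ t ((le_max_left _ _).trans ht))
      (h₂ t ((le_max_right _ _).trans ht))
  | mul a b _ _ iha ihb =>
    obtain ⟨t₁, h₁⟩ := iha
    obtain ⟨t₂, h₂⟩ := ihb
    refine ⟨t₁ + t₂, fun t ht => ?_⟩
    obtain ⟨t', rfl⟩ : ∃ t', t = t₁ + t' := ⟨t - t₁, by omega⟩
    have h3 : a * b * VGy X i ^ (t₁ + t') = (a * VGy X i ^ t₁) * (b * VGy X i ^ t') := by
      rw [pow_add]
      ring
    rw [h3, pow_add]
    exact Submodule.mul_mem_mul (h₁ t₁ le_rfl) (h₂ t' (by omega))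

/-! ### Multiples of a hyperplane section -/

theorem VG_one_point (X : ProjVar k L) (P₀ : X.primeDivisors) :
    ∃ (T : ℕ) (g : L), g ≠ 0 ∧ g ∈ VGW X ^ T ∧ 1 - T * VGmu X P₀.1 ≤ P₀.1 g := by
  obtain ⟨i, p, hp, hR⟩ := X.mem_localRings.1 P₀.2
  have hle : chart k X.x i ≤ P₀.1.ring := by
    rw [hR]
    exact le_locAt p
  obtain ⟨π, hπ0, hπ⟩ := P₀.1.exists_uniformizer
  obtain ⟨a, ha, b, hb, hb0, hab⟩ := X.chart_isFrac i π
  have ha0 : a ≠ 0 := by
    rintro rfl
    rw [zero_div] at hab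
    exact hπ0 hab
  have hPa : 1 ≤ P₀.1 a := by
    have h1 : 0 ≤ P₀.1 b := hle hb
    rw [hab, P₀.1.map_div ha0 hb0] at hπ
    omega
  obtain ⟨T, hT⟩ := VG_hom X i ha
  refine ⟨T, a * VGy X i ^ T, mul_ne_zero ha0 (pow_ne_zero _ (VGy_ne X i)), hT T le_rfl, ?_⟩
  rw [P₀.1.map_mul ha0 (pow_ne_zero _ (VGy_ne X i)), P₀.1.map_pow, VGmu_chart X P₀.1 i hle]
  have h3 : (T : ℤ) * -VGmu X P₀.1 = -(T * VGmu X P₀.1) := by ring
  rw [h3]
  omega

theorem VG_mult (X : ProjVar k L) (N : X.primeDivisors → ℕ)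
    (s : Finset X.primeDivisors) : ∃ (g : L) (c : ℕ), g ≠ 0 ∧
      (∀ P : X.primeDivisors, -(c * VGmu X P.1) ≤ P.1 g) ∧
      ∀ P ∈ s, (N P : ℤ) ≤ P.1 g + c * VGmu X P.1 := by
  classical
  induction s using Finset.induction_on with
  | empty =>
    refine ⟨1, 0, one_ne_zero, fun P => ?_, fun P hP => absurd hP (Finset.notMem_empty P)⟩
    rw [P.1.map_one]
    simp
  | insert Q s hQ ih =>
    obtain ⟨g, c, hg0, hg1, hg2⟩ := ih
    obtain ⟨T, g₀, hg₀, hgW, hgQ⟩ := VG_one_point X Q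
    have hgP : ∀ P : X.primeDivisors, -(T * VGmu X P.1) ≤ P.1 g₀ := by
      intro P
      have h1 := VG_pow_ge X P.1 T g₀ hgW
      rw [DVal.ge_iff hg₀] at h1
      exact_mod_cast h1
    have hval : ∀ P : X.primeDivisors, P.1 (g * g₀ ^ N Q) = P.1 g + N Q * P.1 g₀ := by
      intro P
      rw [P.1.map_mul hg0 (pow_ne_zero _ hg₀), P.1.map_pow]
    refine ⟨g * g₀ ^ N Q, c + N Q * T, mul_ne_zero hg0 (pow_ne_zero _ hg₀), fun P => ?_,
      fun P hP => ?_⟩
    · rw [hval]
      have h1 := hg1 P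
      have h2 : (N Q : ℤ) * -(T * VGmu X P.1) ≤ N Q * P.1 g₀ :=
        mul_le_mul_of_nonneg_left (hgP P) (by positivity)
      push_cast
      linarith
    · rw [hval]
      rw [Finset.mem_insert] at hP
      have h2 : (N Q : ℤ) * -(T * VGmu X P.1) ≤ N Q * P.1 g₀ :=
        mul_le_mul_of_nonneg_left (hgP P) (by positivity)
      push_cast
      rcases hP with rfl | hP
      · have h1 := hg1 P
        have h3 : (N P : ℤ) * (1 - T * VGmu X P.1) ≤ N P * P.1 g₀ :=
          mul_le_mul_of_nonneg_left hgQ (by positivity)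
        linarith
      · have h1 := hg2 P hP
        linarith


/-! ### Sections of multiples -/

theorem val_ge_mul (X : ProjVar k L) (A : X.Div) (w : DVal k L) :
    ∃ C : ℕ, ∀ (m : ℕ), ∀ f ∈ X.H0 ((m : ℚ) • A), w.Ge (-((C : ℚ) * m)) f := by
  classical
  obtain ⟨g, c, hg0, hg1, hg2⟩ := VG_mult X (fun P => ⌈A P⌉₊) A.support
  have hAg : ∀ P : X.primeDivisors, A P ≤ P.1 g + c * VGmu X P.1 := by
    intro P
    by_cases hP : P ∈ A.support
    · have h1 := hg2 P hP
      have h2 : A P ≤ (⌈A P⌉₊ : ℚ) := Nat.le_ceil _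
      have h3 : ((⌈A P⌉₊ : ℤ) : ℚ) ≤ ((P.1 g + c * VGmu X P.1 : ℤ) : ℚ) := by
        exact_mod_cast h1
      push_cast at h3
      linarith
    · rw [Finsupp.notMem_support_iff] at hP
      rw [hP]
      have h1 := hg1 P
      have h2 : ((-(c * VGmu X P.1) : ℤ) : ℚ) ≤ ((P.1 g : ℤ) : ℚ) := by exact_mod_cast h1
      push_cast at h2
      linarith
  -- the chart containing the centre of `w`
  obtain ⟨i, -, hi⟩ := Finset.exists_min_image (Finset.univ : Finset (Fin (X.n + 1)))
    (fun i => w (X.x i)) Finset.univ_nonempty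
  have hle : chart k X.x i ≤ w.ring := by
    rw [ProjVar.chart_le_iff]
    intro j
    rw [DVal.mem_ring, DVal.map_div _ (X.x_ne j) (X.x_ne i)]
    have := hi j (Finset.mem_univ j)
    omega
  refine ⟨(w g).natAbs + c * (w (VGy X i)).natAbs, fun m f hf => ?_⟩
  by_cases hf0 : f = 0
  · exact Or.inl hf0
  have hfP : ∀ P : X.primeDivisors, -(m * A P) ≤ (P.1 f : ℚ) := by
    intro P
    unfold ProjVar.H0 sec at hf
    rw [Submodule.mem_iInf] at hf
    have h1 := hf P
    rw [DVal.mem_filt, DVal.ge_iff hf0, Finsupp.smul_apply, smul_eq_mul] at h1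
    exact h1
  have hfg0 : f * g ^ m ≠ 0 := mul_ne_zero hf0 (pow_ne_zero _ hg0)
  have hy0 : VGy X i ^ (c * m) ≠ 0 := pow_ne_zero _ (VGy_ne X i)
  have hz : f * g ^ m / VGy X i ^ (c * m) ∈ chart k X.x i := by
    apply VG_chart_hartogs
    intro P hP hPle
    rw [P.map_div hfg0 hy0, P.map_mul hf0 (pow_ne_zero _ hg0), P.map_pow, P.map_pow,
      VGmu_chart X P i hPle]
    have h1 := hfP ⟨P, hP⟩
    have h2 := hAg ⟨P, hP⟩
    change A ⟨P, hP⟩ ≤ P g + c * VGmu X P at h2
    change -(m * A ⟨P, hP⟩) ≤ (P f : ℚ) at h1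
    have h3 : (m : ℚ) * A ⟨P, hP⟩ ≤ m * (P g + c * VGmu X P) :=
      mul_le_mul_of_nonneg_left h2 (Nat.cast_nonneg m)
    have h4 : (0 : ℚ) ≤ ((P f + m * P g - (c * m : ℕ) * -VGmu X P : ℤ) : ℚ) := by
      push_cast
      linarith
    exact_mod_cast h4
  have hwz := hle hz
  rw [DVal.mem_ring, w.map_div hfg0 hy0, w.map_mul hf0 (pow_ne_zero _ hg0), w.map_pow,
    w.map_pow] at hwz
  right
  have h1 : w g ≤ (w g).natAbs := Int.le_natAbs
  have h2 : -w (VGy X i) ≤ (w (VGy X i)).natAbs := by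
    have := Int.le_natAbs (a := -w (VGy X i))
    rwa [Int.natAbs_neg] at this
  have h3 : (m : ℤ) * w g ≤ m * (w g).natAbs := mul_le_mul_of_nonneg_left h1 (Int.natCast_nonneg m)
  have h4 : ((c * m : ℕ) : ℤ) * -w (VGy X i) ≤ ((c * m : ℕ) : ℤ) * (w (VGy X i)).natAbs :=
    mul_le_mul_of_nonneg_left h2 (Int.natCast_nonneg _)
  have h5 : -((((w g).natAbs + c * (w (VGy X i)).natAbs : ℕ) : ℤ) * m) ≤ w f := by
    push_cast at h3 h4 hwz ⊢
    linarith
  exact_mod_cast h5

theorem val_ge (X : ProjVar k L) (D A : X.Div) (w : DVal k L) :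
    ∃ C : ℕ, ∀ (m : ℕ), ∀ f ∈ X.H0 ((m : ℚ) • D + A), w.Ge (-((C : ℚ) * (m + 1))) f := by
  classical
  set A₁ : X.Div := D.mapRange (fun q : ℚ => |q|) abs_zero + A.mapRange (fun q : ℚ => |q|) abs_zero
    with hA₁
  obtain ⟨C, hC⟩ := val_ge_mul X A₁ w
  refine ⟨C, fun m f hf => ?_⟩
  have h1 : f ∈ X.H0 (((m + 1 : ℕ) : ℚ) • A₁) := by
    have h2 : X.H0 ((m : ℚ) • D + A) ≤ X.H0 (((m + 1 : ℕ) : ℚ) • A₁) := by
      apply sec_mono
      intro P
      rw [Finsupp.add_apply, Finsupp.smul_apply, Finsupp.smul_apply, hA₁, Finsupp.add_apply,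
        Finsupp.mapRange_apply, Finsupp.mapRange_apply, smul_eq_mul, smul_eq_mul]
      have h3 := le_abs_self (D P)
      have h4 := le_abs_self (A P)
      have h5 := abs_nonneg (D P)
      have h6 := abs_nonneg (A P)
      have h7 : (0 : ℚ) ≤ m := Nat.cast_nonneg m
      push_cast
      nlinarith
    exact h2 hf
  have h2 := hC (m + 1) f h1
  push_cast at h2
  exact h2

/-- Linear bounds at a discrete valuation of an extension field. -/
theorem val_ge_ext {E : Type*} [Field E] [Algebra k E] [Algebra L E] [IsScalarTower k L E]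
    (X : ProjVar k L) (D A : X.Div) (w : DVal k E) :
    ∃ C : ℕ, ∀ (m : ℕ), ∀ f ∈ X.H0 ((m : ℚ) • D + A),
      w.Ge (-((C : ℚ) * (m + 1))) (algebraMap L E f) := by
  by_cases h : ∃ a : L, w (algebraMap L E a) ≠ 0
  · obtain ⟨Q, e, he, hQ⟩ := exists_base w h
    obtain ⟨C, hC⟩ := val_ge X D A Q
    refine ⟨C * e, fun m f hf => ?_⟩
    rcases hC m f hf with h1 | h1
    · left; rw [h1, map_zero]
    · right
      rw [hQ]
      have h2 : (0 : ℚ) ≤ e := Nat.cast_nonneg e
      have h3 := mul_le_mul_of_nonneg_left h1 h2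
      push_cast
      linarith
  · push Not at h
    refine ⟨0, fun m f _ => ?_⟩
    right
    rw [h f]
    simp

end Pool.Agent.Helper60.PB
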